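import Pool.Agent.Lib.MP_42948a_nt.OA.Defs

/-!
# The blocks `Pj z j`, `j < z`, partition the primes `≤ z` (job SC)

`zs z 0 = z`, `zs z (j+1) = Nat.sqrt (zs z j)`. `zs` is antitone (`Nat.sqrt_le_self`); `zs z j ≤ max 1 (z - j)` by induction (if
`n ≥ 2` then `Nat.sqrt n < n`, `Nat.sqrt_lt_self`), so `zs z z ≤ 1`. A prime `p ≤ z` satisfies `p ≤ zs z 0` and `¬ p ≤ zs z z`; let
`j` be the least index with `¬ p ≤ zs z (j+1)` (`Nat.find`), then `p ∈ Pj z j` and `j < z`. Two blocks are disjoint because the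
intervals `(zs z (j+1), zs z j]` are disjoint (antitone). `zs_pow`: `(zs z (j+1))^2 ≤ zs z j` (`Nat.sqrt_le'`), so
`(zs z j)^(2^j) ≤ z` by induction.
-/

namespace Pool.Agent.Lib.MP_42948a_nt.OA

open Finset

theorem SC_anti (z : ℕ) {i j : ℕ} (h : i ≤ j) : zs z j ≤ zs z i := by
  induction j with
  | zero =>
    rw [Nat.le_zero.mp h]
  | succ j ih =>
    rcases Nat.lt_or_ge j i with h1 | h1
    · rw [show i = j + 1 by omega]
    · refine le_trans ?_ (ih h1)
      show Nat.sqrt (zs z j) ≤ zs z j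
      exact Nat.sqrt_le_self _

theorem SC_max (z j : ℕ) : zs z j ≤ max 1 (z - j) := by
  induction j with
  | zero =>
    show z ≤ max 1 (z - 0)
    rw [Nat.sub_zero]
    exact le_max_right _ _
  | succ j ih =>
    show Nat.sqrt (zs z j) ≤ max 1 (z - (j + 1))
    rcases Nat.lt_or_ge (zs z j) 2 with h | h
    · have := Nat.sqrt_le_self (zs z j)
      exact le_trans (by omega) (le_max_left _ _)
    · have h1 := Nat.sqrt_lt_self (show 1 < zs z j by omega)
      have h2 : zs z j ≤ z - j := by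
        rcases le_max_iff.mp ih with h3 | h3
        · omega
        · exact h3
      exact le_trans (by omega) (le_max_right _ _)

theorem SC_top (z : ℕ) : zs z z ≤ 1 := by
  have := SC_max z z
  rw [Nat.sub_self] at this
  exact le_trans this (by simp)

theorem zs_pow (z j : ℕ) : (zs z j) ^ (2 ^ j) ≤ z := by
  induction j with
  | zero => simp [zs]
  | succ j ih =>
    have h1 : (zs z (j + 1)) ^ 2 ≤ zs z j := by
      show (Nat.sqrt (zs z j)) ^ 2 ≤ zs z j
      exact Nat.sqrt_le' _
    calc (zs z (j + 1)) ^ (2 ^ (j + 1)) = ((zs z (j + 1)) ^ 2) ^ (2 ^ j) := by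
          rw [← pow_mul, pow_succ, mul_comm]
      _ ≤ (zs z j) ^ (2 ^ j) := Nat.pow_le_pow_left h1 _
      _ ≤ z := ih

theorem Pj_disjoint (z : ℕ) {i j : ℕ} (hij : i ≠ j) : Disjoint (Pj z i) (Pj z j) := by
  rw [Finset.disjoint_left]
  intro p hp hp'
  unfold Pj at hp hp'
  obtain ⟨_, h1, h2⟩ := Finset.mem_filter.mp hp
  obtain ⟨_, h3, h4⟩ := Finset.mem_filter.mp hp'
  rcases lt_or_gt_of_ne hij with h | h
  · have := SC_anti z (show i + 1 ≤ j from h)
    omega
  · have := SC_anti z (show j + 1 ≤ i from h)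
    omega

theorem PP_eq_biUnion (z : ℕ) : PP z = (range z).biUnion (fun j => Pj z j) := by
  ext p
  rw [Finset.mem_biUnion]
  constructor
  · intro hp
    have hp' := hp
    unfold PP at hp'
    obtain ⟨h1, hpr⟩ := Finset.mem_filter.mp hp'
    rw [Finset.mem_Icc] at h1
    have hz := SC_top z
    have h2 := hpr.two_le
    have hex : ∃ j, ¬ p ≤ zs z (j + 1) := by
      refine ⟨z, ?_⟩
      have := SC_anti z (show z ≤ z + 1 by omega)
      omega
    classical
    have hs := Nat.find_spec hex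
    have hmin := fun m (hm : m < Nat.find hex) => Nat.find_min hex hm
    set j := Nat.find hex with hj
    have hle : p ≤ zs z j := by
      rcases Nat.eq_zero_or_pos j with h0 | h0
      · rw [h0]
        exact h1.2
      · have h3 := hmin (j - 1) (by omega)
        rw [not_not, show j - 1 + 1 = j by omega] at h3
        exact h3
    have hjz : j < z := by
      by_contra hc
      have := SC_anti z (not_lt.mp hc)
      omega
    refine ⟨j, Finset.mem_range.mpr hjz, ?_⟩
    unfold Pj
    exact Finset.mem_filter.mpr ⟨hp, not_le.mp hs, hle⟩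
  · rintro ⟨j, _, hj⟩
    unfold Pj at hj
    exact (Finset.mem_filter.mp hj).1

theorem prod_PP (z : ℕ) (f : ℕ → ℝ) : ∏ p ∈ PP z, f p = ∏ j ∈ range z, ∏ p ∈ Pj z j, f p := by
  rw [PP_eq_biUnion, Finset.prod_biUnion]
  intro i _ j _ hij
  exact Pj_disjoint z hij

end Pool.Agent.Lib.MP_42948a_nt.OA
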