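import Pool.Agent.Lib.MP_42948a_nt.OA.Defs

/-!
# Elementary bounds (job SE)

`esy_le`: `esy S g k ≤ (∑ g)^k / k!` for `g ≥ 0`. Induction on `k` and `S`, or Mathlib: `Finset.esymm`/`Multiset`-Maclaurin; the easiest
proof is by induction on `S` for all `k`: `esy (insert p S) g (k+1) = esy S g (k+1) + g p * esy S g k ≤
s^(k+1)/(k+1)! + g p * s^k/k! ≤ (s + g p)^(k+1)/(k+1)!` because `(s+t)^(k+1) ≥ s^(k+1) + (k+1) t s^k` for `s, t ≥ 0`
(Bernoulli type inequality, induction on `k`).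
`exp_le_prod`: on `[0, 3/4]` one has `exp (-2 t) ≤ 1 - t` (convexity of `exp`, or: `exp (-2t) * (1 + 2t + 2t^2) ≤ 1` since
`1 + x + x^2/2 ≤ exp x`, and `(1 - t)(1 + 2t + 2t^2) = 1 + t - 2 t^3 ≥ 1` for `0 ≤ t ≤ 1/√2`; for `t` in `[0.7, 0.75]` use
`exp(-2t) ≤ exp(-1.4) < 0.25 ≤ 1 - t`; `exp 1.4 > 4` e.g. from `1 + x + x^2/2 + x^3/6 + x^4/24 ≤ exp x`, or
`Real.exp_one_gt_d9`), then take the product over `S` (`Real.exp_sum`, `Finset.prod_le_prod`).
-/

namespace Pool.Agent.Lib.MP_42948a_nt.OA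

open Finset

private theorem SE_insert (S : Finset ℕ) (g : ℕ → ℝ) {p : ℕ} (hp : p ∉ S) (k : ℕ) :
    esy (insert p S) g (k + 1) = esy S g (k + 1) + g p * esy S g k := by
  unfold esy
  rw [powersetCard_succ_insert hp, sum_union, sum_image]
  · congr 1
    rw [mul_sum]
    refine sum_congr rfl fun T hT => ?_
    rw [prod_insert fun h => hp ((mem_powersetCard.1 hT).1 h)]
  · intro T hT T' hT' h
    have h1 : p ∉ T := fun h => hp ((mem_powersetCard.1 (mem_coe.1 hT)).1 h)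
    have h2 : p ∉ T' := fun h => hp ((mem_powersetCard.1 (mem_coe.1 hT')).1 h)
    have h3 : (insert p T).erase p = (insert p T').erase p := congrArg (fun X : Finset ℕ => X.erase p) h
    rwa [erase_insert h1, erase_insert h2] at h3
  · rw [disjoint_left]
    intro T hT hT'
    obtain ⟨T', hT'', rfl⟩ := mem_image.1 hT'
    exact hp ((mem_powersetCard.1 hT).1 (mem_insert_self p T'))

private theorem SE_pow {s t : ℝ} (hs : 0 ≤ s) (ht : 0 ≤ t) (k : ℕ) :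
    s ^ (k + 1) + (k + 1 : ℝ) * t * s ^ k ≤ (s + t) ^ (k + 1) := by
  induction k with
  | zero => simp
  | succ k ih =>
    have h1 : (s ^ (k + 1) + (k + 1 : ℝ) * t * s ^ k) * (s + t) ≤ (s + t) ^ (k + 1) * (s + t) :=
      mul_le_mul_of_nonneg_right ih (by positivity)
    have h2 : 0 ≤ (k + 1 : ℝ) * t ^ 2 * s ^ k := by positivity
    calc s ^ (k + 1 + 1) + ((k + 1 : ℕ) + 1 : ℝ) * t * s ^ (k + 1)
        = (s ^ (k + 1) + (k + 1 : ℝ) * t * s ^ k) * (s + t) - (k + 1 : ℝ) * t ^ 2 * s ^ k := by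
          push_cast
          ring
      _ ≤ (s + t) ^ (k + 1) * (s + t) := by linarith
      _ = (s + t) ^ (k + 1 + 1) := by ring

private theorem SE_exp {t : ℝ} (h0 : 0 ≤ t) (h1 : t ≤ 3 / 4) : Real.exp (-(2 * t)) ≤ 1 - t := by
  have h2 := Real.sum_le_exp_of_nonneg (show 0 ≤ 2 * t by linarith) 4
  have h3 : ∑ i ∈ range 4, (2 * t) ^ i / (i.factorial : ℝ) = 1 + 2 * t + 2 * t ^ 2 + 4 / 3 * t ^ 3 := by
    simp only [sum_range_succ, sum_range_zero, Nat.factorial]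
    norm_num
    ring
  rw [h3] at h2
  rw [Real.exp_neg, inv_le_iff_one_le_mul₀ (Real.exp_pos _)]
  have h4 : 0 ≤ 1 - t := by linarith
  have h5 : (1 - t) * (1 + 2 * t + 2 * t ^ 2 + 4 / 3 * t ^ 3) ≤ (1 - t) * Real.exp (2 * t) :=
    mul_le_mul_of_nonneg_left h2 h4
  have h6 : 0 ≤ t * (1 - 2 / 3 * t ^ 2 - 4 / 3 * t ^ 3) := by
    refine mul_nonneg h0 ?_
    have h7 : t ^ 2 ≤ (3 / 4) ^ 2 := pow_le_pow_left₀ h0 h1 2
    have h8 : t ^ 3 ≤ (3 / 4) ^ 3 := pow_le_pow_left₀ h0 h1 3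
    norm_num at h7 h8 ⊢
    linarith
  nlinarith

theorem esy_le (S : Finset ℕ) (g : ℕ → ℝ) (h0 : ∀ p ∈ S, 0 ≤ g p) (k : ℕ) :
    esy S g k ≤ (∑ p ∈ S, g p) ^ k / (k.factorial : ℝ) := by
  induction S using Finset.induction_on generalizing k with
  | empty =>
    rcases k with _ | k
    · simp [esy]
    · have h1 : powersetCard (k + 1) (∅ : Finset ℕ) = ∅ := powersetCard_eq_empty.2 (by simp)
      simp [esy, h1]
  | insert p S hp ih =>
    have hS : ∀ q ∈ S, 0 ≤ g q := fun q hq => h0 q (mem_insert_of_mem hq)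
    have hg : 0 ≤ g p := h0 p (mem_insert_self p S)
    have hs : 0 ≤ ∑ q ∈ S, g q := sum_nonneg hS
    rcases k with _ | k
    · simp [esy]
    · rw [SE_insert S g hp k, sum_insert hp]
      have h1 := ih hS (k + 1)
      have h2 := mul_le_mul_of_nonneg_left (ih hS k) hg
      have h3 := SE_pow hs hg k
      have hf : (0 : ℝ) < (k.factorial : ℝ) := by exact_mod_cast Nat.factorial_pos k
      have hf2 : (((k + 1).factorial : ℕ) : ℝ) = (k + 1 : ℝ) * (k.factorial : ℝ) := by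
        rw [Nat.factorial_succ]
        push_cast
        ring
      have h4 : (∑ q ∈ S, g q) ^ (k + 1) / (((k + 1).factorial : ℕ) : ℝ) +
          g p * ((∑ q ∈ S, g q) ^ k / (k.factorial : ℝ)) =
          ((∑ q ∈ S, g q) ^ (k + 1) + (k + 1 : ℝ) * g p * (∑ q ∈ S, g q) ^ k) / (((k + 1).factorial : ℕ) : ℝ) := by
        rw [hf2]
        have hk : (k + 1 : ℝ) ≠ 0 := by positivity
        field_simp
      have h5 : ((∑ q ∈ S, g q) ^ (k + 1) + (k + 1 : ℝ) * g p * (∑ q ∈ S, g q) ^ k) / (((k + 1).factorial : ℕ) : ℝ) ≤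
          (∑ q ∈ S, g q + g p) ^ (k + 1) / (((k + 1).factorial : ℕ) : ℝ) :=
        div_le_div_of_nonneg_right h3 (by positivity)
      rw [add_comm (g p)]
      linarith

theorem exp_le_prod (S : Finset ℕ) (g : ℕ → ℝ) (h0 : ∀ p ∈ S, 0 ≤ g p) (h1 : ∀ p ∈ S, g p ≤ 3 / 4) :
    Real.exp (-(2 * ∑ p ∈ S, g p)) ≤ ∏ p ∈ S, (1 - g p) := by
  have h2 : Real.exp (-(2 * ∑ p ∈ S, g p)) = ∏ p ∈ S, Real.exp (-(2 * g p)) := by
    rw [← Real.exp_sum, sum_neg_distrib, mul_sum]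
  rw [h2]
  exact prod_le_prod (fun p _ => (Real.exp_pos _).le) fun p hp => SE_exp (h0 p hp) (h1 p hp)

end Pool.Agent.Lib.MP_42948a_nt.OA
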