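import Pool.Agent.Lib.MP_42948a_nt.OA.SF1
import Pool.Agent.Lib.MP_42948a_nt.OA.SC

/-!
# The sum of `1/p` over a block is bounded (job SF)

Let `m = zs z (j+1) = Nat.sqrt (zs z j)`; the primes of the block satisfy `m < p ≤ zs z j < (m+1)^2` (`Nat.lt_succ_sqrt'`).
If `m ≤ 1` the primes are among `2, 3`: sum `≤ 5/6`. If `m ≥ 2`: cover `(m, (m+1)^2)` by the dyadic intervals `(2^i m, 2^{i+1} m]`,
`i = 0, ..., I-1`, where `I` is such that `2^I m ≥ (m+1)^2`; since `(m+1)^2 ≤ 4 m^2` one may take `I` with `2^I ≥ 4 m`, e.g.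
`I = Nat.clog 2 m + 2` (so `I ≤ log_2 m + 3 ≤ 4 log m / log 2`... any linear bound in `log m`, valid for `m ≥ 2`). By `recip_dyadic`
each dyadic interval contributes at most `2 log 4 / log (2^i m) ≤ 2 log 4 / log m`. Total `≤ I * 2 log 4 / log m ≤` absolute constant.
-/

namespace Pool.Agent.Lib.MP_42948a_nt.OA

open Finset

theorem SF_small {z j : ℕ} (hm : zs z (j + 1) ≤ 1) : ∑ p ∈ Pj z j, (1 : ℝ) / p ≤ 16 := by
  have hsub : Pj z j ⊆ ({2, 3} : Finset ℕ) := by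
    intro p hp
    simp only [Pj, PP, mem_filter, mem_Icc] at hp
    obtain ⟨⟨-, hpp⟩, -, h2⟩ := hp
    have h3 : zs z j < (Nat.sqrt (zs z j) + 1) ^ 2 := Nat.lt_succ_sqrt' _
    have h4 : Nat.sqrt (zs z j) ≤ 1 := hm
    have h5 : (Nat.sqrt (zs z j) + 1) ^ 2 ≤ 2 ^ 2 := Nat.pow_le_pow_left (by omega) 2
    have h6 : 2 ≤ p := hpp.two_le
    simp only [mem_insert, mem_singleton]
    omega
  calc ∑ p ∈ Pj z j, (1 : ℝ) / p ≤ ∑ p ∈ ({2, 3} : Finset ℕ), (1 : ℝ) / p :=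
        Finset.sum_le_sum_of_subset_of_nonneg hsub (fun p _ _ => by positivity)
    _ ≤ 16 := by
        rw [Finset.sum_insert (by norm_num), Finset.sum_singleton]
        norm_num

theorem SF_idx {m p : ℕ} (hm : 2 ≤ m) (h1 : m < p) (h2 : p < (m + 1) ^ 2) :
    2 ^ (Nat.log 2 ((p - 1) / m)) * m < p ∧ p ≤ 2 * (2 ^ (Nat.log 2 ((p - 1) / m)) * m) ∧
      Nat.log 2 ((p - 1) / m) < Nat.clog 2 m + 2 := by
  set q := (p - 1) / m with hq
  have hm0 : 0 < m := by omega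
  have hq1 : 1 ≤ q := (Nat.one_le_div_iff hm0).2 (by omega)
  have a1 : 2 ^ (Nat.log 2 q) ≤ q := Nat.pow_log_le_self 2 (by omega)
  have a2 : q < 2 ^ (Nat.log 2 q + 1) := Nat.lt_pow_succ_log_self (by norm_num) q
  have a3 : q * m ≤ p - 1 := Nat.div_mul_le_self _ _
  have a4 : p - 1 < (q + 1) * m := by
    have h1 := Nat.lt_mul_div_succ (p - 1) hm0
    rw [mul_comm]
    exact h1
  refine ⟨?_, ?_, ?_⟩
  · have : 2 ^ (Nat.log 2 q) * m ≤ q * m := Nat.mul_le_mul_right _ a1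
    omega
  · have h3 : (q + 1) * m ≤ 2 ^ (Nat.log 2 q + 1) * m := Nat.mul_le_mul_right _ a2
    have h4 : 2 ^ (Nat.log 2 q + 1) * m = 2 * (2 ^ (Nat.log 2 q) * m) := by ring
    omega
  · have h3 : (m + 1) ^ 2 ≤ 4 * m * m := by nlinarith
    have h4 : q * m < 4 * m * m := by omega
    have h5 : q < 4 * m := Nat.lt_of_mul_lt_mul_right h4
    have h6 : m ≤ 2 ^ Nat.clog 2 m := Nat.le_pow_clog (by norm_num) m
    have h7 : 2 ^ (Nat.log 2 q) < 2 ^ (Nat.clog 2 m + 2) := by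
      rw [pow_add]
      omega
    exact (Nat.pow_lt_pow_iff_right (by norm_num)).1 h7

theorem SF_clog {m : ℕ} (hm : 2 ≤ m) : ((Nat.clog 2 m + 2 : ℕ) : ℝ) * Real.log 2 ≤ 4 * Real.log m := by
  have h1 : 2 ^ (Nat.clog 2 m - 1) < m := Nat.pow_pred_clog_lt_self (by norm_num) (by omega)
  have h2 : 1 ≤ Nat.clog 2 m := Nat.clog_pos (by norm_num) hm
  have hlog2 : 0 < Real.log 2 := Real.log_pos (by norm_num)
  have h3 : ((Nat.clog 2 m - 1 : ℕ) : ℝ) * Real.log 2 ≤ Real.log m := by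
    rw [← Real.log_pow]
    apply Real.log_le_log (by positivity)
    exact_mod_cast h1.le
  have h4 : Real.log 2 ≤ Real.log m := Real.log_le_log (by norm_num) (by exact_mod_cast hm)
  have h5 : ((Nat.clog 2 m + 2 : ℕ) : ℝ) = ((Nat.clog 2 m - 1 : ℕ) : ℝ) + 3 := by
    have : Nat.clog 2 m + 2 = (Nat.clog 2 m - 1) + 3 := by omega
    rw [this]
    push_cast
    ring
  rw [h5, add_mul]
  linarith

theorem SF_big {z j : ℕ} (hm : 2 ≤ zs z (j + 1)) : ∑ p ∈ Pj z j, (1 : ℝ) / p ≤ 16 := by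
  set m := zs z (j + 1) with hmdef
  have hmem : ∀ p ∈ Pj z j, p.Prime ∧ m < p ∧ p < (m + 1) ^ 2 := by
    intro p hp
    simp only [Pj, PP, mem_filter, mem_Icc] at hp
    obtain ⟨⟨-, hpp⟩, h1, h2⟩ := hp
    have h3 : zs z j < (Nat.sqrt (zs z j) + 1) ^ 2 := Nat.lt_succ_sqrt' _
    exact ⟨hpp, h1, lt_of_le_of_lt h2 h3⟩
  set I := Nat.clog 2 m + 2 with hI
  have hmaps : ∀ p ∈ Pj z j, Nat.log 2 ((p - 1) / m) ∈ range I := by
    intro p hp
    obtain ⟨-, h1, h2⟩ := hmem p hp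
    exact mem_range.2 (SF_idx hm h1 h2).2.2
  rw [← Finset.sum_fiberwise_of_maps_to hmaps]
  have hlogm : 0 < Real.log m := Real.log_pos (by exact_mod_cast (by omega : 1 < m))
  have hlog4 : 0 < Real.log 4 := Real.log_pos (by norm_num)
  have hlog2 : 0 < Real.log 2 := Real.log_pos (by norm_num)
  have hin : ∀ i ∈ range I, ∑ p ∈ (Pj z j).filter (fun p => Nat.log 2 ((p - 1) / m) = i), (1 : ℝ) / p ≤
      2 * Real.log 4 / Real.log m := by
    intro i _
    have hN : 2 ≤ 2 ^ i * m := le_trans hm (Nat.le_mul_of_pos_left _ (by positivity))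
    have hsub : (Pj z j).filter (fun p => Nat.log 2 ((p - 1) / m) = i) ⊆
        (Ioc (2 ^ i * m) (2 * (2 ^ i * m))).filter Nat.Prime := by
      intro p hp
      rw [mem_filter] at hp
      obtain ⟨hp1, hp2⟩ := hp
      obtain ⟨hpp, h1, h2⟩ := hmem p hp1
      obtain ⟨a1, a2, -⟩ := SF_idx hm h1 h2
      rw [hp2] at a1 a2
      rw [mem_filter, mem_Ioc]
      exact ⟨⟨a1, a2⟩, hpp⟩
    calc ∑ p ∈ (Pj z j).filter (fun p => Nat.log 2 ((p - 1) / m) = i), (1 : ℝ) / p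
        ≤ ∑ p ∈ (Ioc (2 ^ i * m) (2 * (2 ^ i * m))).filter Nat.Prime, (1 : ℝ) / p :=
          Finset.sum_le_sum_of_subset_of_nonneg hsub (fun p _ _ => by positivity)
      _ ≤ 2 * Real.log 4 / Real.log ((2 ^ i * m : ℕ) : ℝ) := recip_dyadic _ hN
      _ ≤ 2 * Real.log 4 / Real.log m := by
          apply div_le_div_of_nonneg_left (by positivity) hlogm
          apply Real.log_le_log (by exact_mod_cast (by omega : 0 < m))
          exact_mod_cast Nat.le_mul_of_pos_left m (by positivity)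
  calc ∑ i ∈ range I, ∑ p ∈ (Pj z j).filter (fun p => Nat.log 2 ((p - 1) / m) = i), (1 : ℝ) / p
      ≤ ∑ _i ∈ range I, 2 * Real.log 4 / Real.log m := Finset.sum_le_sum hin
    _ = (I : ℝ) * (2 * Real.log 4 / Real.log m) := by
        rw [Finset.sum_const, card_range, nsmul_eq_mul]
    _ ≤ 16 := by
        have h1 : (I : ℝ) * Real.log 2 ≤ 4 * Real.log m := SF_clog hm
        have h2 : Real.log 4 = 2 * Real.log 2 := by
          rw [show (4 : ℝ) = 2 ^ 2 by norm_num, Real.log_pow]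
          norm_num
        rw [h2, ← mul_div_assoc, div_le_iff₀ hlogm]
        nlinarith

theorem block_recip : ∃ L0 : ℝ, 0 < L0 ∧ ∀ z j : ℕ, ∑ p ∈ Pj z j, (1 : ℝ) / p ≤ L0 := by
  refine ⟨16, by norm_num, fun z j => ?_⟩
  rcases Nat.lt_or_ge (zs z (j + 1)) 2 with h | h
  · exact SF_small (by omega)
  · exact SF_big h

end Pool.Agent.Lib.MP_42948a_nt.OA
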