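import Pool.Agent.Lib.MP_42948a_nt.OA.Defs

/-!
# Tail of the exponential series (job SG)

`∑_k L^k / k!` is summable (`Real.summable_pow_div_factorial`), so its tails tend to `0`; the terms of the sum are distinct terms
(index `2 (b0 + l) + 1`) of the tail `∑_{k ≥ b0}`. E.g. the series `∑_b L^(2b+1)/(2b+1)!` is summable (injective reindexing),
its tail sums `∑_{l<J} f (b0 + l) ≤ ∑' l, f (b0 + l) → 0` (`tendsto_sum_nat_add`).
-/

namespace Pool.Agent.Lib.MP_42948a_nt.OA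

open Finset

theorem exp_tail (L δ : ℝ) (hL : 0 ≤ L) (hδ : 0 < δ) :
    ∃ b0 : ℕ, ∀ J : ℕ,
      ∑ l ∈ range J, L ^ (2 * (b0 + l) + 1) / ((2 * (b0 + l) + 1).factorial : ℝ) ≤ δ := by
  have hinj : Function.Injective (fun b : ℕ => 2 * b + 1) := by
    intro a b h
    have h' : 2 * a + 1 = 2 * b + 1 := h
    omega
  have hs : Summable (fun b : ℕ => L ^ (2 * b + 1) / ((2 * b + 1).factorial : ℝ)) :=
    (Real.summable_pow_div_factorial L).comp_injective hinj
  have ht := tendsto_sum_nat_add (fun b : ℕ => L ^ (2 * b + 1) / ((2 * b + 1).factorial : ℝ))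
  have hev := ht.eventually (gt_mem_nhds hδ)
  obtain ⟨b0, hb0⟩ := hev.exists
  refine ⟨b0, fun J => ?_⟩
  have hs' : Summable (fun l : ℕ => L ^ (2 * (l + b0) + 1) / ((2 * (l + b0) + 1).factorial : ℝ)) :=
    (summable_nat_add_iff b0).mpr hs
  have h1 : ∑ l ∈ range J, L ^ (2 * (l + b0) + 1) / ((2 * (l + b0) + 1).factorial : ℝ)
      ≤ ∑' l : ℕ, L ^ (2 * (l + b0) + 1) / ((2 * (l + b0) + 1).factorial : ℝ) := by
    refine hs'.sum_le_tsum _ ?_
    intro i _
    positivity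
  have h2 : ∑ l ∈ range J, L ^ (2 * (b0 + l) + 1) / ((2 * (b0 + l) + 1).factorial : ℝ)
      = ∑ l ∈ range J, L ^ (2 * (l + b0) + 1) / ((2 * (l + b0) + 1).factorial : ℝ) := by
    refine Finset.sum_congr rfl ?_
    intro l _
    rw [Nat.add_comm b0 l]
  rw [h2]
  exact le_of_lt (lt_of_le_of_lt h1 hb0)

end Pool.Agent.Lib.MP_42948a_nt.OA
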