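import Pool.Agent.Lib.MP_42948a_nt.OA.Defs

/-!
# Expanding a product over disjoint blocks (job SI)

By induction on `I` (`Finset.induction_on`): for a new block `j ∉ I`, with `A = I.biUnion S` and `B = S j` disjoint,
`∑_{T ⊆ A ∪ B} F (T ∩ A, T ∩ B)= ∑_{T1 ⊆ A} ∑_{T2 ⊆ B} F (T1, T2)` via the bijection `(T1, T2) ↦ T1 ∪ T2`
(`Finset.sum_bij'` or `Finset.sum_nbij'` on `A.powerset ×ˢ B.powerset`), and for `T = T1 ∪ T2`: `T ∩ S i = T1 ∩ S i` for `i ∈ I`,
`T ∩ S j = T2`, `∏_T g = ∏_{T1} g * ∏_{T2} g`.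
-/

namespace Pool.Agent.Lib.MP_42948a_nt.OA

open Finset

private theorem SI_sum_union (A B : Finset ℕ) (hAB : Disjoint A B) (F : Finset ℕ → ℝ) :
    ∑ T ∈ (B ∪ A).powerset, F T = ∑ T2 ∈ B.powerset, ∑ T1 ∈ A.powerset, F (T2 ∪ T1) := by
  rw [← Finset.sum_product']
  symm
  refine Finset.sum_nbij' (fun q => q.1 ∪ q.2) (fun T => (T ∩ B, T ∩ A)) ?_ ?_ ?_ ?_ ?_
  · intro q hq
    rw [Finset.mem_product, Finset.mem_powerset, Finset.mem_powerset] at hq
    rw [Finset.mem_powerset]
    exact Finset.union_subset_union hq.1 hq.2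
  · intro T hT
    rw [Finset.mem_product, Finset.mem_powerset, Finset.mem_powerset]
    exact ⟨Finset.inter_subset_right, Finset.inter_subset_right⟩
  · intro q hq
    rw [Finset.mem_product, Finset.mem_powerset, Finset.mem_powerset] at hq
    have h1 : Disjoint q.1 A := Finset.disjoint_of_subset_left hq.1 hAB.symm
    have h2 : Disjoint q.2 B := Finset.disjoint_of_subset_left hq.2 hAB
    ext1
    · simp only
      rw [Finset.union_inter_distrib_right, Finset.inter_eq_left.mpr hq.1,
        Finset.disjoint_iff_inter_eq_empty.mp h2, Finset.union_empty]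
    · simp only
      rw [Finset.union_inter_distrib_right, Finset.inter_eq_left.mpr hq.2,
        Finset.disjoint_iff_inter_eq_empty.mp h1, Finset.empty_union]
  · intro T hT
    rw [Finset.mem_powerset] at hT
    simp only
    rw [← Finset.inter_union_distrib_left, Finset.inter_eq_left.mpr hT]
  · intro q _
    rfl

theorem prod_expand (I : Finset ℕ) (S : ℕ → Finset ℕ)
    (hS : ∀ i ∈ I, ∀ j ∈ I, i ≠ j → Disjoint (S i) (S j)) (c : ℕ → ℕ → ℝ) (g : ℕ → ℝ) :
    ∏ j ∈ I, (∑ T ∈ (S j).powerset, c j T.card * ∏ p ∈ T, g p) =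
      ∑ T ∈ (I.biUnion S).powerset, (∏ j ∈ I, c j ((T ∩ S j).card)) * ∏ p ∈ T, g p := by
  induction I using Finset.induction_on with
  | empty => simp
  | insert j I hj ih =>
    have hS' : ∀ i ∈ I, ∀ k ∈ I, i ≠ k → Disjoint (S i) (S k) := fun i hi k hk h =>
      hS i (Finset.mem_insert_of_mem hi) k (Finset.mem_insert_of_mem hk) h
    have hd : ∀ i ∈ I, Disjoint (S i) (S j) := fun i hi =>
      hS i (Finset.mem_insert_of_mem hi) j (Finset.mem_insert_self j I) (fun h => hj (h ▸ hi))
    have hAB : Disjoint (I.biUnion S) (S j) := by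
      rw [Finset.disjoint_biUnion_left]
      exact hd
    rw [Finset.prod_insert hj, ih hS', Finset.biUnion_insert, SI_sum_union (I.biUnion S) (S j) hAB,
      Finset.sum_mul_sum]
    apply Finset.sum_congr rfl
    intro T2 hT2
    apply Finset.sum_congr rfl
    intro T1 hT1
    rw [Finset.mem_powerset] at hT1 hT2
    have h12 : Disjoint T2 T1 :=
      (Finset.disjoint_of_subset_left hT1 (Finset.disjoint_of_subset_right hT2 hAB)).symm
    rw [Finset.prod_union h12, Finset.prod_insert hj]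
    have e1 : (T2 ∪ T1) ∩ S j = T2 := by
      rw [Finset.union_inter_distrib_right, Finset.inter_eq_left.mpr hT2,
        Finset.disjoint_iff_inter_eq_empty.mp (Finset.disjoint_of_subset_left hT1 hAB), Finset.union_empty]
    have e2 : ∏ i ∈ I, c i (((T2 ∪ T1) ∩ S i).card) = ∏ i ∈ I, c i ((T1 ∩ S i).card) := by
      apply Finset.prod_congr rfl
      intro i hi
      have h3 : T2 ∩ S i = ∅ :=
        Finset.disjoint_iff_inter_eq_empty.mp (Finset.disjoint_of_subset_left hT2 (hd i hi).symm)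
      rw [Finset.union_inter_distrib_right, h3, Finset.empty_union]
    rw [e1, e2]
    ring

end Pool.Agent.Lib.MP_42948a_nt.OA
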