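import Pool.Agent.Lib.MP_42948a_nt.OA.SC
import Pool.Agent.Lib.MP_42948a_nt.OA.SI

/-!
# Expansion of the functional `FF` (job SJ)

`bon S g (2 b) = ∑_{T ⊆ S} cc b |T| ∏_T g` and `esy S g (2b+1) = ∑_{T ⊆ S} ce b |T| ∏_T g` (split the powerset by cardinality:
`Finset.sum_powerset` / `Finset.sum_fiberwise`, `Finset.mem_powersetCard`). Insert in `FF`; for the `l`-th term write
`esy (Pj z l) .. * ∏_{erase l} bon .. = ∏_{j < z} (∑_{T ⊆ Pj z j} c j |T| ∏_T g)` with `c l = ce (b0 + l)` and `c j = cc (b0 + j)` for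
`j ≠ l` (`Finset.mul_prod_erase`), apply `prod_expand` with `I = range z` (`PP_eq_biUnion`), and collect.
-/

namespace Pool.Agent.Lib.MP_42948a_nt.OA

open Finset

theorem SJ_esy (S : Finset ℕ) (g : ℕ → ℝ) (k : ℕ) :
    esy S g k = ∑ T ∈ S.powerset, if T.card = k then ∏ p ∈ T, g p else 0 := by
  unfold esy
  rw [Finset.powersetCard_eq_filter, Finset.sum_filter]

theorem SJ_bon (S : Finset ℕ) (g : ℕ → ℝ) (b : ℕ) :
    bon S g (2 * b) = ∑ T ∈ S.powerset, cc b T.card * ∏ p ∈ T, g p := by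
  unfold bon
  simp only [SJ_esy, Finset.mul_sum]
  rw [Finset.sum_comm]
  refine Finset.sum_congr rfl fun T _ => ?_
  have h : ∀ k, (-1 : ℝ) ^ k * (if T.card = k then ∏ p ∈ T, g p else 0) =
      if T.card = k then (-1 : ℝ) ^ k * ∏ p ∈ T, g p else 0 := by
    intro k
    split_ifs
    · rfl
    · rw [mul_zero]
  simp only [h]
  rw [Finset.sum_ite_eq]
  unfold cc
  by_cases hT : T.card ≤ 2 * b
  · rw [if_pos (Finset.mem_range.2 (by omega)), if_pos hT]
  · rw [if_neg (fun h => hT (by rw [Finset.mem_range] at h; omega)), if_neg hT, zero_mul]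

theorem SJ_ce (S : Finset ℕ) (g : ℕ → ℝ) (b : ℕ) :
    esy S g (2 * b + 1) = ∑ T ∈ S.powerset, ce b T.card * ∏ p ∈ T, g p := by
  rw [SJ_esy]
  refine Finset.sum_congr rfl fun T _ => ?_
  unfold ce
  split_ifs
  · rw [one_mul]
  · rw [zero_mul]

theorem SJ_A (z b0 : ℕ) (g : ℕ → ℝ) :
    ∏ j ∈ range z, bon (Pj z j) g (2 * (b0 + j)) =
      ∑ T ∈ (PP z).powerset, (∏ j ∈ range z, cc (b0 + j) ((T ∩ Pj z j).card)) * ∏ p ∈ T, g p := by
  rw [PP_eq_biUnion, ← prod_expand (range z) (fun j => Pj z j) (fun i _ j _ hij => Pj_disjoint z hij)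
    (fun j => cc (b0 + j)) g]
  exact Finset.prod_congr rfl fun j _ => SJ_bon _ _ _

theorem SJ_B (z b0 : ℕ) (g : ℕ → ℝ) (l : ℕ) (hl : l ∈ range z) :
    esy (Pj z l) g (2 * (b0 + l) + 1) * ∏ j ∈ (range z).erase l, bon (Pj z j) g (2 * (b0 + j)) =
      ∑ T ∈ (PP z).powerset, (ce (b0 + l) ((T ∩ Pj z l).card) *
        ∏ j ∈ (range z).erase l, cc (b0 + j) ((T ∩ Pj z j).card)) * ∏ p ∈ T, g p := by
  have h1 : ∀ T : Finset ℕ, ce (b0 + l) ((T ∩ Pj z l).card) *
        ∏ j ∈ (range z).erase l, cc (b0 + j) ((T ∩ Pj z j).card) =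
      ∏ j ∈ range z, (fun j k => if j = l then ce (b0 + l) k else cc (b0 + j) k) j ((T ∩ Pj z j).card) := by
    intro T
    rw [← Finset.mul_prod_erase _ _ hl]
    congr 1
    · simp only [if_true]
    · refine Finset.prod_congr rfl fun j hj => ?_
      simp only [if_neg (Finset.ne_of_mem_erase hj)]
  have h2 : esy (Pj z l) g (2 * (b0 + l) + 1) * ∏ j ∈ (range z).erase l, bon (Pj z j) g (2 * (b0 + j)) =
      ∏ j ∈ range z, ∑ T ∈ (Pj z j).powerset,
        (fun j k => if j = l then ce (b0 + l) k else cc (b0 + j) k) j T.card * ∏ p ∈ T, g p := by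
    rw [← Finset.mul_prod_erase _ _ hl]
    congr 1
    · simp only [if_true]
      exact SJ_ce _ _ _
    · refine Finset.prod_congr rfl fun j hj => ?_
      simp only [if_neg (Finset.ne_of_mem_erase hj)]
      exact SJ_bon _ _ _
  simp only [h1]
  rw [h2, PP_eq_biUnion]
  exact prod_expand (range z) (fun j => Pj z j) (fun i _ j _ hij => Pj_disjoint z hij)
    (fun j k => if j = l then ce (b0 + l) k else cc (b0 + j) k) g

theorem FF_expand (z b0 : ℕ) (g : ℕ → ℝ) :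
    FF z b0 g = ∑ T ∈ (PP z).powerset, lam z b0 T * ∏ p ∈ T, g p := by
  unfold FF
  rw [SJ_A, Finset.sum_congr rfl fun l hl => SJ_B z b0 g l hl, Finset.sum_comm, ← Finset.sum_sub_distrib]
  refine Finset.sum_congr rfl fun T _ => ?_
  unfold lam
  rw [sub_mul, Finset.sum_mul]

end Pool.Agent.Lib.MP_42948a_nt.OA
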