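import Pool.Agent.Lib.MP_42948a_nt.OA.Defs

/-!
# Size and support of the sieve weights (job SK)

Put `n j = |T ∩ Pj z j|`. `|cc b k| ≤ 1`, `cc b k ≠ 0 ↔ k ≤ 2b`, `ce b k ∈ {0, 1}`, `ce b k ≠ 0 ↔ k = 2b+1`.
Case 1: `n j ≤ 2 (b0+j)` for all `j < z`: all `ce` vanish, `|lam| = |∏ cc| ≤ 1`.
Case 2: there is `l < z` with `2 (b0 + l) < n l`. Then the first product is `0`, and every term `l' ≠ l` of the sum is `0` (it contains
the factor `cc (b0+l) (n l) = 0`). So `lam = - ce (b0+l) (n l) * ∏_{erase l} cc`, of absolute value `≤ 1`; if it is not `0` then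
`n l = 2 (b0+l)+1` and `n j ≤ 2 (b0+j)` for the other `j`.
-/

namespace Pool.Agent.Lib.MP_42948a_nt.OA

open Finset

theorem SK_cc_abs (b k : ℕ) : |cc b k| ≤ 1 := by
  unfold cc
  split_ifs
  · rw [abs_pow, abs_neg, abs_one, one_pow]
  · simp

theorem SK_cc_zero (b k : ℕ) (h : 2 * b < k) : cc b k = 0 := by
  unfold cc
  rw [if_neg (by omega)]

theorem SK_ce_zero (b k : ℕ) (h : k ≠ 2 * b + 1) : ce b k = 0 := by
  unfold ce
  rw [if_neg h]

theorem SK_ce_abs (b k : ℕ) : |ce b k| ≤ 1 := by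
  unfold ce
  split_ifs <;> simp

theorem SK_prod_abs {S : Finset ℕ} (f : ℕ → ℝ) (h : ∀ j ∈ S, |f j| ≤ 1) : |∏ j ∈ S, f j| ≤ 1 := by
  rw [Finset.abs_prod]
  exact Finset.prod_le_one (fun _ _ => abs_nonneg _) h

/-- the two cases -/
theorem SK_cases (z b0 : ℕ) (T : Finset ℕ) :
    (lam z b0 T = ∏ j ∈ range z, cc (b0 + j) ((T ∩ Pj z j).card) ∧
      ∀ j < z, (T ∩ Pj z j).card ≤ 2 * (b0 + j)) ∨
    ∃ l < z, lam z b0 T = -(ce (b0 + l) ((T ∩ Pj z l).card) *
      ∏ j ∈ (range z).erase l, cc (b0 + j) ((T ∩ Pj z j).card)) := by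
  by_cases hc : ∀ j < z, (T ∩ Pj z j).card ≤ 2 * (b0 + j)
  · left
    refine ⟨?_, hc⟩
    unfold lam
    rw [Finset.sum_eq_zero, sub_zero]
    intro l hl
    rw [SK_ce_zero _ _ (by have := hc l (Finset.mem_range.mp hl); omega), zero_mul]
  · right
    push Not at hc
    obtain ⟨l, hl, hl2⟩ := hc
    refine ⟨l, hl, ?_⟩
    unfold lam
    have h1 : ∏ j ∈ range z, cc (b0 + j) ((T ∩ Pj z j).card) = 0 :=
      Finset.prod_eq_zero (Finset.mem_range.mpr hl) (SK_cc_zero _ _ hl2)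
    have h2 : ∑ l' ∈ range z, ce (b0 + l') ((T ∩ Pj z l').card) *
        ∏ j ∈ (range z).erase l', cc (b0 + j) ((T ∩ Pj z j).card) =
        ce (b0 + l) ((T ∩ Pj z l).card) *
        ∏ j ∈ (range z).erase l, cc (b0 + j) ((T ∩ Pj z j).card) := by
      rw [Finset.sum_eq_single l]
      · intro l' _ hne
        have : ∏ j ∈ (range z).erase l', cc (b0 + j) ((T ∩ Pj z j).card) = 0 :=
          Finset.prod_eq_zero (Finset.mem_erase.mpr ⟨hne.symm, Finset.mem_range.mpr hl⟩)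
            (SK_cc_zero _ _ hl2)
        rw [this, mul_zero]
      · intro h
        exact absurd (Finset.mem_range.mpr hl) h
    rw [h1, h2, zero_sub]

theorem lam_abs_le (z b0 : ℕ) (T : Finset ℕ) : |lam z b0 T| ≤ 1 := by
  rcases SK_cases z b0 T with ⟨h, _⟩ | ⟨l, _, h⟩
  · rw [h]
    exact SK_prod_abs _ fun j _ => SK_cc_abs _ _
  · rw [h, abs_neg, abs_mul]
    have h1 := SK_ce_abs (b0 + l) ((T ∩ Pj z l).card)
    have h2 := SK_prod_abs (S := (range z).erase l) (fun j => cc (b0 + j) ((T ∩ Pj z j).card))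
      fun j _ => SK_cc_abs _ _
    exact mul_le_one₀ h1 (abs_nonneg _) h2

theorem lam_support (z b0 : ℕ) (T : Finset ℕ) (h : lam z b0 T ≠ 0) :
    ∀ j < z, (T ∩ Pj z j).card ≤ 2 * (b0 + j) + 1 := by
  intro j hj
  rcases SK_cases z b0 T with ⟨_, h2⟩ | ⟨l, hl, h2⟩
  · exact (h2 j hj).trans (by omega)
  · by_contra hcon
    push Not at hcon
    apply h
    rw [h2, neg_eq_zero]
    by_cases hjl : j = l
    · subst hjl
      rw [SK_ce_zero _ _ (by omega), zero_mul]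
    · have h3 : ∏ j ∈ (range z).erase l, cc (b0 + j) ((T ∩ Pj z j).card) = 0 :=
        Finset.prod_eq_zero (Finset.mem_erase.mpr ⟨hjl, Finset.mem_range.mpr hj⟩)
          (SK_cc_zero (b0 + j) _ (by omega))
      rw [h3, mul_zero]

end Pool.Agent.Lib.MP_42948a_nt.OA
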