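import Pool.Agent.Lib.MP_42948a_nt.OA.SC

/-!
# The level of the sieve (job SL)

`∏_T p = ∏_{j<z} ∏_{T ∩ Pj z j} p` (`PP_eq_biUnion`, `Pj_disjoint`) `≤ ∏_{j<z} (zs z j)^(2 (b0+j)+1)` (each `p ∈ Pj z j` is
`≤ zs z j`, `zs z j ≥ 1` because `z ≥ 1`). By `zs_pow` `(zs z j : ℝ) ≤ z ^ ((1/2:ℝ)^j)` (`Real.rpow`), so the product is at most
`z ^ (∑_{j<z} (2 (b0+j)+1) (1/2)^j)` and `∑_{j<z} (2 (b0 + j) + 1) (1/2)^j ≤ (2 b0 + 1) * 2 + 2 * 2 = 4 b0 + 6` (prove by induction on the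
number of terms the exact formula or the bound `∑_{j<J} (2 (b0+j)+1)/2^j = 4 b0 + 6 - (4 b0 + 4 J + 6)/2^J`).
-/

namespace Pool.Agent.Lib.MP_42948a_nt.OA

open Finset

theorem SL_sum (b0 J : ℕ) :
    ∑ j ∈ range J, (2 * (b0 + j) + 1) * 2 ^ (J - j) + (4 * b0 + 4 * J + 6) = (4 * b0 + 6) * 2 ^ J := by
  induction J with
  | zero => simp
  | succ J ih =>
    rw [Finset.sum_range_succ]
    have h1 : ∑ j ∈ range J, (2 * (b0 + j) + 1) * 2 ^ (J + 1 - j) = 2 * ∑ j ∈ range J, (2 * (b0 + j) + 1) * 2 ^ (J - j) := by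
      rw [Finset.mul_sum]
      refine Finset.sum_congr rfl fun j hj => ?_
      rw [mem_range] at hj
      rw [show J + 1 - j = (J - j) + 1 by omega, pow_succ]
      ring
    rw [h1, show J + 1 - J = 1 by omega, pow_one, pow_succ 2 J]
    linarith

theorem SL_pos (z : ℕ) (hz : 1 ≤ z) (j : ℕ) : 1 ≤ zs z j := by
  induction j with
  | zero => exact hz
  | succ j ih => exact Nat.sqrt_pos.2 ih

theorem level (z b0 : ℕ) (hz : 1 ≤ z) (T : Finset ℕ) (hT : T ⊆ PP z)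
    (h : ∀ j < z, (T ∩ Pj z j).card ≤ 2 * (b0 + j) + 1) :
    ∏ p ∈ T, p ≤ z ^ (4 * b0 + 6) := by
  have hT' : T = (range z).biUnion (fun j => T ∩ Pj z j) := by
    rw [← Finset.inter_biUnion, ← PP_eq_biUnion]
    exact (Finset.inter_eq_left.2 hT).symm
  have hprod : ∏ p ∈ T, p = ∏ j ∈ range z, ∏ p ∈ T ∩ Pj z j, p := by
    conv_lhs => rw [hT']
    rw [Finset.prod_biUnion]
    intro i _ j _ hij
    exact (Pj_disjoint z hij).mono Finset.inter_subset_right Finset.inter_subset_right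
  have hle : ∏ p ∈ T, p ≤ ∏ j ∈ range z, (zs z j) ^ (2 * (b0 + j) + 1) := by
    rw [hprod]
    refine Finset.prod_le_prod (fun _ _ => Nat.zero_le _) fun j hj => ?_
    rw [mem_range] at hj
    calc ∏ p ∈ T ∩ Pj z j, p ≤ ∏ _p ∈ T ∩ Pj z j, zs z j := by
          refine Finset.prod_le_prod (fun _ _ => Nat.zero_le _) fun p hp => ?_
          exact (mem_filter.1 (mem_inter.1 hp).2).2.2
      _ = (zs z j) ^ (T ∩ Pj z j).card := Finset.prod_const _
      _ ≤ (zs z j) ^ (2 * (b0 + j) + 1) := Nat.pow_le_pow_right (SL_pos z hz j) (h j hj)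
  refine hle.trans ?_
  have hpow : (∏ j ∈ range z, (zs z j) ^ (2 * (b0 + j) + 1)) ^ (2 ^ z) ≤ (z ^ (4 * b0 + 6)) ^ (2 ^ z) := by
    rw [← Finset.prod_pow]
    calc ∏ j ∈ range z, ((zs z j) ^ (2 * (b0 + j) + 1)) ^ (2 ^ z)
        ≤ ∏ j ∈ range z, z ^ ((2 * (b0 + j) + 1) * 2 ^ (z - j)) := by
          refine Finset.prod_le_prod (fun _ _ => Nat.zero_le _) fun j hj => ?_
          rw [mem_range] at hj
          have h1 : ((zs z j) ^ (2 * (b0 + j) + 1)) ^ (2 ^ z) =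
              ((zs z j) ^ (2 ^ j)) ^ ((2 * (b0 + j) + 1) * 2 ^ (z - j)) := by
            rw [← pow_mul, ← pow_mul]
            congr 1
            have h2 : (2 : ℕ) ^ z = 2 ^ j * 2 ^ (z - j) := by
              rw [← pow_add]
              congr 1
              omega
            rw [h2]
            ring
          rw [h1]
          exact Nat.pow_le_pow_left (zs_pow z j) _
      _ = z ^ (∑ j ∈ range z, (2 * (b0 + j) + 1) * 2 ^ (z - j)) := Finset.prod_pow_eq_pow_sum _ _ _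
      _ ≤ z ^ ((4 * b0 + 6) * 2 ^ z) := by
          refine Nat.pow_le_pow_right hz ?_
          have h3 := SL_sum b0 z
          omega
      _ = (z ^ (4 * b0 + 6)) ^ (2 ^ z) := by rw [← pow_mul]
  exact le_of_pow_le_pow_left₀ (pow_ne_zero _ two_ne_zero) (Nat.zero_le _) hpow

end Pool.Agent.Lib.MP_42948a_nt.OA
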