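import Pool.Agent.Lib.MP_42948a_nt.OA.Defs

/-!
# Counting the sets of primes with bounded product (job SM)

The map `T ↦ ∏ p ∈ T, p` is injective on sets of primes (`T` is the set of prime factors of the product: `Nat.primeFactors_prod`) with
values in `[1, N]`.
-/

namespace Pool.Agent.Lib.MP_42948a_nt.OA

open Finset

theorem count_sets (z N : ℕ) : ((PP z).powerset.filter (fun T => ∏ p ∈ T, p ≤ N)).card ≤ N := by
  have h : Set.MapsTo (fun T : Finset ℕ => ∏ p ∈ T, p)
      (((PP z).powerset.filter (fun T => ∏ p ∈ T, p ≤ N) : Finset (Finset ℕ)) : Set (Finset ℕ))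
      ((Icc 1 N : Finset ℕ) : Set ℕ) := by
    intro T hT
    rw [mem_coe, mem_filter, mem_powerset] at hT
    rw [mem_coe, mem_Icc]
    have h1 : 0 < ∏ p ∈ T, p := Finset.prod_pos fun p hp => (mem_filter.1 (hT.1 hp)).2.pos
    exact ⟨h1, hT.2⟩
  have hinj : Set.InjOn (fun T : Finset ℕ => ∏ p ∈ T, p)
      (((PP z).powerset.filter (fun T => ∏ p ∈ T, p ≤ N) : Finset (Finset ℕ)) : Set (Finset ℕ)) := by
    intro S hS T hT hST
    rw [mem_coe, mem_filter, mem_powerset] at hS hT
    have h1 := Nat.primeFactors_prod (s := S) (fun p hp => (mem_filter.1 (hS.1 hp)).2)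
    have h2 := Nat.primeFactors_prod (s := T) (fun p hp => (mem_filter.1 (hT.1 hp)).2)
    simp only at hST
    rw [← h1, ← h2, hST]
  have h3 := Finset.card_le_card_of_injOn _ h hinj
  rw [Nat.card_Icc] at h3
  omega

end Pool.Agent.Lib.MP_42948a_nt.OA
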