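import Pool.Agent.Lib.MP_42948a_nt.OA.Defs

/-!
# Lower bound for the product (job SN)

Each factor is in `(0, 1]`. `p = 2`: factor `≥ 1/4`; `p = 3`: factor `≥ 1/3 = (3-2)/3`; `p ≥ 3` in general: factor `≥ 1 - 2/p = (p-2)/p`.
Since all numbers `(n-2)/n`, `3 ≤ n ≤ z`, are in `(0, 1]`, `∏_{p ∈ PP z} (1 - g p) ≥ (1/4) ∏_{3 ≤ n ≤ z} (n-2)/n = (1/4) * 2/(z (z-1))`
for `z ≥ 2` (telescoping). Simplest: prove by induction on `z ≥ 2` the statement
`1 / (2 z (z-1)) ≤ ∏_{p ∈ PP z} (1 - g p)` : `PP (z+1)` is `PP z` or `insert (z+1) (PP z)`, and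
`1/(2 z (z-1)) * (1 - 2/(z+1)) = 1/(2 z (z+1))`, so both cases work.
-/

namespace Pool.Agent.Lib.MP_42948a_nt.OA

open Finset

private theorem SN_main (z : ℕ) (hz : 2 ≤ z) (g : ℕ → ℝ)
    (hg : ∀ p ∈ PP z, 0 ≤ g p ∧ g p ≤ 3 / 4 ∧ g p ≤ 2 / p) :
    1 / (2 * (z : ℝ) * (z - 1)) ≤ ∏ p ∈ PP z, (1 - g p) := by
  induction z, hz using Nat.le_induction with
  | base =>
    have h1 : PP 2 = {2} := by decide
    rw [h1, prod_singleton]
    have h2 := (hg 2 (by rw [h1]; exact mem_singleton_self 2)).2.1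
    norm_num
    linarith
  | succ z hz ih =>
    have hz' : (2 : ℝ) ≤ z := by exact_mod_cast hz
    have hsub : PP z ⊆ PP (z + 1) := by
      intro p hp
      simp only [PP, mem_filter, mem_Icc] at hp ⊢
      exact ⟨⟨hp.1.1, by omega⟩, hp.2⟩
    have ih' := ih (fun p hp => hg p (hsub hp))
    have hpos : (0 : ℝ) < 1 / (2 * (z : ℝ) * (z - 1)) := by
      have : (0 : ℝ) < z - 1 := by linarith
      positivity
    have hkey : 1 / (2 * (z : ℝ) * (z - 1)) * (1 - 2 / (z + 1)) =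
        1 / (2 * ((z + 1 : ℕ) : ℝ) * (((z + 1 : ℕ) : ℝ) - 1)) := by
      have h1 : (z : ℝ) - 1 ≠ 0 := by linarith
      have h2 : (z : ℝ) + 1 ≠ 0 := by linarith
      have h3 : (z : ℝ) ≠ 0 := by linarith
      push_cast
      have h4 : (z : ℝ) + 1 - 1 = z := by ring
      rw [h4]
      field_simp
      ring
    have h2z : (2 : ℝ) / (z + 1) ≤ 1 := by
      rw [div_le_one (by linarith)]
      linarith
    have h2z0 : (0 : ℝ) ≤ 2 / (z + 1) := by positivity
    by_cases hpr : (z + 1).Prime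
    · have h1 : PP (z + 1) = insert (z + 1) (PP z) := by
        ext p
        simp only [PP, mem_filter, mem_Icc, mem_insert]
        constructor
        · rintro ⟨⟨h1, h2⟩, h3⟩
          by_cases h4 : p = z + 1
          · exact Or.inl h4
          · exact Or.inr ⟨⟨h1, by omega⟩, h3⟩
        · rintro (rfl | ⟨⟨h1, h2⟩, h3⟩)
          · exact ⟨⟨by omega, le_rfl⟩, hpr⟩
          · exact ⟨⟨h1, by omega⟩, h3⟩
      have h2 : z + 1 ∉ PP z := by
        simp only [PP, mem_filter, mem_Icc]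
        omega
      have h3 := (hg (z + 1) (by rw [h1]; exact mem_insert_self _ _)).2.2
      push_cast at h3
      rw [h1, prod_insert h2, ← hkey, mul_comm]
      exact mul_le_mul (by linarith) ih' hpos.le (by linarith)
    · have h1 : PP (z + 1) = PP z := by
        ext p
        simp only [PP, mem_filter, mem_Icc]
        constructor
        · rintro ⟨⟨h1, h2⟩, h3⟩
          have h4 : p ≠ z + 1 := by
            rintro rfl
            exact hpr h3
          exact ⟨⟨h1, by omega⟩, h3⟩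
        · rintro ⟨⟨h1, h2⟩, h3⟩
          exact ⟨⟨h1, by omega⟩, h3⟩
      rw [h1, ← hkey]
      refine le_trans ?_ ih'
      exact mul_le_of_le_one_right hpos.le (by linarith)

theorem prod_ge (z : ℕ) (hz : 2 ≤ z) (g : ℕ → ℝ)
    (hg : ∀ p ∈ PP z, 0 ≤ g p ∧ g p ≤ 3 / 4 ∧ g p ≤ 2 / p) :
    1 / (2 * (z : ℝ) ^ 2) ≤ ∏ p ∈ PP z, (1 - g p) := by
  refine le_trans ?_ (SN_main z hz g hg)
  have h1 : (2 : ℝ) ≤ z := by exact_mod_cast hz
  refine one_div_le_one_div_of_le ?_ ?_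
  · have : (0 : ℝ) < z - 1 := by linarith
    positivity
  · nlinarith

end Pool.Agent.Lib.MP_42948a_nt.OA
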