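import Pool.Agent.Lib.MP_42948a_nt.OA.SD
import Pool.Agent.Lib.MP_42948a_nt.OA.SH
import Pool.Agent.Lib.MP_42948a_nt.OA.SJ
import Pool.Agent.Lib.MP_42948a_nt.OA.SK
import Pool.Agent.Lib.MP_42948a_nt.OA.SL
import Pool.Agent.Lib.MP_42948a_nt.OA.SM
import Pool.Agent.Lib.MP_42948a_nt.OA.SN

/-!
# The sieve (job SO)

`b0` from `FF_ge`, `K = 4 b0 + 6`. For `n ∈ A` let `g_n p = if p ∣ n then 1 else 0`. Then `∏_{p ∈ PP z} (1 - g_n p)` is the indicator
of `∀ p ∈ PP z, ¬ p ∣ n`, `∏_{p ∈ T} g_n p` the indicator of `∀ p ∈ T, p ∣ n`; so by `FF_le` and `FF_expand`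
`∑_{T ⊆ PP z} lam T * 1[∀ p ∈ T, p ∣ n] ≤ 1[∀ p ∈ PP z, ¬ p ∣ n]`. Multiply by `w n ≥ 0`, sum over `n ∈ A`, exchange:
`∑_{n rough} w n ≥ ∑_{T ⊆ PP z} lam T * W T`, `W T = ∑_{n ∈ A, T | n} w n`. If `lam T ≠ 0` then `∏ T ≤ z^K` (`lam_support`, `level`) and
`|W T - X ∏_T g| ≤ R`; the number of `T` with `∏ T ≤ z^K` is `≤ z^K` (`count_sets`), `|lam T| ≤ 1` (`lam_abs_le`). Hence the sum is
`≥ X * ∑_T lam T ∏_T g - z^K R = X * FF z b0 g - z^K R ≥ X * (1/2) ∏_{PP z} (1 - g) - z^K R ≥ X/(4 z^2) - z^K R` (`FF_ge`, `prod_ge`).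
-/

namespace Pool.Agent.Lib.MP_42948a_nt.OA

open Finset

theorem SO_one (S : Finset ℕ) (n : ℕ) :
    ∏ p ∈ S, (1 - (if p ∣ n then (1 : ℝ) else 0)) = if (∀ p ∈ S, ¬ p ∣ n) then (1 : ℝ) else 0 := by
  by_cases h : ∀ p ∈ S, ¬ p ∣ n
  · rw [if_pos h]
    refine Finset.prod_eq_one fun p hp => ?_
    rw [if_neg (h p hp), sub_zero]
  · rw [if_neg h]
    push Not at h
    obtain ⟨p, hp, hpn⟩ := h
    refine Finset.prod_eq_zero hp ?_
    rw [if_pos hpn, sub_self]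

theorem SO_all (T : Finset ℕ) (n : ℕ) :
    ∏ p ∈ T, (if p ∣ n then (1 : ℝ) else 0) = if (∀ p ∈ T, p ∣ n) then (1 : ℝ) else 0 := by
  by_cases h : ∀ p ∈ T, p ∣ n
  · rw [if_pos h]
    exact Finset.prod_eq_one fun p hp => if_pos (h p hp)
  · rw [if_neg h]
    push Not at h
    obtain ⟨p, hp, hpn⟩ := h
    exact Finset.prod_eq_zero hp (if_neg hpn)

theorem SO_point (z b0 n : ℕ) :
    ∑ T ∈ (PP z).powerset, lam z b0 T * (if (∀ p ∈ T, p ∣ n) then (1 : ℝ) else 0) ≤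
      if (∀ p ∈ PP z, ¬ p ∣ n) then (1 : ℝ) else 0 := by
  have h := FF_le z b0 (fun p => if p ∣ n then (1 : ℝ) else 0)
    (fun p _ => by split_ifs <;> norm_num) (fun p _ => by split_ifs <;> norm_num)
  rw [FF_expand, SO_one] at h
  simp only [SO_all] at h
  exact h

theorem sieve : ∃ K : ℕ, SieveProp K := by
  obtain ⟨b0, hb0⟩ := FF_ge
  refine ⟨4 * b0 + 6, ?_⟩
  intro z hz A w g X R hw hg hX hR hT
  set W : Finset ℕ → ℝ := fun T => ∑ n ∈ A.filter (fun n => ∀ p ∈ T, p ∣ n), w n with hW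
  set G : Finset ℕ → ℝ := fun T => ∏ p ∈ T, g p with hG
  have h1 : ∑ T ∈ (PP z).powerset, lam z b0 T * W T ≤ ∑ n ∈ A.filter (fun n => ∀ p ∈ PP z, ¬ p ∣ n), w n := by
    have h2 : ∀ n ∈ A, w n * ∑ T ∈ (PP z).powerset, lam z b0 T * (if (∀ p ∈ T, p ∣ n) then (1 : ℝ) else 0) ≤
        w n * (if (∀ p ∈ PP z, ¬ p ∣ n) then (1 : ℝ) else 0) := fun n hn =>
      mul_le_mul_of_nonneg_left (SO_point z b0 n) (hw n hn)
    have h3 := Finset.sum_le_sum h2
    have h4 : ∑ n ∈ A, w n * (if (∀ p ∈ PP z, ¬ p ∣ n) then (1 : ℝ) else 0) =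
        ∑ n ∈ A.filter (fun n => ∀ p ∈ PP z, ¬ p ∣ n), w n := by
      rw [Finset.sum_filter]
      refine Finset.sum_congr rfl fun n _ => ?_
      split_ifs <;> simp
    have h5 : ∑ n ∈ A, w n * ∑ T ∈ (PP z).powerset, lam z b0 T * (if (∀ p ∈ T, p ∣ n) then (1 : ℝ) else 0) =
        ∑ T ∈ (PP z).powerset, lam z b0 T * W T := by
      simp only [Finset.mul_sum]
      rw [Finset.sum_comm]
      refine Finset.sum_congr rfl fun T _ => ?_
      rw [hW]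
      simp only
      rw [Finset.sum_filter, Finset.mul_sum]
      refine Finset.sum_congr rfl fun n _ => ?_
      split_ifs <;> ring
    rw [h4, h5] at h3
    exact h3
  have h6 : ∀ T ∈ (PP z).powerset, |lam z b0 T * (W T - X * G T)| ≤
      if ∏ p ∈ T, p ≤ z ^ (4 * b0 + 6) then R else 0 := by
    intro T hTm
    rw [mem_powerset] at hTm
    by_cases h0 : lam z b0 T = 0
    · rw [h0, zero_mul, abs_zero]
      split_ifs
      · exact hR
      · exact le_rfl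
    · have h7 := level z b0 (by omega) T hTm (lam_support z b0 T h0)
      rw [if_pos h7, abs_mul]
      have h8 := hT T hTm h7
      calc |lam z b0 T| * |W T - X * G T| ≤ 1 * R :=
            mul_le_mul (lam_abs_le z b0 T) h8 (abs_nonneg _) zero_le_one
        _ = R := one_mul R
  have h7 : |∑ T ∈ (PP z).powerset, lam z b0 T * (W T - X * G T)| ≤ (z : ℝ) ^ (4 * b0 + 6) * R := by
    refine (Finset.abs_sum_le_sum_abs _ _).trans ((Finset.sum_le_sum h6).trans ?_)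
    rw [← Finset.sum_filter, Finset.sum_const, nsmul_eq_mul]
    refine mul_le_mul_of_nonneg_right ?_ hR
    have h8 := count_sets z (z ^ (4 * b0 + 6))
    exact_mod_cast h8
  have h8 : ∑ T ∈ (PP z).powerset, lam z b0 T * W T =
      ∑ T ∈ (PP z).powerset, lam z b0 T * (W T - X * G T) + X * FF z b0 g := by
    rw [FF_expand, Finset.mul_sum, ← Finset.sum_add_distrib]
    refine Finset.sum_congr rfl fun T _ => ?_
    simp only [hG]
    ring
  have h9 := hb0 z g hg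
  have h10 := prod_ge z hz g hg
  have h11 : X / (4 * (z : ℝ) ^ 2) ≤ X * FF z b0 g := by
    have h12 : 1 / (4 * (z : ℝ) ^ 2) ≤ FF z b0 g := by
      have h13 : 1 / (4 * (z : ℝ) ^ 2) = 1 / 2 * (1 / (2 * (z : ℝ) ^ 2)) := by
        ring
      rw [h13]
      linarith
    calc X / (4 * (z : ℝ) ^ 2) = X * (1 / (4 * (z : ℝ) ^ 2)) := by ring
      _ ≤ X * FF z b0 g := mul_le_mul_of_nonneg_left h12 hX
  have h12 := (abs_le.1 h7).1
  linarith

end Pool.Agent.Lib.MP_42948a_nt.OA
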