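import Mathlib

/-!
# Odd almost primes in arithmetic progressions: definitions
-/

namespace Pool.Agent.Lib.MP_42948a_nt.OA

open Finset

/-- `n` is positive and all its prime factors exceed `z`. -/
def Rough (z n : ℕ) : Prop := 0 < n ∧ ∀ p : ℕ, p.Prime → p ∣ n → z < p

theorem Rough.one (z : ℕ) : Rough z 1 :=
  ⟨one_pos, fun p hp h => absurd (Nat.dvd_one.mp h) hp.one_lt.ne'⟩

theorem Rough.mul {z m n : ℕ} (hm : Rough z m) (hn : Rough z n) : Rough z (m * n) := by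
  refine ⟨Nat.mul_pos hm.1 hn.1, fun p hp h => ?_⟩
  rcases (hp.dvd_mul).mp h with h | h
  · exact hm.2 p hp h
  · exact hn.2 p hp h

theorem Rough.of_dvd {z m n : ℕ} (hn : Rough z n) (h : m ∣ n) : Rough z m :=
  ⟨Nat.pos_of_dvd_of_pos h hn.1, fun p hp hpm => hn.2 p hp (hpm.trans h)⟩

theorem Rough.pos {z n : ℕ} (h : Rough z n) : 0 < n := h.1

/-! ## The sieve -/

/-- the primes `≤ z` -/
def PP (z : ℕ) : Finset ℕ := (Icc 1 z).filter Nat.Prime

/-- iterated integer square roots of `z` -/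
def zs (z : ℕ) : ℕ → ℕ
  | 0 => z
  | j + 1 => Nat.sqrt (zs z j)

/-- the `j`-th block of primes -/
def Pj (z j : ℕ) : Finset ℕ := (PP z).filter (fun p => zs z (j + 1) < p ∧ p ≤ zs z j)

/-- elementary symmetric polynomial of the values `g p`, `p ∈ S` -/
noncomputable def esy (S : Finset ℕ) (g : ℕ → ℝ) (k : ℕ) : ℝ :=
  ∑ T ∈ S.powersetCard k, ∏ p ∈ T, g p

/-- truncated inclusion-exclusion -/
noncomputable def bon (S : Finset ℕ) (g : ℕ → ℝ) (r : ℕ) : ℝ :=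
  ∑ k ∈ range (r + 1), (-1 : ℝ) ^ k * esy S g k

/-- the Brun-Hooley lower bound functional -/
noncomputable def FF (z b0 : ℕ) (g : ℕ → ℝ) : ℝ :=
  ∏ j ∈ range z, bon (Pj z j) g (2 * (b0 + j)) -
    ∑ l ∈ range z, esy (Pj z l) g (2 * (b0 + l) + 1) *
      ∏ j ∈ (range z).erase l, bon (Pj z j) g (2 * (b0 + j))

/-- coefficient of a subset of size `k` in `bon _ _ (2 * b)` -/
noncomputable def cc (b k : ℕ) : ℝ := if k ≤ 2 * b then (-1 : ℝ) ^ k else 0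

/-- coefficient of a subset of size `k` in `esy _ _ (2 * b + 1)` -/
noncomputable def ce (b k : ℕ) : ℝ := if k = 2 * b + 1 then 1 else 0

/-- the sieve weights: coefficient of the set `T` of primes in `FF z b0` -/
noncomputable def lam (z b0 : ℕ) (T : Finset ℕ) : ℝ :=
  ∏ j ∈ range z, cc (b0 + j) ((T ∩ Pj z j).card) -
    ∑ l ∈ range z, ce (b0 + l) ((T ∩ Pj z l).card) *
      ∏ j ∈ (range z).erase l, cc (b0 + j) ((T ∩ Pj z j).card)

/-- the weighted lower bound sieve of level `z ^ K` -/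
def SieveProp (K : ℕ) : Prop :=
  ∀ z : ℕ, 2 ≤ z → ∀ (A : Finset ℕ) (w g : ℕ → ℝ) (X R : ℝ),
    (∀ n ∈ A, 0 ≤ w n) →
    (∀ p ∈ PP z, 0 ≤ g p ∧ g p ≤ 3 / 4 ∧ g p ≤ 2 / p) →
    0 ≤ X → 0 ≤ R →
    (∀ T ⊆ PP z, ∏ p ∈ T, p ≤ z ^ K →
      |∑ n ∈ A.filter (fun n => ∀ p ∈ T, p ∣ n), w n - X * ∏ p ∈ T, g p| ≤ R) →
    X / (4 * (z : ℝ) ^ 2) - (z : ℝ) ^ K * R ≤
      ∑ n ∈ A.filter (fun n => ∀ p ∈ PP z, ¬ p ∣ n), w n

/-! ## Cosets modulo `d` -/

/-- the error term in the distribution of cosets -/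
noncomputable def BB (d : ℕ) : ℝ := √(d : ℝ) * (d.divisors.card : ℝ) * (1 + Real.log d)

/-- the residue classes of the coset `q H` -/
def cosetSet {d : ℕ} (H : Subgroup (ZMod d)ˣ) (q : (ZMod d)ˣ) : Set (ZMod d) :=
  {x | ∃ h ∈ H, x = ((q * h : (ZMod d)ˣ) : ZMod d)}

open Classical in
/-- the `n ≤ N` divisible by all `p ∈ T` whose class lies in `Q` -/
noncomputable def cls {d : ℕ} (N : ℕ) (T : Finset ℕ) (Q : Set (ZMod d)) : Finset ℕ :=
  (Icc 1 N).filter (fun n => (∀ p ∈ T, p ∣ n) ∧ (n : ZMod d) ∈ Q)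

open Classical in
/-- the residue classes of `H`, as a finite set -/
noncomputable def Hset {d : ℕ} [NeZero d] (H : Subgroup (ZMod d)ˣ) : Finset (ZMod d) :=
  Finset.univ.filter (fun x => ∃ h ∈ H, x = ((h : (ZMod d)ˣ) : ZMod d))

/-- the subgroup generated by the classes of rough numbers `≤ Y` -/
def Hgen (d z Y : ℕ) : Subgroup (ZMod d)ˣ :=
  Subgroup.closure {c | ∃ u : ℕ, Rough z u ∧ u ≤ Y ∧ (u : ZMod d) = (c : ZMod d)}

/-- primes in `(z, Y]` not dividing `d` -/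
def primesOff (d z Y : ℕ) : Finset ℕ :=
  (Icc 1 Y).filter (fun p => p.Prime ∧ z < p ∧ ¬ p ∣ d)

/-! ## The real character -/

open Classical in
/-- a real character of `(ZMod d)ˣ` as a function of natural numbers -/
noncomputable def chi {d : ℕ} (ψ : (ZMod d)ˣ →* ℤˣ) (n : ℕ) : ℝ :=
  if h : IsUnit (n : ZMod d) then (((ψ h.unit : ℤˣ) : ℤ) : ℝ) else 0

/-- the convolution of `χ` with `1` -/
noncomputable def rr (χ : ℕ → ℝ) (n : ℕ) : ℝ := ∑ a ∈ n.divisors, χ a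

/-- the smoothed sum of `rr χ` over multiples of all `p ∈ T` -/
noncomputable def SwT (χ : ℕ → ℝ) (N : ℕ) (T : Finset ℕ) (t : ℝ) : ℝ :=
  ∑ n ∈ (Icc 1 N).filter (fun n => ∀ p ∈ T, p ∣ n), rr χ n * max 0 (1 - n / t)

/-- the truncated value of the `L`-function at `1` -/
noncomputable def LL (χ : ℕ → ℝ) (N : ℕ) : ℝ := ∑ a ∈ Icc 1 N, χ a / a

/-- the sieve density -/
noncomputable def gg (χ : ℕ → ℝ) (p : ℕ) : ℝ := (1 + χ p - χ p / p) / p

end Pool.Agent.Lib.MP_42948a_nt.OA
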