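import Pool.Agent.Lib.MP_42948a_nt.OA.Defs

/-!
# Hooley's product inequality (job SB)

By induction on `J`: for `0 ≤ x j ≤ y j` one has
`∏_{j<J+1} y - ∏_{j<J+1} x = y_J (∏_{j<J} y - ∏_{j<J} x) + (y_J - x_J) ∏_{j<J} x`, the first bracket is at most
`∑_{l<J} (y_l - x_l) ∏_{j<J, j≠l} y_j` by induction, `∏_{j<J} x ≤ ∏_{j<J} y` (`Finset.prod_le_prod`), and
`(range (J+1)).erase l = insert J ((range J).erase l)` for `l < J`, `(range (J+1)).erase J = range J`.
-/

namespace Pool.Agent.Lib.MP_42948a_nt.OA

open Finset

theorem prod_sub_le (J : ℕ) (x y : ℕ → ℝ) (h0 : ∀ j < J, 0 ≤ x j) (h1 : ∀ j < J, x j ≤ y j) :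
    ∏ j ∈ range J, y j - ∑ l ∈ range J, (y l - x l) * ∏ j ∈ (range J).erase l, y j ≤
      ∏ j ∈ range J, x j := by
  induction J with
  | zero => simp
  | succ J ih =>
    have ih' := ih (fun j hj => h0 j (by omega)) (fun j hj => h1 j (by omega))
    have hx0 := h0 J (by omega)
    have hxy := h1 J (by omega)
    have hle : ∏ j ∈ range J, x j ≤ ∏ j ∈ range J, y j :=
      Finset.prod_le_prod (fun j hj => h0 j (by have := Finset.mem_range.mp hj; omega))
        (fun j hj => h1 j (by have := Finset.mem_range.mp hj; omega))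
    rw [Finset.prod_range_succ, Finset.prod_range_succ, Finset.sum_range_succ]
    have e1 : (range (J + 1)).erase J = range J := by
      ext j
      simp only [Finset.mem_erase, Finset.mem_range]
      omega
    have e2 : ∀ l ∈ range J, (y l - x l) * ∏ j ∈ (range (J + 1)).erase l, y j =
        y J * ((y l - x l) * ∏ j ∈ (range J).erase l, y j) := by
      intro l hl
      rw [Finset.mem_range] at hl
      have e3 : (range (J + 1)).erase l = insert J ((range J).erase l) := by
        ext j
        simp only [Finset.mem_erase, Finset.mem_range, Finset.mem_insert]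
        omega
      rw [e3, Finset.prod_insert (by simp)]
      ring
    rw [e1, Finset.sum_congr rfl e2, ← Finset.mul_sum]
    have h3 := mul_le_mul_of_nonneg_left ih' (hx0.trans hxy)
    have h4 := mul_le_mul_of_nonneg_left hle (sub_nonneg.mpr hxy)
    linarith

end Pool.Agent.Lib.MP_42948a_nt.OA
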