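import Pool.Agent.Lib.MP_42948a_nt.OA.SA
import Pool.Agent.Lib.MP_42948a_nt.OA.SB
import Pool.Agent.Lib.MP_42948a_nt.OA.SC

/-!
# The functional `FF` is a lower bound (job SD)

With `x j = ∏_{Pj z j} (1 - g)`, `y j = bon (Pj z j) g (2 (b0 + j))`: `0 ≤ x j ≤ y j` (`bon_ge`), `y l - x l ≤ esy ... (2(b0+l)+1)`
(`bon_sub_le`) and the products over `erase l` are nonnegative, so `FF z b0 g ≤ ∏ y - ∑ (y l - x l) ∏_{erase l} y ≤ ∏ x`
(`prod_sub_le`), and `∏ x = ∏_{PP z} (1 - g)` by `prod_PP`.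
-/

namespace Pool.Agent.Lib.MP_42948a_nt.OA

open Finset

theorem FF_le (z b0 : ℕ) (g : ℕ → ℝ) (h0 : ∀ p ∈ PP z, 0 ≤ g p) (h1 : ∀ p ∈ PP z, g p ≤ 1) :
    FF z b0 g ≤ ∏ p ∈ PP z, (1 - g p) := by
  have hsub : ∀ j, Pj z j ⊆ PP z := fun j => Finset.filter_subset _ _
  have hx0 : ∀ j, 0 ≤ ∏ p ∈ Pj z j, (1 - g p) := fun j =>
    Finset.prod_nonneg fun p hp => sub_nonneg.mpr (h1 p (hsub j hp))
  have hxy : ∀ j, ∏ p ∈ Pj z j, (1 - g p) ≤ bon (Pj z j) g (2 * (b0 + j)) := fun j =>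
    bon_ge (Pj z j) g (fun p hp => h0 p (hsub j hp)) (fun p hp => h1 p (hsub j hp)) (b0 + j)
  have hyx : ∀ j, bon (Pj z j) g (2 * (b0 + j)) - ∏ p ∈ Pj z j, (1 - g p) ≤
      esy (Pj z j) g (2 * (b0 + j) + 1) := fun j => by
    have := bon_sub_le (Pj z j) g (fun p hp => h0 p (hsub j hp)) (fun p hp => h1 p (hsub j hp)) (b0 + j)
    linarith
  have hP := prod_sub_le z (fun j => ∏ p ∈ Pj z j, (1 - g p))
    (fun j => bon (Pj z j) g (2 * (b0 + j))) (fun j _ => hx0 j) (fun j _ => hxy j)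
  rw [prod_PP z (fun p => 1 - g p)]
  refine le_trans ?_ hP
  unfold FF
  refine sub_le_sub_left ?_ _
  refine Finset.sum_le_sum fun l _ => ?_
  exact mul_le_mul_of_nonneg_right (hyx l)
    (Finset.prod_nonneg fun j _ => (hx0 j).trans (hxy j))

end Pool.Agent.Lib.MP_42948a_nt.OA
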