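import Pool.Agent.Lib.MP_42948a_nt.OA.EF

/-!
# Multiples of `T` in a coset (job EG)

`δ = ∏_{p ∈ T} p` is coprime to `d`, with class `D : (ZMod d)ˣ` (`ZMod.unitOfCoprime`). `∀ p ∈ T, p ∣ n` iff `δ ∣ n`; the map
`m ↦ δ m` is a bijection from `cls (N / δ) ∅ (cosetSet H (D⁻¹ * q))` onto `cls N T (cosetSet H q)`. So by `coset_count` the count is
within `BB d` of `(N/δ : ℕ) |H| / d`, and `|(N/δ : ℕ) - N/δ| ≤ 1`, `|H| ≤ d` (`Nat.card H ≤ Nat.card (ZMod d)ˣ ≤ d`).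
-/

namespace Pool.Agent.Lib.MP_42948a_nt.OA

open Finset

/-- all primes of `T` divide `n` iff the product does -/
theorem EG_dvd_iff (T : Finset ℕ) (hT : ∀ p ∈ T, p.Prime) (n : ℕ) :
    (∀ p ∈ T, p ∣ n) ↔ (∏ p ∈ T, p) ∣ n := by
  constructor
  · intro h
    exact Finset.prod_primes_dvd n (fun p hp => (hT p hp).prime) h
  · intro h p hp
    exact (Finset.dvd_prod_of_mem _ hp).trans h

/-- `|H| ≤ d` -/
theorem EG_card_le (d : ℕ) [NeZero d] (H : Subgroup (ZMod d)ˣ) : Nat.card H ≤ d := by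
  have h1 : Nat.card H ≤ Nat.card (ZMod d)ˣ := Nat.card_le_card_of_injective _ Subtype.val_injective
  have h2 : Nat.card (ZMod d)ˣ ≤ Nat.card (ZMod d) :=
    Nat.card_le_card_of_injective _ Units.val_injective
  rw [Nat.card_zmod] at h2
  exact h1.trans h2

theorem EG_cls_card (d : ℕ) [NeZero d] (H : Subgroup (ZMod d)ˣ) (q : (ZMod d)ˣ) (T : Finset ℕ)
    (hT : ∀ p ∈ T, p.Prime) (N : ℕ) (D : (ZMod d)ˣ) (hD : (D : ZMod d) = ((∏ p ∈ T, p : ℕ) : ZMod d)) :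
    (cls N T (cosetSet H q)).card = (cls (N / ∏ p ∈ T, p) ∅ (cosetSet H (D⁻¹ * q))).card := by
  classical
  set δ := ∏ p ∈ T, p with hδ
  have hδ0 : 0 < δ := Finset.prod_pos (fun p hp => (hT p hp).pos)
  symm
  apply Finset.card_bij (fun m _ => δ * m)
  · intro m hm
    unfold cls at hm ⊢
    rw [mem_filter, mem_Icc] at hm ⊢
    obtain ⟨⟨hm1, hm2⟩, -, hm3⟩ := hm
    refine ⟨⟨Nat.mul_pos hδ0 hm1, ?_⟩, ?_, ?_⟩
    · rw [Nat.le_div_iff_mul_le hδ0] at hm2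
      rw [mul_comm]; exact hm2
    · rw [EG_dvd_iff T hT]
      exact Dvd.intro _ rfl
    · obtain ⟨h, hh, hx⟩ := hm3
      refine ⟨h, hh, ?_⟩
      rw [Nat.cast_mul, hx, ← hD, ← Units.val_mul]
      congr 1
      rw [mul_assoc D⁻¹, mul_inv_cancel_left]
  · intro m _ m' _ h
    exact Nat.eq_of_mul_eq_mul_left hδ0 h
  · intro n hn
    unfold cls at hn
    rw [mem_filter, mem_Icc] at hn
    obtain ⟨⟨hn1, hn2⟩, hn3, hn4⟩ := hn
    rw [EG_dvd_iff T hT] at hn3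
    obtain ⟨m, rfl⟩ := hn3
    refine ⟨m, ?_, rfl⟩
    unfold cls
    rw [mem_filter, mem_Icc]
    refine ⟨⟨?_, ?_⟩, by simp, ?_⟩
    · rcases Nat.eq_zero_or_pos m with h | h
      · subst h; simp at hn1
      · exact h
    · rw [Nat.le_div_iff_mul_le hδ0, mul_comm]; exact hn2
    · obtain ⟨h, hh, hx⟩ := hn4
      refine ⟨h, hh, ?_⟩
      rw [Nat.cast_mul, ← hδ, ← hD] at hx
      have : (m : ZMod d) = ((D⁻¹ : (ZMod d)ˣ) : ZMod d) * ((D : ZMod d) * (m : ZMod d)) := by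
        rw [← mul_assoc, ← Units.val_mul, inv_mul_cancel, Units.val_one, one_mul]
      rw [this, hx, ← Units.val_mul, mul_assoc]

theorem coset_count_mul (d : ℕ) [NeZero d] (H : Subgroup (ZMod d)ˣ) (q : (ZMod d)ˣ) (T : Finset ℕ)
    (hT : ∀ p ∈ T, p.Prime) (hco : ∀ p ∈ T, ¬ p ∣ d) (N : ℕ) :
    |((cls N T (cosetSet H q)).card : ℝ) -
      (N : ℝ) * (Nat.card H : ℝ) / (d * ∏ p ∈ T, (p : ℝ))| ≤ 1 + BB d := by
  have hcop : Nat.Coprime (∏ p ∈ T, p) d :=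
    Nat.Coprime.prod_left (fun p hp => ((hT p hp).coprime_iff_not_dvd).mpr (hco p hp))
  set δ := ∏ p ∈ T, p with hδ
  have hδ0 : 0 < δ := Finset.prod_pos (fun p hp => (hT p hp).pos)
  rw [EG_cls_card d H q T hT N (ZMod.unitOfCoprime δ hcop) (ZMod.coe_unitOfCoprime δ hcop)]
  have e1 := coset_count d H ((ZMod.unitOfCoprime δ hcop)⁻¹ * q) (N / δ)
  have e2 : (∏ p ∈ T, (p : ℝ)) = (δ : ℝ) := by rw [hδ]; push_cast; rfl
  rw [e2]
  have hd0 : (0 : ℝ) < d := by exact_mod_cast Nat.pos_of_ne_zero (NeZero.ne d)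
  have hδR : (0 : ℝ) < δ := by exact_mod_cast hδ0
  have hHd : (Nat.card H : ℝ) / d ≤ 1 := by
    rw [div_le_one hd0]; exact_mod_cast EG_card_le d H
  have hHd0 : (0 : ℝ) ≤ (Nat.card H : ℝ) / d := by positivity
  have e3 : |((N / δ : ℕ) : ℝ) - (N : ℝ) / δ| ≤ 1 := by
    have h1 : ((N / δ : ℕ) : ℝ) ≤ (N : ℝ) / δ := Nat.cast_div_le
    have h2 : (N : ℝ) / δ < ((N / δ : ℕ) : ℝ) + 1 := by
      rw [div_lt_iff₀ hδR]
      have := Nat.lt_div_mul_add hδ0 (a := N)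
      have h3 : (N : ℝ) < ((N / δ * δ + δ : ℕ) : ℝ) := by exact_mod_cast this
      push_cast at h3
      nlinarith
    rw [abs_le]; constructor <;> linarith
  have e4 : (N : ℝ) * (Nat.card H : ℝ) / (d * δ) = (N : ℝ) / δ * ((Nat.card H : ℝ) / d) := by
    field_simp
  have e5 : ((N / δ : ℕ) : ℝ) * (Nat.card H : ℝ) / d = ((N / δ : ℕ) : ℝ) * ((Nat.card H : ℝ) / d) := by
    ring
  rw [e4]
  rw [e5] at e1
  have e6 : |((N / δ : ℕ) : ℝ) * ((Nat.card H : ℝ) / d) - (N : ℝ) / δ * ((Nat.card H : ℝ) / d)| ≤ 1 := by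
    rw [← sub_mul, abs_mul, abs_of_nonneg hHd0]
    exact (mul_le_mul e3 hHd hHd0 zero_le_one).trans (by norm_num)
  calc _ ≤ _ + _ := abs_sub_le _ (((N / δ : ℕ) : ℝ) * ((Nat.card H : ℝ) / d)) _
    _ ≤ BB d + 1 := add_le_add e1 e6
    _ = 1 + BB d := by ring

end Pool.Agent.Lib.MP_42948a_nt.OA
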