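import Pool.Agent.Lib.MP_42948a_nt.OA.EB

/-!
# Exponential sums over subgroups (job EC)

`S(t) = ∑_{h ∈ H} e(t h)`. (a) For `u ∈ H`, `S(t u) = S(t)` (reindex `h ↦ u h`). (b) Hence all points of the orbit `O = {t u : u ∈ H}`
have the same `‖S‖^2`, and `#O * ‖S(t)‖^2 ≤ ∑_s ‖S(s)‖^2 = d |H|` (`parseval`, `(Hset H).card = Nat.card H`: `Units.ext`).
(c) `|H| ≤ #O * gcd(t, d)`: the fibre of `u ↦ t u` over `t u0` consists of the `u ∈ H` with `t (u - u0) = 0` in `ZMod d`; the number of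
`x : ZMod d` with `t * x = 0` is `gcd(t.val, d)` (it is enough that it is `≤ gcd`: `t.val * x.val ≡ 0 mod d` iff
`(d / gcd) ∣ x.val`, and the number of multiples of `d/g` in `[0, d)` is `g`), and `u ↦ u - u0` is injective.
(`Finset.card_le_mul_card_image`.) So `‖S(t)‖^2 |H| ≤ ‖S(t)‖^2 #O gcd ≤ d |H| gcd`; divide by `|H| > 0`.
-/

namespace Pool.Agent.Lib.MP_42948a_nt.OA

open Finset

theorem EC_mem {d : ℕ} [NeZero d] (H : Subgroup (ZMod d)ˣ) (x : ZMod d) :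
    x ∈ Hset H ↔ ∃ h ∈ H, x = ((h : (ZMod d)ˣ) : ZMod d) := by
  unfold Hset
  simp only [Finset.mem_filter, Finset.mem_univ, true_and]

theorem card_Hset (d : ℕ) [NeZero d] (H : Subgroup (ZMod d)ˣ) : (Hset H).card = Nat.card H := by
  classical
  have h1 : Hset H = (Finset.univ : Finset H).image (fun h : H => (((h : (ZMod d)ˣ)) : ZMod d)) := by
    ext x
    rw [EC_mem, Finset.mem_image]
    constructor
    · rintro ⟨h, hh, rfl⟩
      exact ⟨⟨h, hh⟩, Finset.mem_univ _, rfl⟩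
    · rintro ⟨h, _, rfl⟩
      exact ⟨h.1, h.2, rfl⟩
  rw [h1, Finset.card_image_of_injective, Finset.card_univ, Nat.card_eq_fintype_card]
  intro a b hab
  exact Subtype.ext (Units.ext hab)

theorem EC_inv {d : ℕ} [NeZero d] (H : Subgroup (ZMod d)ˣ) (t : ZMod d) {u : (ZMod d)ˣ} (hu : u ∈ H) :
    ∑ h ∈ Hset H, ZMod.stdAddChar (t * (u : ZMod d) * h) = ∑ h ∈ Hset H, (ZMod.stdAddChar (t * h) : ℂ) := by
  refine Finset.sum_bij' (fun h _ => (u : ZMod d) * h) (fun h _ => ((u⁻¹ : (ZMod d)ˣ) : ZMod d) * h) ?_ ?_ ?_ ?_ ?_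
  · intro x hx
    obtain ⟨h, hh, rfl⟩ := (EC_mem H x).1 hx
    exact (EC_mem H _).2 ⟨u * h, H.mul_mem hu hh, by push_cast; rfl⟩
  · intro x hx
    obtain ⟨h, hh, rfl⟩ := (EC_mem H x).1 hx
    exact (EC_mem H _).2 ⟨u⁻¹ * h, H.mul_mem (H.inv_mem hu) hh, by push_cast; rfl⟩
  · intro x _
    show ((u⁻¹ : (ZMod d)ˣ) : ZMod d) * ((u : ZMod d) * x) = x
    rw [← mul_assoc, Units.inv_mul, one_mul]
  · intro x _
    show (u : ZMod d) * (((u⁻¹ : (ZMod d)ˣ) : ZMod d) * x) = x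
    rw [← mul_assoc, Units.mul_inv, one_mul]
  · intro x _
    show (ZMod.stdAddChar (t * (u : ZMod d) * x) : ℂ) = ZMod.stdAddChar (t * ((u : ZMod d) * x))
    rw [mul_assoc]

theorem EC_ker {d : ℕ} [NeZero d] [DecidableEq (ZMod d)] (t : ZMod d) :
    ((Finset.univ : Finset (ZMod d)).filter (fun x => t * x = 0)).card ≤ Nat.gcd t.val d := by
  have hg : 0 < Nat.gcd t.val d := Nat.gcd_pos_of_pos_right _ (NeZero.pos d)
  refine (Finset.card_le_card ?_).trans (IsAddCyclic.card_nsmul_eq_zero_le (α := ZMod d) hg)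
  intro x hx
  have h1 : t * x = 0 := (Finset.mem_filter.1 hx).2
  refine Finset.mem_filter.2 ⟨Finset.mem_univ _, ?_⟩
  rw [← addOrderOf_dvd_iff_nsmul_eq_zero]
  refine Nat.dvd_gcd ?_ ?_
  · rw [addOrderOf_dvd_iff_nsmul_eq_zero, nsmul_eq_mul, ZMod.natCast_val, ZMod.cast_id', id]
    exact h1
  · rw [addOrderOf_dvd_iff_nsmul_eq_zero, nsmul_eq_mul, ZMod.natCast_self, zero_mul]

theorem subgroup_sum_bound (d : ℕ) [NeZero d] (H : Subgroup (ZMod d)ˣ) (t : ZMod d) :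
    ‖∑ h ∈ Hset H, ZMod.stdAddChar (t * h)‖ ^ 2 ≤ (d : ℝ) * (Nat.gcd t.val d : ℝ) := by
  classical
  set S : ZMod d → ℂ := fun t => ∑ h ∈ Hset H, ZMod.stdAddChar (t * h) with hS
  set O : Finset (ZMod d) := (Hset H).image (fun x => t * x) with hO
  have hb : (O.card : ℝ) * ‖S t‖ ^ 2 ≤ (d : ℝ) * (Hset H).card := by
    rw [← parseval d (Hset H)]
    have h1 : (O.card : ℝ) * ‖S t‖ ^ 2 = ∑ s ∈ O, ‖S s‖ ^ 2 := by
      rw [Finset.sum_congr rfl (g := fun _ => ‖S t‖ ^ 2), Finset.sum_const, nsmul_eq_mul]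
      intro s hs
      obtain ⟨x, hx, rfl⟩ := Finset.mem_image.1 hs
      obtain ⟨u, hu, rfl⟩ := (EC_mem H x).1 hx
      have h2 : S (t * (u : ZMod d)) = S t := EC_inv H t hu
      show ‖S (t * (u : ZMod d))‖ ^ 2 = _
      rw [h2]
    rw [h1]
    exact Finset.sum_le_sum_of_subset_of_nonneg (Finset.subset_univ _) fun _ _ _ => by positivity
  have hc : (Hset H).card ≤ Nat.gcd t.val d * O.card := by
    refine Finset.card_le_mul_card_image (f := fun x => t * x) (Hset H) (Nat.gcd t.val d) fun b hb => ?_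
    obtain ⟨u0, _, rfl⟩ := Finset.mem_image.1 hb
    refine le_trans ?_ (EC_ker t)
    refine Finset.card_le_card_of_injOn (fun x => x - u0) (fun x hx => ?_) (fun x _ y _ hxy => ?_)
    · have h1 := (Finset.mem_filter.1 (Finset.mem_coe.1 hx)).2
      refine Finset.mem_coe.2 (Finset.mem_filter.2 ⟨Finset.mem_univ _, ?_⟩)
      show t * (x - u0) = 0
      rw [mul_sub, sub_eq_zero]
      exact h1
    · exact sub_left_injective hxy
  have hH : 0 < (Hset H).card := Finset.card_pos.2 ⟨1, (EC_mem H 1).2 ⟨1, H.one_mem, by simp⟩⟩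
  have hH' : (0 : ℝ) < (Hset H).card := by exact_mod_cast hH
  have hc' : ((Hset H).card : ℝ) ≤ (Nat.gcd t.val d : ℝ) * O.card := by exact_mod_cast hc
  have h3 : ‖S t‖ ^ 2 * (Hset H).card ≤ ((d : ℝ) * (Nat.gcd t.val d : ℝ)) * (Hset H).card := by
    calc ‖S t‖ ^ 2 * (Hset H).card ≤ ‖S t‖ ^ 2 * ((Nat.gcd t.val d : ℝ) * O.card) :=
          mul_le_mul_of_nonneg_left hc' (by positivity)
      _ = (Nat.gcd t.val d : ℝ) * ((O.card : ℝ) * ‖S t‖ ^ 2) := by ring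
      _ ≤ (Nat.gcd t.val d : ℝ) * ((d : ℝ) * (Hset H).card) := mul_le_mul_of_nonneg_left hb (by positivity)
      _ = _ := by ring
  exact le_of_mul_le_mul_right h3 hH'

end Pool.Agent.Lib.MP_42948a_nt.OA
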