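import Pool.Agent.Lib.MP_42948a_nt.OA.Defs

/-!
# Parseval (job EB)

`‖w‖^2 = w * conj w` (as a complex number), expand the square, exchange the sums: `∑_{h, h' ∈ S} ∑_t e(t (h - h'))`, and
`∑_t e(t b) = d` if `b = 0` and `0` otherwise (`AddChar.sum_mulShift` with `ZMod.isPrimitive_stdAddChar`; `conj (e x) = e (-x)`:
`AddChar.map_neg_eq_conj` / `AddChar.starComp_apply`-type lemmas, or `ZMod.stdAddChar_apply` and `Circle`).
-/

namespace Pool.Agent.Lib.MP_42948a_nt.OA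

open Finset

theorem parseval (d : ℕ) [NeZero d] (S : Finset (ZMod d)) :
    ∑ t : ZMod d, ‖∑ h ∈ S, ZMod.stdAddChar (t * h)‖ ^ 2 = (d : ℝ) * S.card := by
  have hconj : ∀ x : ZMod d, (starRingEnd ℂ) (ZMod.stdAddChar x) = ZMod.stdAddChar (-x) := fun x =>
    (AddChar.map_neg_eq_conj (ZMod.stdAddChar : AddChar (ZMod d) ℂ) x).symm
  have h1 : ∀ t : ZMod d, ((‖∑ h ∈ S, ZMod.stdAddChar (t * h)‖ ^ 2 : ℝ) : ℂ) =
      ∑ h ∈ S, ∑ h' ∈ S, ZMod.stdAddChar (t * (h - h')) := by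
    intro t
    rw [← Complex.normSq_eq_norm_sq, Complex.normSq_eq_conj_mul_self, map_sum, Finset.sum_mul_sum]
    rw [Finset.sum_comm]
    refine Finset.sum_congr rfl fun h _ => Finset.sum_congr rfl fun h' _ => ?_
    rw [hconj, ← AddChar.map_add_eq_mul]
    congr 1
    ring
  have h2 : ((∑ t : ZMod d, ‖∑ h ∈ S, ZMod.stdAddChar (t * h)‖ ^ 2 : ℝ) : ℂ) = (((d : ℝ) * S.card : ℝ) : ℂ) := by
    rw [Complex.ofReal_sum]
    rw [Finset.sum_congr rfl fun t _ => h1 t, Finset.sum_comm]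
    have h3 : ∀ h ∈ S, ∑ t : ZMod d, ∑ h' ∈ S, (ZMod.stdAddChar (t * (h - h')) : ℂ) = d := by
      intro h hh
      rw [Finset.sum_comm]
      rw [Finset.sum_eq_single h]
      · rw [AddChar.sum_mulShift (h - h) (ZMod.isPrimitive_stdAddChar d), sub_self, if_pos rfl, ZMod.card]
      · intro h' _ hne
        rw [AddChar.sum_mulShift (h - h') (ZMod.isPrimitive_stdAddChar d), if_neg (sub_ne_zero.2 hne.symm), Nat.cast_zero]
      · intro hn
        exact absurd hh hn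
    rw [Finset.sum_congr rfl h3, Finset.sum_const, nsmul_eq_mul]
    push_cast
    ring
  exact_mod_cast h2

end Pool.Agent.Lib.MP_42948a_nt.OA
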