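import Pool.Agent.Lib.MP_42948a_nt.OA.Defs

/-!
# Geometric sums (job ED)

Let `ω = e(t) = exp(2πi t.val/d) ≠ 1` (`ZMod.stdAddChar_apply`/`ZMod.toCircle_apply`; `e(t n) = ω^n`), so
`‖∑_{n=1}^N ω^n‖ = ‖ω (ω^N - 1)/(ω - 1)‖ ≤ 2/‖ω - 1‖`. With `τ = t.val`, `‖ω - 1‖ = 2 |sin(π τ/d)|`
(`Complex.norm_exp_I_mul_ofReal_sub_one` or by hand), and for `m = min τ (d - τ) ≤ d/2`:
`sin(π τ/d) = sin(π m/d) ≥ (2/π)(π m/d) = 2 m/d` (`Real.mul_le_sin`). So `‖∑‖ ≤ 2/(4 m/d) = d/(2 m)`.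
-/

namespace Pool.Agent.Lib.MP_42948a_nt.OA

open Finset

private theorem ED_norm (d : ℕ) [NeZero d] (t : ZMod d) :
    ‖ZMod.stdAddChar t - 1‖ = 2 * |Real.sin (Real.pi * (t.val : ℝ) / d)| := by
  have hd : (d : ℂ) ≠ 0 := by exact_mod_cast NeZero.ne d
  have h1 : ZMod.stdAddChar t = Complex.exp (Complex.I * ((2 * Real.pi * (t.val : ℝ) / d : ℝ) : ℂ)) := by
    rw [ZMod.stdAddChar_apply, ZMod.toCircle_apply]
    congr 1
    push_cast
    ring
  rw [h1, Complex.norm_exp_I_mul_ofReal_sub_one, Real.norm_eq_abs, abs_mul]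
  have h2 : 2 * Real.pi * (t.val : ℝ) / d / 2 = Real.pi * (t.val : ℝ) / d := by ring
  rw [h2]
  norm_num

private theorem ED_low (d : ℕ) [NeZero d] (t : ZMod d) (_ht : t ≠ 0) :
    4 * ((min t.val (d - t.val) : ℕ) : ℝ) / d ≤ ‖ZMod.stdAddChar t - 1‖ := by
  have hd : (0 : ℝ) < d := by exact_mod_cast Nat.pos_of_ne_zero (NeZero.ne d)
  have hlt : t.val < d := ZMod.val_lt t
  have key : ∀ m : ℕ, 2 * m ≤ d → 2 * (m : ℝ) / d ≤ Real.sin (Real.pi * (m : ℝ) / d) := by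
    intro m hm
    have hm' : 2 * (m : ℝ) ≤ d := by exact_mod_cast hm
    have h1 := Real.mul_le_sin (x := Real.pi * (m : ℝ) / d) (by positivity) (by
      rw [div_le_div_iff₀ hd (by norm_num)]
      nlinarith [Real.pi_pos])
    refine le_trans (le_of_eq ?_) h1
    have := Real.pi_pos.ne'
    field_simp
  rw [ED_norm]
  rcases le_total (2 * t.val) d with h | h
  · have hmin : min t.val (d - t.val) = t.val := min_eq_left (by omega)
    rw [hmin]
    have h1 := key t.val h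
    have h2 := le_abs_self (Real.sin (Real.pi * (t.val : ℝ) / d))
    have h3 : 4 * (t.val : ℝ) / d = 2 * (2 * (t.val : ℝ) / d) := by ring
    rw [h3]
    linarith
  · have hmin : min t.val (d - t.val) = d - t.val := min_eq_right (by omega)
    rw [hmin]
    have h1 := key (d - t.val) (by omega)
    have h4 : Real.sin (Real.pi * ((d - t.val : ℕ) : ℝ) / d) = Real.sin (Real.pi * (t.val : ℝ) / d) := by
      rw [← Real.sin_pi_sub]
      congr 1
      rw [Nat.cast_sub hlt.le]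
      field_simp
      ring
    rw [h4] at h1
    have h2 := le_abs_self (Real.sin (Real.pi * (t.val : ℝ) / d))
    have h3 : 4 * ((d - t.val : ℕ) : ℝ) / d = 2 * (2 * ((d - t.val : ℕ) : ℝ) / d) := by ring
    rw [h3]
    linarith

theorem geom_bound (d : ℕ) [NeZero d] (t : ZMod d) (ht : t ≠ 0) (N : ℕ) :
    ‖∑ n ∈ Icc 1 N, ZMod.stdAddChar (t * (n : ZMod d))‖ ≤ (d : ℝ) / (2 * (min t.val (d - t.val) : ℕ)) := by
  have hd : (0 : ℝ) < d := by exact_mod_cast Nat.pos_of_ne_zero (NeZero.ne d)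
  have hlt : t.val < d := ZMod.val_lt t
  have hv : t.val ≠ 0 := fun h => ht ((ZMod.val_eq_zero t).mp h)
  set m : ℕ := min t.val (d - t.val) with hm
  have hm0 : 0 < m := by rw [hm]; exact lt_min (by omega) (by omega)
  have hm1 : (0 : ℝ) < m := by exact_mod_cast hm0
  set ω : ℂ := ZMod.stdAddChar t with hω
  have hlow : 4 * (m : ℝ) / d ≤ ‖ω - 1‖ := ED_low d t ht
  have hpow : ∀ n : ℕ, ZMod.stdAddChar (t * (n : ZMod d)) = ω ^ n := by
    intro n
    rw [hω, ← AddChar.map_nsmul_eq_pow, nsmul_eq_mul, mul_comm]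
  have hnorm : ‖ω‖ = 1 := by
    rw [hω, ZMod.stdAddChar_apply]
    exact Circle.norm_coe _
  have hsum : (ω - 1) * ∑ n ∈ Icc 1 N, ω ^ n = ω ^ (N + 1) - ω := by
    induction N with
    | zero => simp
    | succ k ih =>
      rw [Finset.sum_Icc_succ_top (by omega), mul_add, ih]
      ring
  have hle : ‖ω - 1‖ * ‖∑ n ∈ Icc 1 N, ω ^ n‖ ≤ 2 := by
    rw [← norm_mul, hsum]
    refine (norm_sub_le _ _).trans ?_
    rw [norm_pow, hnorm]
    norm_num
  have hsum2 : ∑ n ∈ Icc 1 N, ZMod.stdAddChar (t * (n : ZMod d)) = ∑ n ∈ Icc 1 N, ω ^ n :=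
    Finset.sum_congr rfl fun n _ => hpow n
  rw [hsum2]
  set A : ℝ := ‖∑ n ∈ Icc 1 N, ω ^ n‖ with hA
  have hA0 : 0 ≤ A := norm_nonneg _
  have h1 : 4 * (m : ℝ) / d * A ≤ 2 := (mul_le_mul_of_nonneg_right hlow hA0).trans hle
  rw [le_div_iff₀ (by positivity)]
  have h2 : 4 * (m : ℝ) / d * A = (4 * m * A) / d := by ring
  rw [h2, div_le_iff₀ hd] at h1
  linarith

end Pool.Agent.Lib.MP_42948a_nt.OA
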