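import Pool.Agent.Lib.MP_42948a_nt.OA.Defs

/-!
# The sum over the frequencies (job EE)

`1/(2 min(t, d-t)) ≤ (1/t + 1/(d-t))/2`; the substitution `t ↦ d - t` preserves `gcd(t, d)` (`Nat.gcd_sub_self_left` etc.), so the
left side is at most `∑_{t=1}^{d-1} √gcd(t,d) / t`. With `g = gcd(t, d) ∣ d`: `√gcd(t,d)/t ≤ ∑_{g ∣ d, g ∣ t} √g / t` (the term
`g = gcd(t,d)`), so the sum is at most `∑_{g ∣ d} √g ∑_{1 ≤ t ≤ d, g ∣ t} 1/t ≤ ∑_{g ∣ d} (√g/g) ∑_{j ≤ d/g} 1/j ≤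
∑_{g ∣ d} (1 + log d)` (`harmonic_le_one_add_log` / `harmonic_floor_le_one_add_log`, `√g / g ≤ 1`).
-/

namespace Pool.Agent.Lib.MP_42948a_nt.OA

open Finset

theorem EE_harm (d : ℕ) : ∑ j ∈ Icc 1 d, (1 : ℝ) / j ≤ 1 + Real.log d := by
  have h1 := harmonic_le_one_add_log d
  rw [harmonic_eq_sum_Icc] at h1
  push_cast at h1
  simpa only [one_div] using h1

theorem EE_refl (d : ℕ) :
    ∑ t ∈ Icc 1 (d - 1), √(Nat.gcd (d - t) d : ℝ) / ((d - t : ℕ) : ℝ) =
      ∑ t ∈ Icc 1 (d - 1), √(Nat.gcd t d : ℝ) / (t : ℝ) := by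
  refine Finset.sum_nbij' (fun t => d - t) (fun t => d - t) ?_ ?_ ?_ ?_ ?_
  · intro t ht
    rw [Finset.mem_Icc] at ht ⊢
    omega
  · intro t ht
    rw [Finset.mem_Icc] at ht ⊢
    omega
  · intro t ht
    rw [Finset.mem_Icc] at ht
    show d - (d - t) = t
    omega
  · intro t ht
    rw [Finset.mem_Icc] at ht
    show d - (d - t) = t
    omega
  · intro t _
    rfl

theorem EE_term (d t : ℕ) (ht : t ∈ Icc 1 (d - 1)) :
    √(Nat.gcd t d : ℝ) / (2 * (min t (d - t) : ℕ)) ≤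
      (√(Nat.gcd t d : ℝ) / (t : ℝ) + √(Nat.gcd (d - t) d : ℝ) / ((d - t : ℕ) : ℝ)) / 2 := by
  rw [Finset.mem_Icc] at ht
  have hg : Nat.gcd (d - t) d = Nat.gcd t d := by
    have h1 : t ≤ d := by omega
    rw [Nat.gcd_comm, Nat.gcd_comm t d]
    exact Nat.gcd_self_sub_right h1
  rw [hg]
  have h0 : 0 ≤ √(Nat.gcd t d : ℝ) := Real.sqrt_nonneg _
  have ht0 : (0 : ℝ) < (t : ℝ) := by exact_mod_cast ht.1
  have hd0 : (0 : ℝ) < ((d - t : ℕ) : ℝ) := by
    have : 0 < d - t := by omega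
    exact_mod_cast this
  have h3 : √(Nat.gcd t d : ℝ) / (2 * (min t (d - t) : ℕ)) = (√(Nat.gcd t d : ℝ) / ((min t (d - t) : ℕ) : ℝ)) / 2 := by
    rw [div_div, mul_comm (2 : ℝ)]
  rw [h3]
  apply div_le_div_of_nonneg_right _ (by norm_num : (0 : ℝ) ≤ 2)
  rcases le_total t (d - t) with h | h
  · rw [min_eq_left h]
    have : 0 ≤ √(Nat.gcd t d : ℝ) / ((d - t : ℕ) : ℝ) := div_nonneg h0 hd0.le
    linarith
  · rw [min_eq_right h]
    have : 0 ≤ √(Nat.gcd t d : ℝ) / (t : ℝ) := div_nonneg h0 ht0.le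
    linarith

theorem EE_inner (d g : ℕ) (hg : g ∈ d.divisors) :
    ∑ t ∈ (Icc 1 d).filter (fun t => g ∣ t), √(g : ℝ) / (t : ℝ) ≤ 1 + Real.log d := by
  rw [Nat.mem_divisors] at hg
  have hd0 : 0 < d := Nat.pos_of_ne_zero hg.2
  have hg0 : 0 < g := Nat.pos_of_dvd_of_pos hg.1 hd0
  have hgR : (1 : ℝ) ≤ (g : ℝ) := by exact_mod_cast hg0
  refine le_trans ?_ (EE_harm d)
  calc ∑ t ∈ (Icc 1 d).filter (fun t => g ∣ t), √(g : ℝ) / (t : ℝ) ≤
      ∑ t ∈ (Icc 1 d).filter (fun t => g ∣ t), (1 : ℝ) / ((t / g : ℕ) : ℝ) := by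
        refine Finset.sum_le_sum fun t ht => ?_
        rw [Finset.mem_filter, Finset.mem_Icc] at ht
        obtain ⟨⟨ht1, ht2⟩, k, rfl⟩ := ht
        have hk : 0 < k := by
          rcases Nat.eq_zero_or_pos k with rfl | h
          · omega
          · exact h
        have hk0 : (0 : ℝ) < (k : ℝ) := by exact_mod_cast hk
        rw [Nat.mul_div_cancel_left k hg0]
        push_cast
        rw [div_le_div_iff₀ (by positivity) hk0]
        have h1 : √(g : ℝ) ≤ (g : ℝ) := by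
          rw [Real.sqrt_le_left (by linarith)]
          nlinarith
        nlinarith
    _ = ∑ j ∈ ((Icc 1 d).filter (fun t => g ∣ t)).image (fun t => t / g), (1 : ℝ) / (j : ℝ) := by
        rw [Finset.sum_image]
        intro t ht t' ht' h
        have h1 := (Finset.mem_filter.1 ht).2
        have h2 := (Finset.mem_filter.1 ht').2
        have h3 : t / g = t' / g := h
        rw [← Nat.div_mul_cancel h1, ← Nat.div_mul_cancel h2, h3]
    _ ≤ ∑ j ∈ Icc 1 d, (1 : ℝ) / (j : ℝ) := by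
        refine Finset.sum_le_sum_of_subset_of_nonneg ?_ fun j _ _ => by positivity
        intro j hj
        rw [Finset.mem_image] at hj
        obtain ⟨t, ht, rfl⟩ := hj
        rw [Finset.mem_filter, Finset.mem_Icc] at ht
        rw [Finset.mem_Icc]
        constructor
        · exact Nat.div_pos (Nat.le_of_dvd (by omega) ht.2) hg0
        · exact (Nat.div_le_self _ _).trans ht.1.2

theorem gcd_sum (d : ℕ) (hd : 1 ≤ d) :
    ∑ t ∈ Icc 1 (d - 1), √(Nat.gcd t d : ℝ) / (2 * (min t (d - t) : ℕ)) ≤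
      (d.divisors.card : ℝ) * (1 + Real.log d) := by
  calc ∑ t ∈ Icc 1 (d - 1), √(Nat.gcd t d : ℝ) / (2 * (min t (d - t) : ℕ)) ≤
      ∑ t ∈ Icc 1 (d - 1), (√(Nat.gcd t d : ℝ) / (t : ℝ) + √(Nat.gcd (d - t) d : ℝ) / ((d - t : ℕ) : ℝ)) / 2 :=
        Finset.sum_le_sum fun t ht => EE_term d t ht
    _ = ∑ t ∈ Icc 1 (d - 1), √(Nat.gcd t d : ℝ) / (t : ℝ) := by
        rw [← Finset.sum_div, Finset.sum_add_distrib, EE_refl]
        ring
    _ ≤ ∑ t ∈ Icc 1 (d - 1), ∑ g ∈ d.divisors, if g ∣ t then √(g : ℝ) / (t : ℝ) else 0 := by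
        refine Finset.sum_le_sum fun t _ => ?_
        have h1 : Nat.gcd t d ∈ d.divisors := Nat.mem_divisors.2 ⟨Nat.gcd_dvd_right _ _, by omega⟩
        have h2 := Finset.single_le_sum (f := fun g : ℕ => if g ∣ t then √(g : ℝ) / (t : ℝ) else 0)
          (fun g _ => by split_ifs <;> positivity) h1
        simp only [if_pos (Nat.gcd_dvd_left t d)] at h2
        exact h2
    _ ≤ ∑ t ∈ Icc 1 d, ∑ g ∈ d.divisors, if g ∣ t then √(g : ℝ) / (t : ℝ) else 0 := by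
        refine Finset.sum_le_sum_of_subset_of_nonneg (Finset.Icc_subset_Icc_right (Nat.sub_le _ _)) fun t _ _ => ?_
        exact Finset.sum_nonneg fun g _ => by split_ifs <;> positivity
    _ = ∑ g ∈ d.divisors, ∑ t ∈ (Icc 1 d).filter (fun t => g ∣ t), √(g : ℝ) / (t : ℝ) := by
        rw [Finset.sum_comm]
        exact Finset.sum_congr rfl fun g _ => by rw [Finset.sum_filter]
    _ ≤ ∑ g ∈ d.divisors, (1 + Real.log d) := Finset.sum_le_sum fun g hg => EE_inner d g hg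
    _ = (d.divisors.card : ℝ) * (1 + Real.log d) := by rw [Finset.sum_const, nsmul_eq_mul]

end Pool.Agent.Lib.MP_42948a_nt.OA
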