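import Pool.Agent.Lib.MP_42948a_nt.OA.EF

/-!
# The real character (job EJ)

`chi_mul`, `chi_one`, `chi_val`, `chi_noncoprime`, `chi_eq`: unfold `chi`; `IsUnit ((m * n : ℕ) : ZMod d)` iff both are units;
`IsUnit (n : ZMod d) ↔ n.Coprime d` (`ZMod.isUnit_iff_coprime`); values in `ℤˣ` are `±1` (`Int.units_eq_one_or`).
`chi_sum`: let `H = ψ.ker`, `q` with `ψ q = -1` (exists as `ψ ≠ 1`). For all `n`, `chi ψ n = 1[n ∈ cosetSet H 1] - 1[n ∈ cosetSet H q]`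
(if `n` is a unit `u`: `ψ u = 1` iff `u ∈ H`; `ψ u = -1` iff `q⁻¹ u ∈ H`). Sum over `n ∈ [1, N]`: both counts are within `BB d` of
`N |H| / d` (`coset_count`).
-/

namespace Pool.Agent.Lib.MP_42948a_nt.OA

open Finset

theorem EJ_eq {d : ℕ} (ψ : (ZMod d)ˣ →* ℤˣ) (n : ℕ) (c : (ZMod d)ˣ) (h : (n : ZMod d) = (c : ZMod d)) :
    chi ψ n = (((ψ c : ℤˣ) : ℤ) : ℝ) := by
  have hu : IsUnit (n : ZMod d) := h ▸ c.isUnit
  have h1 : hu.unit = c := Units.ext h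
  unfold chi
  rw [dif_pos hu, h1]

theorem EJ_zero {d : ℕ} (ψ : (ZMod d)ˣ →* ℤˣ) (n : ℕ) (h : ¬ IsUnit (n : ZMod d)) : chi ψ n = 0 := by
  unfold chi
  rw [dif_neg h]

theorem chi_mul {d : ℕ} (ψ : (ZMod d)ˣ →* ℤˣ) (m n : ℕ) : chi ψ (m * n) = chi ψ m * chi ψ n := by
  by_cases hm : IsUnit (m : ZMod d)
  · by_cases hn : IsUnit (n : ZMod d)
    · obtain ⟨u, hu⟩ := hm
      obtain ⟨v, hv⟩ := hn
      rw [EJ_eq ψ m u hu.symm, EJ_eq ψ n v hv.symm,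
        EJ_eq ψ (m * n) (u * v) (by rw [Nat.cast_mul, Units.val_mul, hu, hv]), map_mul]
      push_cast
      rfl
    · rw [EJ_zero ψ n hn, mul_zero, EJ_zero]
      rw [Nat.cast_mul, IsUnit.mul_iff]
      exact fun h => hn h.2
  · rw [EJ_zero ψ m hm, zero_mul, EJ_zero]
    rw [Nat.cast_mul, IsUnit.mul_iff]
    exact fun h => hm h.1

theorem chi_one {d : ℕ} (ψ : (ZMod d)ˣ →* ℤˣ) : chi ψ 1 = 1 := by
  rw [EJ_eq ψ 1 1 (by simp), map_one]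
  simp

theorem chi_val {d : ℕ} (ψ : (ZMod d)ˣ →* ℤˣ) (n : ℕ) : chi ψ n = 0 ∨ chi ψ n = 1 ∨ chi ψ n = -1 := by
  by_cases hn : IsUnit (n : ZMod d)
  · obtain ⟨u, hu⟩ := hn
    rw [EJ_eq ψ n u hu.symm]
    rcases Int.units_eq_one_or (ψ u) with h | h
    · right; left
      rw [h]
      simp
    · right; right
      rw [h]
      simp
  · exact Or.inl (EJ_zero ψ n hn)

theorem chi_noncoprime {d : ℕ} (ψ : (ZMod d)ˣ →* ℤˣ) (n : ℕ) (h : ¬ n.Coprime d) : chi ψ n = 0 :=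
  EJ_zero ψ n fun hu => h ((ZMod.isUnit_iff_coprime n d).1 hu)

theorem chi_eq {d : ℕ} (ψ : (ZMod d)ˣ →* ℤˣ) (n : ℕ) (c : (ZMod d)ˣ) (h : (n : ZMod d) = (c : ZMod d)) :
    chi ψ n = (((ψ c : ℤˣ) : ℤ) : ℝ) :=
  EJ_eq ψ n c h

theorem EJ_mem {d : ℕ} (ψ : (ZMod d)ˣ →* ℤˣ) (q u : (ZMod d)ˣ) :
    ((u : ZMod d) ∈ cosetSet ψ.ker q) ↔ ψ u = ψ q := by
  constructor
  · rintro ⟨h, hh, hx⟩
    have h1 : u = q * h := Units.ext hx
    rw [h1, map_mul, MonoidHom.mem_ker.1 hh, mul_one]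
  · intro h
    refine ⟨q⁻¹ * u, ?_, ?_⟩
    · rw [MonoidHom.mem_ker, map_mul, map_inv, h, inv_mul_cancel]
    · rw [mul_inv_cancel_left]

theorem EJ_not_mem {d : ℕ} (ψ : (ZMod d)ˣ →* ℤˣ) (q : (ZMod d)ˣ) (n : ℕ) (h : ¬ IsUnit (n : ZMod d)) :
    (n : ZMod d) ∉ cosetSet ψ.ker q := by
  rintro ⟨g, hg, hx⟩
  exact h (hx ▸ Units.isUnit _)

theorem chi_sum (d : ℕ) [NeZero d] (ψ : (ZMod d)ˣ →* ℤˣ) (hψ : ψ ≠ 1) (N : ℕ) :
    |∑ n ∈ Icc 1 N, chi ψ n| ≤ 2 * BB d := by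
  classical
  obtain ⟨q, hq⟩ : ∃ q, ψ q ≠ 1 := by
    by_contra hcon
    push Not at hcon
    exact hψ (MonoidHom.ext hcon)
  have hq1 : ψ q = -1 := (Int.units_eq_one_or (ψ q)).resolve_left hq
  have hcard : ∀ r : (ZMod d)ˣ, ((cls N ∅ (cosetSet ψ.ker r)).card : ℝ) =
      ∑ n ∈ Icc 1 N, if (n : ZMod d) ∈ cosetSet ψ.ker r then (1 : ℝ) else 0 := by
    intro r
    rw [Finset.sum_boole]
    congr 2
    unfold cls
    ext n
    simp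
  have hterm : ∀ n ∈ Icc 1 N, chi ψ n = (if (n : ZMod d) ∈ cosetSet ψ.ker 1 then (1 : ℝ) else 0) -
      if (n : ZMod d) ∈ cosetSet ψ.ker q then (1 : ℝ) else 0 := by
    intro n _
    by_cases hn : IsUnit (n : ZMod d)
    · obtain ⟨u, hu⟩ := hn
      rw [EJ_eq ψ n u hu.symm, ← hu]
      have h1 := EJ_mem ψ 1 u
      have h2 := EJ_mem ψ q u
      rw [map_one] at h1
      rw [hq1] at h2
      have h3 : (1 : ℤˣ) ≠ -1 := by decide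
      rcases Int.units_eq_one_or (ψ u) with h | h
      · rw [if_pos (h1.2 h), if_neg (fun h4 => h3 (h.symm.trans (h2.1 h4))), h]
        simp
      · rw [if_neg (fun h4 => h3 ((h1.1 h4).symm.trans h)), if_pos (h2.2 h), h]
        simp
    · rw [EJ_zero ψ n hn, if_neg (EJ_not_mem ψ 1 n hn), if_neg (EJ_not_mem ψ q n hn), sub_zero]
  rw [Finset.sum_congr rfl hterm, Finset.sum_sub_distrib, ← hcard 1, ← hcard q]
  have h1 := abs_le.1 (coset_count d ψ.ker 1 N)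
  have h2 := abs_le.1 (coset_count d ψ.ker q N)
  rw [abs_le]
  constructor <;> linarith [h1.1, h1.2, h2.1, h2.2]

end Pool.Agent.Lib.MP_42948a_nt.OA
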