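import Pool.Agent.Lib.MP_42948a_nt.OA.Defs

/-!
# Positivity of `r = χ * 1` (job RA)

`χ` is completely multiplicative with values `0, 1, -1`. `rr χ` is multiplicative on coprime arguments (`Nat.divisors_mul`, or view `χ`
as an `ArithmeticFunction ℝ` (value `0` at `0`), `rr χ = ζ * χ` and use `ArithmeticFunction.IsMultiplicative.mul`); on a prime power
`rr χ (p^k) = ∑_{j ≤ k} (χ p)^j` (`Nat.sum_divisors_prime_pow`), which is `1` (`χ p = 0`), `k + 1` (`χ p = 1`), `1` or `0` according to the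
parity of `k` (`χ p = -1`). So `rr χ n ≥ 0` for all `n` and `rr χ (m^2) ≥ 1` for `m ≥ 1` (induction `Nat.recOnPosPrimePosCoprime` /
`Nat.recOnMul`, or `IsMultiplicative.multiplicative_factorization`).
-/

namespace Pool.Agent.Lib.MP_42948a_nt.OA

open Finset

theorem rr_mul (χ : ℕ → ℝ) (hmul : ∀ m n, χ (m * n) = χ m * χ n) {m n : ℕ} (h : m.Coprime n) :
    rr χ (m * n) = rr χ m * rr χ n := by
  unfold rr
  rw [Nat.divisors_mul, Finset.mul_def, Finset.sum_image h.mul_injOn_divisors,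
    Finset.sum_product, Finset.sum_mul_sum]
  refine Finset.sum_congr rfl fun a _ => Finset.sum_congr rfl fun b _ => ?_
  exact hmul a b

theorem RA_pow (χ : ℕ → ℝ) (hmul : ∀ m n, χ (m * n) = χ m * χ n) (h1 : χ 1 = 1) (p : ℕ)
    (j : ℕ) : χ (p ^ j) = (χ p) ^ j := by
  induction j with
  | zero => rw [pow_zero, pow_zero, h1]
  | succ j ih => rw [pow_succ, hmul, ih, pow_succ]

theorem rr_prime_pow (χ : ℕ → ℝ) (hmul : ∀ m n, χ (m * n) = χ m * χ n) (h1 : χ 1 = 1) {p : ℕ}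
    (hp : p.Prime) (k : ℕ) : rr χ (p ^ k) = ∑ j ∈ range (k + 1), (χ p) ^ j := by
  unfold rr
  rw [Nat.sum_divisors_prime_pow hp]
  exact Finset.sum_congr rfl fun j _ => RA_pow χ hmul h1 p j

theorem rr_nonneg (χ : ℕ → ℝ) (hmul : ∀ m n, χ (m * n) = χ m * χ n) (h1 : χ 1 = 1)
    (hv : ∀ n, χ n = 0 ∨ χ n = 1 ∨ χ n = -1) (n : ℕ) : 0 ≤ rr χ n := by
  induction n using Nat.recOnPrimeCoprime with
  | zero => simp [rr]
  | prime_pow p k hp =>
    rw [rr_prime_pow χ hmul h1 hp]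
    rcases hv p with h | h | h
    · rw [h]
      exact Finset.sum_nonneg fun j _ => pow_nonneg le_rfl j
    · rw [h]
      exact Finset.sum_nonneg fun j _ => pow_nonneg zero_le_one j
    · rw [h, neg_one_geom_sum]
      split_ifs <;> norm_num
  | coprime a b _ _ hab iha ihb =>
    rw [rr_mul χ hmul hab]
    exact mul_nonneg iha ihb

theorem rr_sq (χ : ℕ → ℝ) (hmul : ∀ m n, χ (m * n) = χ m * χ n) (h1 : χ 1 = 1)
    (hv : ∀ n, χ n = 0 ∨ χ n = 1 ∨ χ n = -1) (m : ℕ) (hm : 0 < m) : 1 ≤ rr χ (m ^ 2) := by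
  induction m using Nat.recOnPrimeCoprime with
  | zero => exact absurd hm (lt_irrefl 0)
  | prime_pow p k hp =>
    rw [← pow_mul, rr_prime_pow χ hmul h1 hp]
    rcases hv p with h | h | h
    · rw [h, Finset.sum_range_succ']
      have : (0 : ℝ) ≤ ∑ j ∈ range (k * 2), (0 : ℝ) ^ (j + 1) :=
        Finset.sum_nonneg fun j _ => pow_nonneg le_rfl _
      rw [pow_zero]
      linarith
    · rw [h, Finset.sum_range_succ']
      have : (0 : ℝ) ≤ ∑ j ∈ range (k * 2), (1 : ℝ) ^ (j + 1) :=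
        Finset.sum_nonneg fun j _ => pow_nonneg zero_le_one _
      rw [pow_zero]
      linarith
    · rw [h, neg_one_geom_sum, if_neg]
      rw [Nat.not_even_iff_odd]
      exact ⟨k, by ring⟩
  | coprime a b ha hb hab iha ihb =>
    rw [mul_pow, rr_mul χ hmul (hab.pow 2 2)]
    have h2 := iha (lt_trans Nat.zero_lt_one ha)
    have h3 := ihb (lt_trans Nat.zero_lt_one hb)
    nlinarith

end Pool.Agent.Lib.MP_42948a_nt.OA
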