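import Pool.Agent.Lib.MP_42948a_nt.OA.RA

/-!
# Upper bound for the sum over rough numbers (job RH)

Let `n ∈ [1, X]` have no prime factor `≤ z`, so `Rough z n`. For a prime `p ∣ n`: `p` is rough and `≤ X`, so `χ p = -1` if `p ∤ d`
(`cardFactors p = 1`), and `χ p = 0` if `p ∣ d`. By `rr_mul`, `rr_prime_pow`: `rr χ n = ∏_{p^k ∥ n} (1 if p ∣ d; else 1 if k even, 0 if
k odd)`. So `rr χ n ∈ {0, 1}`, and `rr χ n = 1` implies that every prime with odd exponent in `n` divides `d`. Write `n = b^2 e` with `e`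
squarefree (`Nat.sq_mul_squarefree`): each prime `p ∣ e` has odd exponent in `n`, hence divides `d`, and so `e ∣ d`
(`Squarefree`: `Nat.squarefree...`, `UniqueFactorizationMonoid.dvd_of_squarefree_of_mem...` or `Finset.prod_primes_dvd` with
`Nat.prod_primeFactors_of_squarefree`). So the number of such `n` is at most `#{(e, b) : e ∣ d, 1 ≤ b ≤ Nat.sqrt X} ≤ τ(d) √X`
(injectivity: `n = b^2 e`), and each contributes `≤ 1`.
-/

namespace Pool.Agent.Lib.MP_42948a_nt.OA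

open Finset

theorem RH_alt (k : ℕ) :
    (Even k ∧ ∑ j ∈ range (k + 1), (-1 : ℝ) ^ j = 1) ∨ (Odd k ∧ ∑ j ∈ range (k + 1), (-1 : ℝ) ^ j = 0) := by
  induction k with
  | zero => left; simp
  | succ k ih =>
    rcases ih with ⟨h1, h2⟩ | ⟨h1, h2⟩
    · right
      refine ⟨h1.add_one, ?_⟩
      rw [sum_range_succ, h2, (h1.add_one).neg_one_pow]
      norm_num
    · left
      refine ⟨h1.add_one, ?_⟩
      rw [sum_range_succ, h2, (h1.add_one).neg_one_pow]
      norm_num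

theorem RH_shape (d : ℕ) (χ : ℕ → ℝ) (hmul : ∀ m n, χ (m * n) = χ m * χ n) (h1 : χ 1 = 1) (n : ℕ) :
    0 < n → (∀ p : ℕ, p.Prime → p ∣ n → (p ∣ d ∧ χ p = 0) ∨ χ p = -1) →
      rr χ n = 0 ∨ (rr χ n = 1 ∧ ∃ b e : ℕ, n = b ^ 2 * e ∧ e ∣ d) := by
  induction n using Nat.recOnPosPrimePosCoprime with
  | prime_pow p k hp hk =>
    intro _ hn
    rw [rr_prime_pow χ hmul h1 hp k]
    rcases hn p hp (dvd_pow_self p hk.ne') with ⟨hpd, h0⟩ | h0
    · right
      rw [h0]
      refine ⟨?_, ?_⟩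
      · rw [sum_range_succ']
        simp
      · rcases Nat.even_or_odd' k with ⟨m, rfl | rfl⟩
        · exact ⟨p ^ m, 1, by rw [mul_one, ← pow_mul, mul_comm m 2], one_dvd d⟩
        · exact ⟨p ^ m, p, by rw [← pow_mul, mul_comm m 2, pow_succ], hpd⟩
    · rw [h0]
      rcases RH_alt k with ⟨h2, h3⟩ | ⟨h2, h3⟩
      · right
        refine ⟨h3, ?_⟩
        obtain ⟨m, rfl⟩ := h2
        exact ⟨p ^ m, 1, by rw [mul_one, ← pow_mul, mul_two], one_dvd d⟩
      · left
        exact h3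
  | zero => intro h; exact absurd h (lt_irrefl 0)
  | one =>
    intro _ _
    right
    refine ⟨?_, 1, 1, by norm_num, one_dvd d⟩
    unfold rr
    rw [Nat.divisors_one, sum_singleton, h1]
  | coprime a b ha hb hab iha ihb =>
    intro _ hn
    have h2 := iha (by omega) (fun p hp hpa => hn p hp (hpa.mul_right b))
    have h3 := ihb (by omega) (fun p hp hpb => hn p hp (hpb.mul_left a))
    rw [rr_mul χ hmul hab]
    rcases h2 with h2 | ⟨h2, x, e, he, hed⟩
    · left; rw [h2, zero_mul]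
    rcases h3 with h3 | ⟨h3, y, f, hf, hfd⟩
    · left; rw [h3, mul_zero]
    · right
      refine ⟨by rw [h2, h3, one_mul], x * y, e * f, by rw [he, hf]; ring, ?_⟩
      apply Nat.Coprime.mul_dvd_of_dvd_of_dvd _ hed hfd
      exact Nat.Coprime.coprime_dvd_left ⟨x ^ 2, by rw [he]; ring⟩
        (Nat.Coprime.coprime_dvd_right ⟨y ^ 2, by rw [hf]; ring⟩ hab)

theorem rough_upper (d : ℕ) (hd : 0 < d) (z X : ℕ) (χ : ℕ → ℝ)
    (hmul : ∀ m n, χ (m * n) = χ m * χ n) (h1 : χ 1 = 1)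
    (hχ0 : ∀ n : ℕ, ¬ n.Coprime d → χ n = 0)
    (hχ : ∀ n : ℕ, Rough z n → n ≤ X → n.Coprime d → χ n = (-1) ^ (ArithmeticFunction.cardFactors n)) :
    ∑ n ∈ (Icc 1 X).filter (fun n => ∀ p ∈ PP z, ¬ p ∣ n), rr χ n * max 0 (1 - (n : ℝ) / X) ≤
      (d.divisors.card : ℝ) * √(X : ℝ) := by
  classical
  have hprime : ∀ n ∈ (Icc 1 X).filter (fun n => ∀ p ∈ PP z, ¬ p ∣ n),
      ∀ p : ℕ, p.Prime → p ∣ n → (p ∣ d ∧ χ p = 0) ∨ χ p = -1 := by
    intro n hn p hp hpn
    rw [mem_filter, mem_Icc] at hn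
    have hpz : z < p := by
      by_contra hle
      exact hn.2 p (by unfold PP; rw [mem_filter, mem_Icc]; exact ⟨⟨hp.one_lt.le, by omega⟩, hp⟩) hpn
    have hpX : p ≤ X := (Nat.le_of_dvd (by omega) hpn).trans hn.1.2
    by_cases hpd : p ∣ d
    · left
      exact ⟨hpd, hχ0 p (fun hc => (Nat.Prime.coprime_iff_not_dvd hp).1 hc hpd)⟩
    · right
      rw [hχ p ⟨hp.pos, fun q hq hqp => by
        rw [(Nat.prime_dvd_prime_iff_eq hq hp).1 hqp]; exact hpz⟩ hpX
        ((Nat.Prime.coprime_iff_not_dvd hp).2 hpd), ArithmeticFunction.cardFactors_apply_prime hp]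
      norm_num
  have hshape : ∀ n ∈ (Icc 1 X).filter (fun n => ∀ p ∈ PP z, ¬ p ∣ n),
      rr χ n = 0 ∨ (rr χ n = 1 ∧ ∃ b e : ℕ, n = b ^ 2 * e ∧ e ∣ d) := by
    intro n hn
    have hn' := hn
    rw [mem_filter, mem_Icc] at hn'
    exact RH_shape d χ hmul h1 n (by omega) (hprime n hn)
  set S := (Icc 1 X).filter (fun n => ∀ p ∈ PP z, ¬ p ∣ n) with hS
  have hle : ∑ n ∈ S, rr χ n * max 0 (1 - (n : ℝ) / X) ≤ ∑ n ∈ S, if rr χ n ≠ 0 then (1 : ℝ) else 0 := by
    apply sum_le_sum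
    intro n hn
    have h2 : max 0 (1 - (n : ℝ) / X) ≤ 1 := by
      apply max_le zero_le_one
      have : (0 : ℝ) ≤ (n : ℝ) / X := by positivity
      linarith
    rcases hshape n hn with h3 | ⟨h3, -⟩
    · rw [h3, zero_mul]
      simp
    · rw [h3, one_mul, if_pos one_ne_zero]
      exact h2
  refine hle.trans ?_
  rw [← sum_filter, sum_const, nsmul_eq_mul, mul_one]
  have hsub : S.filter (fun n => rr χ n ≠ 0) ⊆
      (d.divisors ×ˢ Icc 1 (Nat.sqrt X)).image (fun q : ℕ × ℕ => q.2 ^ 2 * q.1) := by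
    intro n hn
    rw [mem_filter] at hn
    have hn1 := hn.1
    rw [hS, mem_filter, mem_Icc] at hn1
    rcases hshape n hn.1 with h3 | ⟨-, b, e, he, hed⟩
    · exact absurd h3 hn.2
    · have hb : 0 < b := by
        rcases Nat.eq_zero_or_pos b with rfl | h
        · rw [he] at hn1
          simp at hn1
        · exact h
      have he0 : 0 < e := Nat.pos_of_dvd_of_pos hed hd
      rw [mem_image]
      refine ⟨(e, b), ?_, he.symm⟩
      rw [mem_product, Nat.mem_divisors, mem_Icc]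
      refine ⟨⟨hed, hd.ne'⟩, hb, ?_⟩
      simp only
      rw [Nat.le_sqrt']
      calc b ^ 2 ≤ b ^ 2 * e := Nat.le_mul_of_pos_right _ he0
        _ = n := he.symm
        _ ≤ X := hn1.1.2
  have hcard : (S.filter (fun n => rr χ n ≠ 0)).card ≤ d.divisors.card * Nat.sqrt X := by
    refine (card_le_card hsub).trans (card_image_le.trans ?_)
    rw [card_product, Nat.card_Icc]
    exact le_of_eq (by simp)
  calc ((S.filter (fun n => rr χ n ≠ 0)).card : ℝ) ≤ ((d.divisors.card * Nat.sqrt X : ℕ) : ℝ) := by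
        exact_mod_cast hcard
    _ = (d.divisors.card : ℝ) * (Nat.sqrt X : ℝ) := by push_cast; ring
    _ ≤ (d.divisors.card : ℝ) * √(X : ℝ) :=
        mul_le_mul_of_nonneg_left Real.nat_sqrt_le_real_sqrt (Nat.cast_nonneg _)

end Pool.Agent.Lib.MP_42948a_nt.OA
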