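import Pool.Agent.Lib.MP_42948a_nt.OA.RB

/-!
# Divisibility conditions (job RF)

`SwT_step`: for a prime `p ∉ T` (`T` a set of primes), `0 < t ≤ N`:
`SwT χ N (insert p T) t = (1 + χ p) SwT χ N T (t/p) - χ p SwT χ N T (t/p^2)`.
Write `n = p m`; `q ∣ p m ↔ q ∣ m` for `q ∈ T` (`q ≠ p` primes). The sum over `m ∈ Icc 1 (N/p)` may be extended to `m ∈ Icc 1 N`: the
additional terms have `p m > N ≥ t`, so `max 0 (1 - pm/t) = 0`. Use `rr_hecke`; in the second part `m = p m'` and `T ∣ m ↔ T ∣ m'`,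
and `1 - p m/t = 1 - m'/(t/p^2)`; again extend to `m' ∈ Icc 1 N`.
`SwT_bound`: induction on `T` (`Finset.induction_on`), all `t` at once. `gg χ p = (1 + χ p)/p - χ p/p^2`, so the error for `insert p T` is
at most `|1 + χ p| 3^|T| E + |χ p| 3^|T| E ≤ 3 * 3^|T| E` (`t/p, t/p^2 ∈ (0, N]`).
-/

namespace Pool.Agent.Lib.MP_42948a_nt.OA

open Finset

private lemma RF_shift (f : ℕ → ℝ) (N : ℕ) (T : Finset ℕ)
    (hT : ∀ q ∈ T, q.Prime) {p : ℕ} (hp : p.Prime) (hpT : p ∉ T) (t : ℝ) (ht : 0 < t) (htN : t ≤ N) :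
    ∑ n ∈ (Icc 1 N).filter (fun n => ∀ q ∈ insert p T, q ∣ n), f n * max 0 (1 - n / t) =
      ∑ m ∈ (Icc 1 N).filter (fun m => ∀ q ∈ T, q ∣ m), f (p * m) * max 0 (1 - m / (t / p)) := by
  have hp0 : (0 : ℝ) < p := by exact_mod_cast hp.pos
  have key : ∀ m : ℕ, (1 : ℝ) - m / (t / p) = 1 - ((p * m : ℕ) : ℝ) / t := by
    intro m
    push_cast
    field_simp
  have h1 : ∑ m ∈ (Icc 1 N).filter (fun m => p * m ≤ N ∧ ∀ q ∈ T, q ∣ m), f (p * m) * max 0 (1 - m / (t / p)) =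
      ∑ m ∈ (Icc 1 N).filter (fun m => ∀ q ∈ T, q ∣ m), f (p * m) * max 0 (1 - m / (t / p)) := by
    apply Finset.sum_subset
    · intro m hm
      rw [Finset.mem_filter] at hm ⊢
      exact ⟨hm.1, hm.2.2⟩
    · intro m hm hm'
      rw [Finset.mem_filter] at hm hm'
      have h2 : ¬ p * m ≤ N := fun h => hm' ⟨hm.1, h, hm.2⟩
      have h3 : (N : ℝ) ≤ ((p * m : ℕ) : ℝ) := by
        exact_mod_cast (not_le.1 h2).le
      rw [key]
      have h4 : 1 ≤ ((p * m : ℕ) : ℝ) / t := by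
        rw [le_div_iff₀ ht]
        linarith
      rw [max_eq_left (by linarith), mul_zero]
  rw [← h1]
  symm
  refine Finset.sum_nbij' (fun m => p * m) (fun n => n / p) ?_ ?_ ?_ ?_ ?_
  · intro m hm
    rw [Finset.mem_filter, Finset.mem_Icc] at hm ⊢
    refine ⟨⟨?_, hm.2.1⟩, ?_⟩
    · exact Nat.mul_pos hp.pos hm.1.1
    · intro q hq
      rcases Finset.mem_insert.1 hq with rfl | hq
      · exact Dvd.intro _ rfl
      · exact (hm.2.2 q hq).mul_left p
  · intro n hn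
    rw [Finset.mem_filter, Finset.mem_Icc] at hn ⊢
    have hpn : p ∣ n := hn.2 p (Finset.mem_insert_self _ _)
    have hn2 : p * (n / p) = n := Nat.mul_div_cancel' hpn
    refine ⟨⟨?_, (Nat.div_le_self _ _).trans hn.1.2⟩, ?_, ?_⟩
    · exact Nat.div_pos (Nat.le_of_dvd hn.1.1 hpn) hp.pos
    · rw [hn2]
      exact hn.1.2
    · intro q hq
      have h2 : q ∣ p * (n / p) := by
        rw [hn2]
        exact hn.2 q (Finset.mem_insert_of_mem hq)
      rcases ((hT q hq).dvd_mul).1 h2 with h3 | h3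
      · have h4 : q = p := (Nat.prime_dvd_prime_iff_eq (hT q hq) hp).1 h3
        exact absurd (h4 ▸ hq) hpT
      · exact h3
  · intro m _
    exact Nat.mul_div_cancel_left m hp.pos
  · intro n hn
    rw [Finset.mem_filter] at hn
    exact Nat.mul_div_cancel' (hn.2 p (Finset.mem_insert_self _ _))
  · intro m _
    rw [key]

theorem SwT_step (χ : ℕ → ℝ) (hmul : ∀ m n, χ (m * n) = χ m * χ n) (N : ℕ) (T : Finset ℕ)
    (hT : ∀ q ∈ T, q.Prime) {p : ℕ} (hp : p.Prime) (hpT : p ∉ T) (t : ℝ) (ht : 0 < t) (htN : t ≤ N) :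
    SwT χ N (insert p T) t = (1 + χ p) * SwT χ N T (t / p) - χ p * SwT χ N T (t / (p : ℝ) ^ 2) := by
  have hp0 : (0 : ℝ) < p := by exact_mod_cast hp.pos
  have hp1 : (1 : ℝ) ≤ p := by exact_mod_cast hp.pos
  have htp : t / p ≤ N := (div_le_self ht.le hp1).trans htN
  have htp0 : 0 < t / p := by positivity
  have h1 := RF_shift (rr χ) N T hT hp hpT t ht htN
  have h2 := RF_shift (fun n => rr χ (n / p)) N T hT hp hpT (t / p) htp0 htp
  have h3 : ∑ n ∈ (Icc 1 N).filter (fun n => ∀ q ∈ insert p T, q ∣ n), rr χ (n / p) * max 0 (1 - n / (t / p)) =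
      ∑ m ∈ (Icc 1 N).filter (fun m => ∀ q ∈ T, q ∣ m),
        (if p ∣ m then rr χ (m / p) else 0) * max 0 (1 - m / (t / p)) := by
    rw [Finset.sum_filter, Finset.sum_filter]
    apply Finset.sum_congr rfl
    intro m _
    by_cases hpm : p ∣ m
    · rw [if_pos hpm]
      congr 1
      rw [eq_iff_iff]
      constructor
      · intro h q hq
        exact h q (Finset.mem_insert_of_mem hq)
      · intro h q hq
        rcases Finset.mem_insert.1 hq with rfl | hq
        · exact hpm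
        · exact h q hq
    · rw [if_neg hpm, zero_mul, ite_self]
      rw [if_neg]
      intro h
      exact hpm (h p (Finset.mem_insert_self _ _))
  have h4 : ∑ m ∈ (Icc 1 N).filter (fun m => ∀ q ∈ T, q ∣ m),
      rr χ (p * m / p) * max 0 (1 - m / (t / p / p)) = SwT χ N T (t / (p : ℝ) ^ 2) := by
    unfold SwT
    apply Finset.sum_congr rfl
    intro m _
    rw [Nat.mul_div_cancel_left m hp.pos, div_div, ← pow_two]
  have h5 : SwT χ N (insert p T) t = ∑ m ∈ (Icc 1 N).filter (fun m => ∀ q ∈ T, q ∣ m),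
      rr χ (p * m) * max 0 (1 - m / (t / p)) := h1
  rw [h5, ← h4, ← h2, h3]
  unfold SwT
  rw [Finset.mul_sum, Finset.mul_sum, ← Finset.sum_sub_distrib]
  apply Finset.sum_congr rfl
  intro m hm
  have hm1 : 0 < m := (Finset.mem_Icc.1 (Finset.mem_filter.1 hm).1).1
  rw [rr_hecke χ hmul hp m hm1]
  ring

theorem SwT_bound (χ : ℕ → ℝ) (hmul : ∀ m n, χ (m * n) = χ m * χ n)
    (hv : ∀ n, χ n = 0 ∨ χ n = 1 ∨ χ n = -1) (N : ℕ) (E : ℝ)
    (hbase : ∀ t : ℝ, 0 < t → t ≤ N → |SwT χ N ∅ t - t / 2 * LL χ N| ≤ E)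
    (T : Finset ℕ) (hT : ∀ q ∈ T, q.Prime) (t : ℝ) (ht : 0 < t) (htN : t ≤ N) :
    |SwT χ N T t - t / 2 * LL χ N * ∏ p ∈ T, gg χ p| ≤ 3 ^ T.card * E := by
  induction T using Finset.induction_on generalizing t with
  | empty =>
    rw [Finset.prod_empty, mul_one, Finset.card_empty, pow_zero, one_mul]
    exact hbase t ht htN
  | insert p T hpT ih =>
    have hp : p.Prime := hT p (Finset.mem_insert_self _ _)
    have hT' : ∀ q ∈ T, q.Prime := fun q hq => hT q (Finset.mem_insert_of_mem hq)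
    have hp0 : (0 : ℝ) < p := by exact_mod_cast hp.pos
    have hp1 : (1 : ℝ) ≤ p := by exact_mod_cast hp.pos
    have hp2 : (1 : ℝ) ≤ (p : ℝ) ^ 2 := one_le_pow₀ hp1
    have i1 := ih hT' (t / p) (by positivity) ((div_le_self ht.le hp1).trans htN)
    have i2 := ih hT' (t / (p : ℝ) ^ 2) (by positivity) ((div_le_self ht.le hp2).trans htN)
    rw [SwT_step χ hmul N T hT' hp hpT t ht htN, Finset.prod_insert hpT, Finset.card_insert_of_notMem hpT]
    set P : ℝ := ∏ q ∈ T, gg χ q with hP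
    have e1 : (1 + χ p) * SwT χ N T (t / p) - χ p * SwT χ N T (t / (p : ℝ) ^ 2) -
        t / 2 * LL χ N * (gg χ p * P) =
        (1 + χ p) * (SwT χ N T (t / p) - t / p / 2 * LL χ N * P) -
          χ p * (SwT χ N T (t / (p : ℝ) ^ 2) - t / (p : ℝ) ^ 2 / 2 * LL χ N * P) := by
      unfold gg
      field_simp
      ring
    rw [e1]
    have h0 : 0 ≤ 3 ^ T.card * E := (abs_nonneg _).trans i1
    have h1 : |1 + χ p| + |χ p| ≤ 3 := by
      rcases hv p with h | h | h
      · rw [h]; norm_num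
      · rw [h]; norm_num
      · rw [h]; norm_num
    calc |(1 + χ p) * (SwT χ N T (t / p) - t / p / 2 * LL χ N * P) -
          χ p * (SwT χ N T (t / (p : ℝ) ^ 2) - t / (p : ℝ) ^ 2 / 2 * LL χ N * P)|
        ≤ |(1 + χ p) * (SwT χ N T (t / p) - t / p / 2 * LL χ N * P)| +
          |χ p * (SwT χ N T (t / (p : ℝ) ^ 2) - t / (p : ℝ) ^ 2 / 2 * LL χ N * P)| := abs_sub _ _
      _ ≤ |1 + χ p| * (3 ^ T.card * E) + |χ p| * (3 ^ T.card * E) := by
          rw [abs_mul, abs_mul]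
          exact add_le_add (mul_le_mul_of_nonneg_left i1 (abs_nonneg _))
            (mul_le_mul_of_nonneg_left i2 (abs_nonneg _))
      _ = (|1 + χ p| + |χ p|) * (3 ^ T.card * E) := by ring
      _ ≤ 3 * (3 ^ T.card * E) := mul_le_mul_of_nonneg_right h1 h0
      _ = 3 ^ (T.card + 1) * E := by rw [pow_succ]; ring

end Pool.Agent.Lib.MP_42948a_nt.OA
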