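import Pool.Agent.Lib.MP_42948a_nt.OA.RA

/-!
# Lower bound for the truncated `L`-value (job RG)

Put `t = (12 E)^2 ≤ N`. All terms of `SwT χ N ∅ t` are `≥ 0` (`rr_nonneg`); the terms `n = m^2`, `1 ≤ m ≤ ⌊6 E⌋₊` (distinct, `≤ 36 E^2 ≤ N`) are
`≥ 1 - m^2/t ≥ 3/4` (`rr_sq`), so `SwT ≥ (3/4) ⌊6E⌋₊ ≥ (3/4) (6E - 1) ≥ (15/4) E`. By `hbase`, `t/2 * LL ≥ (15/4) E - E = (11/4) E`, so
`LL ≥ (11/2) E / (144 E^2) ≥ 1/(64 E)`.
-/

namespace Pool.Agent.Lib.MP_42948a_nt.OA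

open Finset

theorem LL_lower (χ : ℕ → ℝ) (hmul : ∀ m n, χ (m * n) = χ m * χ n) (h1 : χ 1 = 1)
    (hv : ∀ n, χ n = 0 ∨ χ n = 1 ∨ χ n = -1) (N : ℕ) (E : ℝ) (hE : 1 ≤ E) (hN : (12 * E) ^ 2 ≤ N)
    (hbase : ∀ t : ℝ, 0 < t → t ≤ N → |SwT χ N ∅ t - t / 2 * LL χ N| ≤ E) :
    1 / (64 * E) ≤ LL χ N := by
  have ht0 : (0 : ℝ) < (12 * E) ^ 2 := by positivity
  have hb := (abs_le.1 (hbase _ ht0 hN)).2
  set t : ℝ := (12 * E) ^ 2 with ht
  set F := ⌊6 * E⌋₊ with hF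
  have hF1 : (F : ℝ) ≤ 6 * E := Nat.floor_le (by positivity)
  have hF2 : 6 * E < (F : ℝ) + 1 := Nat.lt_floor_add_one _
  have hsq : ∀ m ∈ Icc 1 F, (m : ℝ) ^ 2 ≤ t / 4 := by
    intro m hm
    have h2 : (m : ℝ) ≤ 6 * E := le_trans (by exact_mod_cast (mem_Icc.1 hm).2) hF1
    have h3 : (m : ℝ) ^ 2 ≤ (6 * E) ^ 2 := pow_le_pow_left₀ (Nat.cast_nonneg _) h2 2
    rw [ht]
    nlinarith
  have hsum : (3 / 4 : ℝ) * F ≤ SwT χ N ∅ t := by
    unfold SwT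
    have hsub : (Icc 1 F).image (fun m => m ^ 2) ⊆
        (Icc 1 N).filter (fun n => ∀ p ∈ (∅ : Finset ℕ), p ∣ n) := by
      intro n hn
      obtain ⟨m, hm, rfl⟩ := mem_image.1 hn
      rw [mem_filter, mem_Icc]
      refine ⟨⟨Nat.one_le_pow _ _ (mem_Icc.1 hm).1, ?_⟩, by simp⟩
      have h2 := hsq m hm
      have h3 : ((m ^ 2 : ℕ) : ℝ) ≤ N := by
        push_cast
        linarith
      exact_mod_cast h3
    refine le_trans ?_ (sum_le_sum_of_subset_of_nonneg hsub fun n hn _ => ?_)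
    · rw [sum_image (by
        intro x _ y _ hxy
        exact Nat.pow_left_injective (by norm_num : (2 : ℕ) ≠ 0) hxy)]
      have h4 : ∀ m ∈ Icc 1 F, (3 / 4 : ℝ) ≤ rr χ (m ^ 2) * max 0 (1 - ((m ^ 2 : ℕ) : ℝ) / t) := by
        intro m hm
        have h5 : (1 : ℝ) ≤ rr χ (m ^ 2) := rr_sq χ hmul h1 hv m (mem_Icc.1 hm).1
        have h6 : (3 / 4 : ℝ) ≤ max 0 (1 - ((m ^ 2 : ℕ) : ℝ) / t) := by
          refine le_max_of_le_right ?_
          have h7 : ((m ^ 2 : ℕ) : ℝ) / t ≤ 1 / 4 := by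
            rw [div_le_iff₀ ht0]
            push_cast
            have := hsq m hm
            linarith
          linarith
        calc (3 / 4 : ℝ) = 1 * (3 / 4) := by ring
          _ ≤ _ := mul_le_mul h5 h6 (by norm_num) (by linarith)
      have h8 := sum_le_sum h4
      rw [sum_const, Nat.card_Icc, Nat.add_sub_cancel, nsmul_eq_mul] at h8
      linarith
    · exact mul_nonneg (rr_nonneg χ hmul h1 hv n) (le_max_left _ _)
  have h9 : (11 / 4 : ℝ) * E ≤ t / 2 * LL χ N := by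
    nlinarith
  have hE0 : 0 < E := by linarith
  rw [div_le_iff₀ (by positivity)]
  have h10 : (11 / 4 : ℝ) * E ≤ 72 * E ^ 2 * LL χ N := by
    rw [ht] at h9
    nlinarith
  have h11 : (11 / 4 : ℝ) ≤ 72 * E * LL χ N := by
    by_contra hcon
    push Not at hcon
    have := mul_lt_mul_of_pos_right hcon hE0
    nlinarith
  linarith
  
end Pool.Agent.Lib.MP_42948a_nt.OA
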