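import Pool.Agent.Lib.MP_42948a_nt.OA.RE
import Pool.Agent.Lib.MP_42948a_nt.OA.RF
import Pool.Agent.Lib.MP_42948a_nt.OA.RG
import Pool.Agent.Lib.MP_42948a_nt.OA.RH

/-!
# A real character cannot imitate the Liouville function on rough numbers (job RI)

`hbase` of `SwT_bound`, `LL_lower` holds with this `E` by `Sw_bound` and `hE`. So `LL χ X ≥ 1/(64 E) > 0` (`LL_lower`). Apply `hK z hz` with
`A = Icc 1 X`, `w n = rr χ n * max 0 (1 - n/X) ≥ 0`, `g = gg χ`, main term `(X/2) * LL χ X`, `R = z^(2K) * E`: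
density conditions: `χ p ∈ {0, 1, -1}`: `gg χ p = 1/p`, `(2 - 1/p)/p`, `1/p^2`: all in `[0, 3/4]` and `≤ 2/p` for `p ≥ 2`; for `T ⊆ PP z` with
`∏ T ≤ z^K`: `SwT_bound` at `t = X` gives the error `3^|T| E ≤ (∏ T)^2 E ≤ z^(2K) E` (`3 ≤ p^2`). So
`∑_{rough} w ≥ (X/2) LL / (4 z^2) - z^(3K) E ≥ X/(512 z^2 E) - z^(3K) E`, contradicting `rough_upper` and `hfin`.
-/

namespace Pool.Agent.Lib.MP_42948a_nt.OA

open Finset

theorem RI_gg (χ : ℕ → ℝ) (hv : ∀ n, χ n = 0 ∨ χ n = 1 ∨ χ n = -1) {p : ℕ} (hp : p.Prime) :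
    0 ≤ gg χ p ∧ gg χ p ≤ 3 / 4 ∧ gg χ p ≤ 2 / p := by
  have h2 : (2 : ℝ) ≤ p := by exact_mod_cast hp.two_le
  have h0 : (0 : ℝ) < p := by linarith
  unfold gg
  rcases hv p with h | h | h
  · rw [h]
    refine ⟨by simp, ?_, ?_⟩
    · rw [div_le_iff₀ h0]
      simp only [zero_div, sub_zero, add_zero]
      linarith
    · apply div_le_div_of_nonneg_right _ h0.le
      simp
  · rw [h]
    have h3 : (1 : ℝ) / p ≤ 1 := by
      rw [div_le_one h0]; linarith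
    have h4 : 0 < (1 : ℝ) / p := by positivity
    refine ⟨div_nonneg (by linarith) h0.le, ?_, ?_⟩
    · rw [div_le_iff₀ h0]
      have h5 : (1 : ℝ) / p * p = 1 := by field_simp
      have h6 : (1 + 1 - 1 / (p : ℝ)) * p ≤ 3 / 4 * p * p := by nlinarith
      have h7 : 1 + 1 - 1 / (p : ℝ) ≤ 3 / 4 * p := le_of_mul_le_mul_right h6 h0
      exact h7
    · apply div_le_div_of_nonneg_right _ h0.le
      linarith
  · rw [h]
    have h3 : (1 : ℝ) / p ≤ 1 / 2 := one_div_le_one_div_of_le (by norm_num) h2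
    have h4 : 0 < (1 : ℝ) / p := by positivity
    have e : 1 + -1 - -1 / (p : ℝ) = 1 / p := by ring
    rw [e]
    refine ⟨by positivity, ?_, ?_⟩
    · rw [div_le_iff₀ h0]
      linarith
    · apply div_le_div_of_nonneg_right _ h0.le
      linarith

theorem RI_pow {z : ℕ} (T : Finset ℕ) (hT : T ⊆ PP z) : (3 : ℝ) ^ T.card ≤ ((∏ p ∈ T, p : ℕ) : ℝ) ^ 2 := by
  rw [Nat.cast_prod, ← prod_pow, ← prod_const]
  apply prod_le_prod
  · intro p _
    norm_num
  · intro p hp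
    have h1 := hT hp
    unfold PP at h1
    rw [mem_filter] at h1
    have h2 : (2 : ℝ) ≤ p := by exact_mod_cast h1.2.two_le
    nlinarith

theorem no_imitation (K : ℕ) (hK : SieveProp K) (z d X : ℕ) (hz : 2 ≤ z) (hd : 0 < d) (hX : 1 ≤ X)
    (χ : ℕ → ℝ) (hmul : ∀ m n, χ (m * n) = χ m * χ n) (h1 : χ 1 = 1)
    (hv : ∀ n, χ n = 0 ∨ χ n = 1 ∨ χ n = -1)
    (hχ0 : ∀ n : ℕ, ¬ n.Coprime d → χ n = 0)
    (hχ : ∀ n : ℕ, Rough z n → n ≤ X → n.Coprime d → χ n = (-1) ^ (ArithmeticFunction.cardFactors n))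
    (M E : ℝ) (hM : ∀ N : ℕ, |∑ n ∈ Icc 1 N, χ n| ≤ M) (hE : M * (2 + Real.log X) ≤ E) (hE1 : 1 ≤ E)
    (hEX : (12 * E) ^ 2 ≤ X)
    (hfin : (d.divisors.card : ℝ) * √(X : ℝ) + (z : ℝ) ^ (3 * K) * E < X / (512 * (z : ℝ) ^ 2 * E)) :
    False := by
  have hbase : ∀ t : ℝ, 0 < t → t ≤ X → |SwT χ X ∅ t - t / 2 * LL χ X| ≤ E := by
    intro t ht htN
    exact (Sw_bound χ M hM X hX t ht htN).trans hE
  have hLL := LL_lower χ hmul h1 hv X E hE1 hEX hbase
  have hE0 : 0 < E := by linarith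
  have hX0 : (0 : ℝ) < X := by exact_mod_cast hX
  have hz0 : (0 : ℝ) < z := by
    have : 0 < z := by omega
    exact_mod_cast this
  have hLL0 : 0 < LL χ X := lt_of_lt_of_le (by positivity) hLL
  have hs := hK z hz (Icc 1 X) (fun n => rr χ n * max 0 (1 - (n : ℝ) / X)) (gg χ)
    ((X : ℝ) / 2 * LL χ X) ((z : ℝ) ^ (2 * K) * E)
    (fun n _ => mul_nonneg (rr_nonneg χ hmul h1 hv n) (le_max_left _ _))
    (fun p hp => by
      unfold PP at hp
      rw [mem_filter] at hp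
      exact RI_gg χ hv hp.2)
    (by positivity) (by positivity)
    (fun T hT hprod => by
      have hTp : ∀ q ∈ T, q.Prime := by
        intro q hq
        have := hT hq
        unfold PP at this
        rw [mem_filter] at this
        exact this.2
      have h2 := SwT_bound χ hmul hv X E hbase T hTp X hX0 le_rfl
      unfold SwT at h2
      refine h2.trans ?_
      apply mul_le_mul_of_nonneg_right _ hE0.le
      refine (RI_pow T hT).trans ?_
      rw [mul_comm 2 K, pow_mul]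
      apply pow_le_pow_left₀ (Nat.cast_nonneg _)
      exact_mod_cast hprod)
  have hup := rough_upper d hd z X χ hmul h1 hχ0 hχ
  have h3 : (X : ℝ) / (512 * (z : ℝ) ^ 2 * E) ≤ (X : ℝ) / 2 * LL χ X / (4 * (z : ℝ) ^ 2) := by
    have h4 : (X : ℝ) / 2 * (1 / (64 * E)) / (4 * (z : ℝ) ^ 2) ≤
        (X : ℝ) / 2 * LL χ X / (4 * (z : ℝ) ^ 2) := by
      apply div_le_div_of_nonneg_right _ (by positivity)
      apply mul_le_mul_of_nonneg_left hLL (by positivity)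
    have h5 : (X : ℝ) / 2 * (1 / (64 * E)) / (4 * (z : ℝ) ^ 2) = (X : ℝ) / (512 * (z : ℝ) ^ 2 * E) := by
      field_simp
      ring
    linarith
  have h6 : (z : ℝ) ^ K * ((z : ℝ) ^ (2 * K) * E) = (z : ℝ) ^ (3 * K) * E := by
    rw [← mul_assoc, ← pow_add]
    congr 2
    ring
  linarith

end Pool.Agent.Lib.MP_42948a_nt.OA
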