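import Pool.Agent.Lib.MP_42948a_nt.OA.DV

/-!
# Size of the error term (job ZA)

`divisor_bound` with exponent `κ/2`: `τ(d) ≤ C d^(κ/2)`; for large `d`, `C d^(κ/2) (1 + log d) ≤ d^κ`
(`isLittleO_log_rpow_atTop`), and `√d * d^κ = d^(1/2 + κ)`.
-/

namespace Pool.Agent.Lib.MP_42948a_nt.OA

open Finset

theorem BB_le (κ : ℝ) (hκ : 0 < κ) :
    ∃ d0 : ℕ, ∀ d : ℕ, d0 ≤ d → BB d ≤ (d : ℝ) ^ (1 / 2 + κ) ∧ (d.divisors.card : ℝ) ≤ (d : ℝ) ^ κ := by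
  obtain ⟨C, hC1, hC⟩ := divisor_bound (κ / 2) (by positivity)
  have hC0 : 0 < C := by linarith
  have h1 : ∀ᶠ x : ℝ in Filter.atTop, ‖Real.log x‖ ≤ 1 / (2 * C) * ‖x ^ (κ / 2)‖ :=
    (isLittleO_log_rpow_atTop (by positivity : 0 < κ / 2)).bound (by positivity)
  have h2 : ∀ᶠ x : ℝ in Filter.atTop, 2 * C ≤ x ^ (κ / 2) :=
    (tendsto_rpow_atTop (by positivity : 0 < κ / 2)).eventually_ge_atTop _
  have h3 : ∀ᶠ d : ℕ in Filter.atTop, 1 ≤ d ∧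
      ‖Real.log (d : ℝ)‖ ≤ 1 / (2 * C) * ‖(d : ℝ) ^ (κ / 2)‖ ∧ 2 * C ≤ (d : ℝ) ^ (κ / 2) := by
    have := tendsto_natCast_atTop_atTop (R := ℝ)
    filter_upwards [Filter.eventually_ge_atTop 1, this.eventually h1, this.eventually h2] with d a b c
    exact ⟨a, b, c⟩
  obtain ⟨d0, hd0⟩ := Filter.eventually_atTop.mp h3
  refine ⟨d0, fun d hd => ?_⟩
  obtain ⟨hd1, hl, hr⟩ := hd0 d hd
  have hdpos : (0:ℝ) < d := by exact_mod_cast hd1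
  have hp : 0 < (d : ℝ) ^ (κ / 2) := Real.rpow_pos_of_pos hdpos _
  rw [Real.norm_eq_abs, Real.norm_eq_abs, abs_of_pos hp] at hl
  have hlog : Real.log d ≤ 1 / (2 * C) * (d : ℝ) ^ (κ / 2) := (le_abs_self _).trans hl
  have htau := hC d hd1
  have hsq : (d : ℝ) ^ κ = (d : ℝ) ^ (κ / 2) * (d : ℝ) ^ (κ / 2) := by
    rw [← Real.rpow_add hdpos]; congr 1; ring
  have hkey : C * (1 + Real.log d) ≤ (d : ℝ) ^ (κ / 2) := by
    have h4 : C * Real.log d ≤ 1/2 * (d : ℝ) ^ (κ / 2) := by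
      calc C * Real.log d ≤ C * (1 / (2 * C) * (d : ℝ) ^ (κ / 2)) := by gcongr
        _ = 1/2 * (d : ℝ) ^ (κ / 2) := by field_simp
    linarith
  have hlog0 : 0 ≤ Real.log d := Real.log_natCast_nonneg d
  have hsd : 0 ≤ √(d : ℝ) := Real.sqrt_nonneg _
  constructor
  · unfold BB
    rw [Real.rpow_add hdpos, ← Real.sqrt_eq_rpow, hsq]
    calc √(d : ℝ) * (d.divisors.card : ℝ) * (1 + Real.log d)
        ≤ √(d : ℝ) * (C * (d : ℝ) ^ (κ / 2)) * (1 + Real.log d) := by gcongr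
      _ = √(d : ℝ) * ((d : ℝ) ^ (κ / 2) * (C * (1 + Real.log d))) := by ring
      _ ≤ √(d : ℝ) * ((d : ℝ) ^ (κ / 2) * (d : ℝ) ^ (κ / 2)) := by gcongr
  · rw [hsq]
    calc (d.divisors.card : ℝ) ≤ C * (d : ℝ) ^ (κ / 2) := htau
      _ ≤ (d : ℝ) ^ (κ / 2) * (d : ℝ) ^ (κ / 2) := by gcongr; linarith

end Pool.Agent.Lib.MP_42948a_nt.OA
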