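import Pool.Agent.Lib.MP_42948a_nt.OA.ZA

/-!
# Numerical inequalities, part C (job ZC)

Here `c = η/(16(3K+4)) > 0`, `z = ⌊d^c⌋₊ ≤ d^c`, so `z^(K+2) ≤ d^(c(K+2)) ≤ d^(η/16)`, `z^K ≤ d^(η/16)`, `z^2 ≤ d^(2c) ≤ d^(η/32)`.
`num_E1`: `2 ≤ z` as `d^c → ∞`; `4 d z^(K+2) ≤ 4 d^(1+η/16) < d^(1+η) - 1 < ⌊d^(1+η)⌋₊` for large `d`.
`num_E2`: by `BB_le (η/8)`: left side `≤ d^(η/16) * 2 d^(1/2+η/8)`; right side `≥ (d^(1/2+η)/2) d^(1-η/8) / (4 d d^(η/32)) =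
d^(1/2 + 7η/8 - η/32)/8`; the exponent on the left is `1/2 + 3η/16`, smaller by `21η/32`.
-/

namespace Pool.Agent.Lib.MP_42948a_nt.OA

open Finset

private theorem ZC_pow (x c : ℝ) (hx : 1 ≤ x) (n : ℕ) (e : ℝ) (h : c * n ≤ e) :
    ((⌊x ^ c⌋₊ : ℕ) : ℝ) ^ n ≤ x ^ e := by
  have hx0 : (0 : ℝ) ≤ x := by linarith
  calc ((⌊x ^ c⌋₊ : ℕ) : ℝ) ^ n ≤ (x ^ c) ^ n :=
        pow_le_pow_left₀ (Nat.cast_nonneg _) (Nat.floor_le (Real.rpow_nonneg hx0 c)) n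
    _ = x ^ (c * n) := by rw [← Real.rpow_natCast, ← Real.rpow_mul hx0]
    _ ≤ x ^ e := Real.rpow_le_rpow_of_exponent_le hx h

private theorem ZC_half (x : ℝ) (hx : 2 ≤ x) : x / 2 ≤ ((⌊x⌋₊ : ℕ) : ℝ) := by
  have := Nat.sub_one_lt_floor x
  linarith

theorem num_E1 (K : ℕ) (η c : ℝ) (hη : 0 < η) (hc : c * (16 * (3 * K + 4)) = η) :
    ∃ d0 : ℕ, ∀ d : ℕ, d0 ≤ d → 2 ≤ ⌊(d : ℝ) ^ c⌋₊ ∧
      4 * (d : ℝ) * (⌊(d : ℝ) ^ c⌋₊ : ℝ) ^ (K + 2) < (⌊(d : ℝ) ^ (1 + η)⌋₊ : ℝ) := by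
  have hK0 : (0:ℝ) ≤ K := Nat.cast_nonneg K
  have hden : (0:ℝ) < 16 * (3 * K + 4) := by positivity
  have hc0 : 0 < c := by
    by_contra hcon
    push Not at hcon
    have : c * (16 * (3 * K + 4)) ≤ 0 := mul_nonpos_of_nonpos_of_nonneg hcon hden.le
    linarith
  have hcK : c * ((K + 2 : ℕ) : ℝ) ≤ η / 16 := by
    push_cast
    nlinarith [mul_nonneg hc0.le hK0]
  have h1 : ∀ᶠ x : ℝ in Filter.atTop, 2 ≤ x ^ c :=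
    (tendsto_rpow_atTop hc0).eventually_ge_atTop _
  have h2 : ∀ᶠ x : ℝ in Filter.atTop, 16 < x ^ (15 * η / 16) :=
    (tendsto_rpow_atTop (by positivity : 0 < 15 * η / 16)).eventually_gt_atTop _
  have hT := tendsto_natCast_atTop_atTop (R := ℝ)
  have h5 : ∀ᶠ d : ℕ in Filter.atTop, 2 ≤ d ∧ 2 ≤ (d:ℝ) ^ c ∧ 16 < (d:ℝ) ^ (15 * η / 16) := by
    filter_upwards [Filter.eventually_ge_atTop 2, hT.eventually h1, hT.eventually h2] with d a b c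
    exact ⟨a, b, c⟩
  obtain ⟨d0, hd0⟩ := Filter.eventually_atTop.mp h5
  refine ⟨d0, fun d hd => ?_⟩
  obtain ⟨hd2, hdc, h16⟩ := hd0 d hd
  have hx2 : (2:ℝ) ≤ (d:ℝ) := by exact_mod_cast hd2
  have hx1 : (1:ℝ) ≤ (d:ℝ) := by linarith
  have hx0 : (0:ℝ) < (d:ℝ) := by linarith
  refine ⟨Nat.le_floor (by exact_mod_cast hdc), ?_⟩
  have e1 := ZC_pow (d:ℝ) c hx1 (K + 2) (η / 16) hcK
  have e2 : (d:ℝ) ^ (1 + η) = (d:ℝ) * (d:ℝ) ^ (η / 16) * (d:ℝ) ^ (15 * η / 16) := by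
    rw [mul_assoc, ← Real.rpow_add hx0, ← Real.rpow_one_add' hx0.le (by positivity)]
    congr 1; ring
  have hpos : 1 ≤ (d:ℝ) ^ (η / 16) := Real.one_le_rpow hx1 (by positivity)
  have e3 : (2:ℝ) ≤ (d:ℝ) ^ (1 + η) := by
    have : (d:ℝ) ^ (1:ℝ) ≤ (d:ℝ) ^ (1 + η) := Real.rpow_le_rpow_of_exponent_le hx1 (by linarith)
    rw [Real.rpow_one] at this
    linarith
  have e4 := ZC_half _ e3
  have e5 : 4 * (d : ℝ) * (⌊(d : ℝ) ^ c⌋₊ : ℝ) ^ (K + 2) ≤ 4 * (d:ℝ) * (d:ℝ) ^ (η / 16) := by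
    gcongr
  have e6 : 4 * (d:ℝ) * (d:ℝ) ^ (η / 16) < (d:ℝ) ^ (1 + η) / 2 := by
    rw [e2]
    have : 0 < (d:ℝ) * (d:ℝ) ^ (η / 16) := by positivity
    nlinarith
  linarith

theorem num_E2 (K : ℕ) (η c : ℝ) (hη : 0 < η) (hc : c * (16 * (3 * K + 4)) = η) :
    ∃ d0 : ℕ, ∀ d : ℕ, d0 ≤ d → ∀ h : ℝ, (d : ℝ) ^ (1 - η / 8) ≤ h →
      (⌊(d : ℝ) ^ c⌋₊ : ℝ) ^ K * (1 + BB d) <
        (⌊(d : ℝ) ^ (1 / 2 + η)⌋₊ : ℝ) * h / (4 * d * (⌊(d : ℝ) ^ c⌋₊ : ℝ) ^ 2) := by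
  have hK0 : (0:ℝ) ≤ K := Nat.cast_nonneg K
  have hden : (0:ℝ) < 16 * (3 * K + 4) := by positivity
  have hc0 : 0 < c := by
    by_contra hcon
    push Not at hcon
    have : c * (16 * (3 * K + 4)) ≤ 0 := mul_nonpos_of_nonpos_of_nonneg hcon hden.le
    linarith
  have hcK : c * ((K : ℕ) : ℝ) ≤ η / 16 := by
    nlinarith [mul_nonneg hc0.le hK0]
  have hc2 : c * ((2 : ℕ) : ℝ) ≤ η / 32 := by
    push_cast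
    nlinarith [mul_nonneg hc0.le hK0]
  obtain ⟨d1, hd1⟩ := BB_le (η / 8) (by positivity)
  have h1 : ∀ᶠ x : ℝ in Filter.atTop, 1 ≤ x ^ c :=
    (tendsto_rpow_atTop hc0).eventually_ge_atTop _
  have h2 : ∀ᶠ x : ℝ in Filter.atTop, 16 < x ^ (21 * η / 32) :=
    (tendsto_rpow_atTop (by positivity : 0 < 21 * η / 32)).eventually_gt_atTop _
  have h3 : ∀ᶠ x : ℝ in Filter.atTop, 2 ≤ x ^ (1 / 2 + η) :=
    (tendsto_rpow_atTop (by positivity : 0 < 1 / 2 + η)).eventually_ge_atTop _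
  have hT := tendsto_natCast_atTop_atTop (R := ℝ)
  have h5 : ∀ᶠ d : ℕ in Filter.atTop, d1 ≤ d ∧ 2 ≤ d ∧ 1 ≤ (d:ℝ) ^ c ∧ 16 < (d:ℝ) ^ (21 * η / 32) ∧
      2 ≤ (d:ℝ) ^ (1 / 2 + η) := by
    filter_upwards [Filter.eventually_ge_atTop d1, Filter.eventually_ge_atTop 2, hT.eventually h1,
      hT.eventually h2, hT.eventually h3] with d a b c e f
    exact ⟨a, b, c, e, f⟩
  obtain ⟨d0, hd0⟩ := Filter.eventually_atTop.mp h5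
  refine ⟨d0, fun d hd h hh => ?_⟩
  obtain ⟨hdd1, hd2, hdc, h16, hX2⟩ := hd0 d hd
  obtain ⟨hBB, _⟩ := hd1 d hdd1
  have hx2 : (2:ℝ) ≤ (d:ℝ) := by exact_mod_cast hd2
  have hx1 : (1:ℝ) ≤ (d:ℝ) := by linarith
  have hx0 : (0:ℝ) < (d:ℝ) := by linarith
  have hz1 : (1:ℝ) ≤ (⌊(d : ℝ) ^ c⌋₊ : ℝ) := by
    have : 1 ≤ ⌊(d : ℝ) ^ c⌋₊ := Nat.le_floor (by exact_mod_cast hdc)
    exact_mod_cast this
  have e1 := ZC_pow (d:ℝ) c hx1 K (η / 16) hcK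
  have e2 := ZC_pow (d:ℝ) c hx1 2 (η / 32) hc2
  have e3 := ZC_half _ hX2
  have hB1 : 1 ≤ (d:ℝ) ^ (1 / 2 + η / 8) := Real.one_le_rpow hx1 (by positivity)
  have hBn : 0 ≤ BB d := by
    unfold BB
    have : 0 ≤ Real.log (d:ℝ) := Real.log_nonneg hx1
    positivity
  have l1 : (⌊(d : ℝ) ^ c⌋₊ : ℝ) ^ K * (1 + BB d) ≤
      (d:ℝ) ^ (η / 16) * (2 * (d:ℝ) ^ (1 / 2 + η / 8)) := by
    apply mul_le_mul e1 _ (by linarith) (Real.rpow_nonneg hx0.le _)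
    linarith
  rw [lt_div_iff₀ (by positivity)]
  have l2 : (⌊(d : ℝ) ^ c⌋₊ : ℝ) ^ K * (1 + BB d) * (4 * d * (⌊(d : ℝ) ^ c⌋₊ : ℝ) ^ 2) ≤
      (d:ℝ) ^ (η / 16) * (2 * (d:ℝ) ^ (1 / 2 + η / 8)) * (4 * d * (d:ℝ) ^ (η / 32)) := by
    apply mul_le_mul l1 _ (by positivity) (by positivity)
    gcongr
  have l3 : (d:ℝ) ^ (1 / 2 + η) / 2 * (d : ℝ) ^ (1 - η / 8) ≤ (⌊(d : ℝ) ^ (1 / 2 + η)⌋₊ : ℝ) * h := by
    apply mul_le_mul e3 hh (Real.rpow_nonneg hx0.le _) (Nat.cast_nonneg _)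
  have l4 : (d:ℝ) ^ (η / 16) * (2 * (d:ℝ) ^ (1 / 2 + η / 8)) * (4 * d * (d:ℝ) ^ (η / 32)) =
      8 * (d:ℝ) ^ (3 / 2 + 7 * η / 32) := by
    have : (d:ℝ) ^ (3 / 2 + 7 * η / 32) = (d:ℝ) ^ (η / 16) * (d:ℝ) ^ (1 / 2 + η / 8) * ((d:ℝ) ^ (1:ℝ) *
        (d:ℝ) ^ (η / 32)) := by
      rw [← Real.rpow_add hx0, ← Real.rpow_add hx0, ← Real.rpow_add hx0]
      congr 1; ring
    rw [this, Real.rpow_one]; ring
  have l5 : (d:ℝ) ^ (1 / 2 + η) / 2 * (d : ℝ) ^ (1 - η / 8) =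
      (d:ℝ) ^ (3 / 2 + 7 * η / 32) * (d:ℝ) ^ (21 * η / 32) / 2 := by
    rw [div_mul_eq_mul_div, ← Real.rpow_add hx0, ← Real.rpow_add hx0]
    congr 2; ring
  have l6 : 0 < (d:ℝ) ^ (3 / 2 + 7 * η / 32) := by positivity
  rw [l4] at l2
  rw [l5] at l3
  nlinarith

end Pool.Agent.Lib.MP_42948a_nt.OA
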