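import Pool.Agent.Lib.MP_42948a_nt.OA.EA

/-!
# Every class contains a small rough number (job EH)

Apply `hK z hz A w g X R` with `A = (Icc 1 N).filter (fun n => (n : ZMod d) = c)`, `w = 1`, `g p = if p ∣ d then 0 else 1/p`,
`X = N/d`, `R = 1`. Density conditions: clear (`p ≥ 2`). For `T ⊆ PP z`: if some `p ∈ T` divides `d`, then `∏_T g = 0` and no `n ∈ A` is
divisible by `p` (`n` is a unit mod `d`, so coprime to `d`: `ZMod.isUnit_iff_coprime`), so the sum is `0`. Otherwise use `count_class`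
(the filter of `A` is `cls N T {c}` up to decidability; `∏_T g = 1/∏_T p`). So the number of `n ∈ A` without prime factor `≤ z` is at
least `(N/d)/(4 z^2) - z^K > 0` by `hN`. Such an `n` is `Rough z n` (a prime factor `p ≤ z` would be in `PP z`).
-/

namespace Pool.Agent.Lib.MP_42948a_nt.OA

open Finset

private theorem EH_cls {d N n : ℕ} {T : Finset ℕ} {Q : Set (ZMod d)} :
    n ∈ cls N T Q ↔ n ∈ Icc 1 N ∧ (∀ p ∈ T, p ∣ n) ∧ (n : ZMod d) ∈ Q := by
  classical
  unfold cls
  rw [mem_filter]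

theorem exists_rough_class (K : ℕ) (hK : SieveProp K) (z d N : ℕ) (hz : 2 ≤ z) (hd : 0 < d)
    (hN : 4 * (d : ℝ) * (z : ℝ) ^ (K + 2) < N) (c : (ZMod d)ˣ) :
    ∃ n : ℕ, Rough z n ∧ n ≤ N ∧ (n : ZMod d) = (c : ZMod d) := by
  classical
  obtain ⟨A, hA⟩ : ∃ A : Finset ℕ, A = (Icc 1 N).filter (fun n : ℕ => (n : ZMod d) = (c : ZMod d)) :=
    ⟨_, rfl⟩
  obtain ⟨g, hg⟩ : ∃ g : ℕ → ℝ, g = fun p => if p ∣ d then 0 else 1 / (p : ℝ) := ⟨_, rfl⟩
  have hd' : (0 : ℝ) < d := by exact_mod_cast hd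
  have hz' : (0 : ℝ) < z := by
    have : 0 < z := by omega
    exact_mod_cast this
  have hg1 : ∀ p ∈ PP z, 0 ≤ g p ∧ g p ≤ 3 / 4 ∧ g p ≤ 2 / p := by
    intro p hp
    unfold PP at hp
    rw [mem_filter, mem_Icc] at hp
    have hp2 : (2 : ℝ) ≤ p := by exact_mod_cast hp.2.two_le
    rw [hg]
    dsimp only
    by_cases hpd : p ∣ d
    · rw [if_pos hpd]
      exact ⟨le_rfl, by norm_num, by positivity⟩
    · rw [if_neg hpd]
      refine ⟨by positivity, ?_, ?_⟩
      · rw [div_le_div_iff₀ (by linarith) (by norm_num)]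
        linarith
      · apply div_le_div_of_nonneg_right (by norm_num) (by linarith)
  have hg2 : ∀ T ⊆ PP z, ∏ p ∈ T, p ≤ z ^ K →
      |∑ n ∈ A.filter (fun n => ∀ p ∈ T, p ∣ n), (fun _ : ℕ => (1 : ℝ)) n - ((N : ℝ) / d) * ∏ p ∈ T, g p| ≤ 1 := by
    intro T hT _
    have hTp : ∀ p ∈ T, p.Prime := by
      intro p hp
      have := hT hp
      unfold PP at this
      rw [mem_filter] at this
      exact this.2
    by_cases hex : ∃ p ∈ T, p ∣ d
    · obtain ⟨p, hp, hpd⟩ := hex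
      have h1 : A.filter (fun n => ∀ p ∈ T, p ∣ n) = ∅ := by
        rw [Finset.eq_empty_iff_forall_notMem]
        intro n hn
        rw [mem_filter, hA, mem_filter] at hn
        have hpn := hn.2 p hp
        have hu : IsUnit (n : ZMod d) := by
          rw [hn.1.2]
          exact c.isUnit
        have hco := (ZMod.isUnit_iff_coprime n d).1 hu
        have := Nat.dvd_gcd hpn hpd
        rw [hco] at this
        exact (hTp p hp).one_lt.ne' (Nat.dvd_one.1 this)
      have h2 : ∏ p ∈ T, g p = 0 := by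
        apply Finset.prod_eq_zero hp
        rw [hg]
        dsimp only
        rw [if_pos hpd]
      rw [h1, h2, Finset.sum_empty, mul_zero, sub_zero, abs_zero]
      exact zero_le_one
    · have hno : ∀ p ∈ T, ¬ p ∣ d := fun p hp h => hex ⟨p, hp, h⟩
      have hc := count_class d hd c T hTp hno N
      have h1 : A.filter (fun n => ∀ p ∈ T, p ∣ n) = cls N T {(c : ZMod d)} := by
        ext n
        rw [EH_cls, hA, mem_filter, mem_filter, Set.mem_singleton_iff]
        tauto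
      have h2 : ∏ p ∈ T, g p = 1 / ∏ p ∈ T, (p : ℝ) := by
        rw [one_div, ← Finset.prod_inv_distrib]
        apply Finset.prod_congr rfl
        intro p hp
        rw [hg]
        dsimp only
        rw [if_neg (hno p hp), one_div]
      rw [h1, h2, Finset.sum_const, nsmul_eq_mul, mul_one]
      have h3 : (N : ℝ) / d * (1 / ∏ p ∈ T, (p : ℝ)) = N / (d * ∏ p ∈ T, (p : ℝ)) := by
        rw [div_mul_div_comm, mul_one]
      rw [h3]
      exact hc
  have h := hK z hz A (fun _ => 1) g ((N : ℝ) / d) 1 (fun _ _ => zero_le_one) hg1 (by positivity)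
    zero_le_one hg2
  have hpos : 0 < (N : ℝ) / d / (4 * (z : ℝ) ^ 2) - (z : ℝ) ^ K * 1 := by
    rw [mul_one, sub_pos, div_div, lt_div_iff₀ (by positivity)]
    have : (z : ℝ) ^ K * (d * (4 * (z : ℝ) ^ 2)) = 4 * (d : ℝ) * (z : ℝ) ^ (K + 2) := by ring
    rw [this]
    exact hN
  have hne : (A.filter (fun n => ∀ p ∈ PP z, ¬ p ∣ n)).Nonempty := by
    by_contra hcon
    rw [Finset.not_nonempty_iff_eq_empty] at hcon
    rw [hcon, Finset.sum_empty] at h
    linarith
  obtain ⟨n, hn⟩ := hne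
  rw [mem_filter, hA, mem_filter, mem_Icc] at hn
  refine ⟨n, ⟨by omega, ?_⟩, hn.1.1.2, hn.1.2⟩
  intro p hp hpn
  by_contra hle
  apply hn.2 p _ hpn
  unfold PP
  rw [mem_filter, mem_Icc]
  exact ⟨⟨hp.one_lt.le, by omega⟩, hp⟩

end Pool.Agent.Lib.MP_42948a_nt.OA
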