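import Pool.Agent.Lib.MP_42948a_nt.OA.Defs

/-!
# Numerical inequalities, part B (job ZB)

All by `Nat.floor_le`, `Nat.le_floor`, `Nat.floor_le_floor` and `Real.rpow_add`, `Real.rpow_le_rpow_of_exponent_le` (`1 ≤ d`).
-/

namespace Pool.Agent.Lib.MP_42948a_nt.OA

open Finset

private theorem ZB_mul (d : ℕ) (hd : 1 ≤ d) (a b c : ℝ) (h : a + b ≤ c) :
    ⌊(d : ℝ) ^ a⌋₊ * ⌊(d : ℝ) ^ b⌋₊ ≤ ⌊(d : ℝ) ^ c⌋₊ := by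
  have hd1 : (1 : ℝ) ≤ d := by exact_mod_cast hd
  have hd0 : (0 : ℝ) < d := by linarith
  refine Nat.le_floor ?_
  rw [Nat.cast_mul]
  have h1 : ((⌊(d : ℝ) ^ a⌋₊ : ℕ) : ℝ) ≤ (d : ℝ) ^ a := Nat.floor_le (Real.rpow_nonneg hd0.le _)
  have h2 : ((⌊(d : ℝ) ^ b⌋₊ : ℕ) : ℝ) ≤ (d : ℝ) ^ b := Nat.floor_le (Real.rpow_nonneg hd0.le _)
  calc ((⌊(d : ℝ) ^ a⌋₊ : ℕ) : ℝ) * ((⌊(d : ℝ) ^ b⌋₊ : ℕ) : ℝ) ≤ (d : ℝ) ^ a * (d : ℝ) ^ b :=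
        mul_le_mul h1 h2 (Nat.cast_nonneg _) (Real.rpow_nonneg hd0.le _)
    _ = (d : ℝ) ^ (a + b) := (Real.rpow_add hd0 a b).symm
    _ ≤ (d : ℝ) ^ c := Real.rpow_le_rpow_of_exponent_le hd1 h

theorem num_basic (η : ℝ) (hη : 0 < η) (k : ℕ) (hk : 1 ≤ k) (hkη : 1 / (k : ℝ) ≤ η) (d : ℕ) (hd : 1 ≤ d) :
    ⌊(d : ℝ) ^ (1 + η)⌋₊ ≤ ⌊(d : ℝ) ^ (1 + 2 * η)⌋₊ ∧
    ⌊(d : ℝ) ^ (1 + η)⌋₊ * ⌊(d : ℝ) ^ (1 / (k : ℝ))⌋₊ ≤ ⌊(d : ℝ) ^ (1 + 2 * η)⌋₊ ∧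
    ⌊(d : ℝ) ^ (1 / 2 + η)⌋₊ * ⌊(d : ℝ) ^ (1 / 2 + η)⌋₊ ≤ ⌊(d : ℝ) ^ (1 + 2 * η)⌋₊ ∧
    ⌊(d : ℝ) ^ (1 + 2 * η)⌋₊ * ⌊(d : ℝ) ^ (1 + η)⌋₊ ≤ ⌊(d : ℝ) ^ (2 + 3 * η)⌋₊ ∧
    ⌊(d : ℝ) ^ (1 / (k : ℝ))⌋₊ ^ k ≤ d := by
  have hd1 : (1 : ℝ) ≤ d := by exact_mod_cast hd
  have hd0 : (0 : ℝ) < d := by linarith
  have hk0 : (k : ℝ) ≠ 0 := by
    have : (1 : ℝ) ≤ k := by exact_mod_cast hk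
    linarith
  refine ⟨?_, ZB_mul d hd _ _ _ (by linarith), ZB_mul d hd _ _ _ (by linarith), ZB_mul d hd _ _ _ (by linarith), ?_⟩
  · exact Nat.floor_le_floor (Real.rpow_le_rpow_of_exponent_le hd1 (by linarith))
  · have h1 : ((⌊(d : ℝ) ^ (1 / (k : ℝ))⌋₊ : ℕ) : ℝ) ≤ (d : ℝ) ^ (1 / (k : ℝ)) :=
      Nat.floor_le (Real.rpow_nonneg hd0.le _)
    have h2 : ((⌊(d : ℝ) ^ (1 / (k : ℝ))⌋₊ : ℕ) : ℝ) ^ k ≤ ((d : ℝ) ^ (1 / (k : ℝ))) ^ k :=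
      pow_le_pow_left₀ (Nat.cast_nonneg _) h1 k
    have h3 : ((d : ℝ) ^ (1 / (k : ℝ))) ^ k = d := by
      rw [← Real.rpow_natCast, ← Real.rpow_mul hd0.le, one_div_mul_cancel hk0, Real.rpow_one]
    rw [h3] at h2
    exact_mod_cast h2

end Pool.Agent.Lib.MP_42948a_nt.OA
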