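import Pool.Agent.Lib.MP_42948a_nt.OA.Defs

/-!
# The smoothed counting function (job RD)

`W_eq`: let `y = t/a`. `0 < a`, `t ≤ N`, so `⌊y⌋ ≤ N / a` and the terms with `b > y` vanish: the sum is `∑_{b=1}^{n} (1 - b/y)` with
`n = ⌊y⌋₊`, which is `n - n (n+1)/(2y)`; with `y = n + θ` this is `y/2 - 1/2 + θ (1 - θ)/(2y)`. If `a > t` all terms vanish (`W_zero`).
`fract_lip`: `q(u) = fract u (1 - fract u)` satisfies `|q u - q v| ≤ |u - v|`: WLOG `v ≤ u`. Same floor: `|q u - q v| =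
|u - v| |1 - θ - θ'| ≤ |u - v|`. Different floors: `u - v ≥ (1 - fract v) + fract u`, and `0 ≤ q u ≤ fract u`, `0 ≤ q v ≤ 1 - fract v`.
`hh_abs`: `q ≤ 1/4`. `hh_var`: `hh t (a+1) - hh t a = q(t/(a+1))/(2t) + (a/(2t)) (q(t/(a+1)) - q(t/a))`, so
`|..| ≤ 1/(8t) + (a/(2t)) * t/(a(a+1)) = 1/(8t) + 1/(2(a+1))`.
-/

namespace Pool.Agent.Lib.MP_42948a_nt.OA

open Finset

/-- the lower order part of the smoothed count -/
noncomputable def hh (t : ℝ) (a : ℕ) : ℝ := Int.fract (t / a) * (1 - Int.fract (t / a)) * a / (2 * t)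

private theorem RD_sum (n : ℕ) (y : ℝ) :
    ∑ b ∈ Icc 1 n, (1 - (b : ℝ) / y) = n - n * (n + 1) / (2 * y) := by
  induction n with
  | zero => simp
  | succ n ih =>
    rw [Finset.sum_Icc_succ_top (by omega), ih]
    push_cast
    by_cases hy : y = 0
    · subst hy; simp
    · field_simp; ring

private theorem RD_term (a b : ℕ) (t : ℝ) (ha : 1 ≤ a) :
    1 - ((a * b : ℕ) : ℝ) / t = 1 - (b : ℝ) / (t / a) := by
  have ha0 : (a : ℝ) ≠ 0 := by
    have : a ≠ 0 := by omega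
    exact_mod_cast this
  push_cast
  rw [div_div_eq_mul_div, mul_comm]

theorem W_eq (N a : ℕ) (t : ℝ) (ha : 1 ≤ a) (hat : (a : ℝ) ≤ t) (htN : t ≤ N) :
    ∑ b ∈ Icc 1 (N / a), max 0 (1 - ((a * b : ℕ) : ℝ) / t) = t / (2 * a) - 1 / 2 + hh t a := by
  have ha1 : (1 : ℝ) ≤ a := by exact_mod_cast ha
  have ha0 : (0 : ℝ) < a := by linarith
  have ht0 : 0 < t := by linarith
  set y : ℝ := t / a with hy
  have hy1 : 1 ≤ y := by rw [hy, le_div_iff₀ ha0]; linarith
  have hy0 : 0 < y := by linarith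
  set n : ℕ := ⌊y⌋₊ with hn
  have hnN : n ≤ N / a := by
    rw [Nat.le_div_iff_mul_le (by omega)]
    have h1 : (n : ℝ) ≤ y := Nat.floor_le hy0.le
    have h2 : (n : ℝ) * a ≤ t := by
      rw [hy, le_div_iff₀ ha0] at h1
      exact h1
    have h3 : (n : ℝ) * a ≤ N := h2.trans htN
    exact_mod_cast h3
  have hsub : Icc 1 n ⊆ Icc 1 (N / a) := Finset.Icc_subset_Icc le_rfl hnN
  have e1 : ∑ b ∈ Icc 1 (N / a), max 0 (1 - ((a * b : ℕ) : ℝ) / t) =
      ∑ b ∈ Icc 1 n, max 0 (1 - ((a * b : ℕ) : ℝ) / t) := by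
    symm
    apply Finset.sum_subset hsub
    intro b hb hb'
    rw [Finset.mem_Icc] at hb hb'
    have hbn : n < b := by
      by_contra hcon
      exact hb' ⟨hb.1, by omega⟩
    rw [RD_term a b t ha, ← hy]
    apply max_eq_left
    have h1 : y < b := (Nat.floor_lt hy0.le).1 hbn
    have h2 : 1 < (b : ℝ) / y := by rw [lt_div_iff₀ hy0]; linarith
    linarith
  have e2 : ∑ b ∈ Icc 1 n, max 0 (1 - ((a * b : ℕ) : ℝ) / t) = ∑ b ∈ Icc 1 n, (1 - (b : ℝ) / y) := by
    apply Finset.sum_congr rfl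
    intro b hb
    rw [Finset.mem_Icc] at hb
    rw [RD_term a b t ha, ← hy]
    apply max_eq_right
    have h1 : (b : ℝ) ≤ y := (Nat.le_floor_iff hy0.le).1 hb.2
    have h2 : (b : ℝ) / y ≤ 1 := by rw [div_le_one hy0]; exact h1
    linarith
  rw [e1, e2, RD_sum]
  have h3 : Int.fract y = y - n := by
    rw [hn, natCast_floor_eq_intCast_floor hy0.le]
    exact (Int.self_sub_floor y).symm
  unfold hh
  rw [← hy, h3]
  have h4 : t = y * a := by rw [hy, div_mul_cancel₀ _ ha0.ne']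
  rw [h4]
  field_simp
  ring

theorem W_zero (N a : ℕ) (t : ℝ) (ht : 0 < t) (hat : t < a) :
    ∑ b ∈ Icc 1 (N / a), max 0 (1 - ((a * b : ℕ) : ℝ) / t) = 0 := by
  apply Finset.sum_eq_zero
  intro b hb
  rw [Finset.mem_Icc] at hb
  apply max_eq_left
  have h1 : (a : ℝ) ≤ ((a * b : ℕ) : ℝ) := by
    have : a ≤ a * b := Nat.le_mul_of_pos_right a hb.1
    exact_mod_cast this
  have h2 : 1 ≤ ((a * b : ℕ) : ℝ) / t := by
    rw [le_div_iff₀ ht]; linarith
  linarith

private theorem RD_lip (u v : ℝ) (huv : v ≤ u) :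
    |Int.fract u * (1 - Int.fract u) - Int.fract v * (1 - Int.fract v)| ≤ u - v := by
  have hu0 := Int.fract_nonneg u
  have hu1 := (Int.fract_lt_one u).le
  have hv0 := Int.fract_nonneg v
  have hv1 := (Int.fract_lt_one v).le
  have hu := Int.floor_add_fract u
  have hv := Int.floor_add_fract v
  have hfl : ⌊v⌋ ≤ ⌊u⌋ := Int.floor_le_floor huv
  generalize Int.fract u = p at *
  generalize Int.fract v = q at *
  rcases hfl.eq_or_lt with h | h
  · have hd : u - v = p - q := by rw [← hu, ← hv, h]; ring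
    rw [hd]
    have hpq : q ≤ p := by linarith
    rw [abs_le]
    constructor <;> nlinarith
  · have h1 : (⌊v⌋ : ℝ) + 1 ≤ (⌊u⌋ : ℝ) := by exact_mod_cast h
    have hd : (1 - q) + p ≤ u - v := by linarith
    rw [abs_le]
    constructor <;> nlinarith

theorem fract_lip (u v : ℝ) :
    |Int.fract u * (1 - Int.fract u) - Int.fract v * (1 - Int.fract v)| ≤ |u - v| := by
  rcases le_total v u with h | h
  · rw [abs_of_nonneg (by linarith : 0 ≤ u - v)]
    exact RD_lip u v h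
  · rw [abs_sub_comm, abs_sub_comm u v, abs_of_nonneg (by linarith : 0 ≤ v - u)]
    exact RD_lip v u h

private theorem RD_quarter (u : ℝ) :
    0 ≤ Int.fract u * (1 - Int.fract u) ∧ Int.fract u * (1 - Int.fract u) ≤ 1 / 4 := by
  have hu0 := Int.fract_nonneg u
  have hu1 := (Int.fract_lt_one u).le
  generalize Int.fract u = p at *
  constructor
  · nlinarith
  · nlinarith [sq_nonneg (p - 1 / 2)]

theorem hh_abs (t : ℝ) (ht : 0 < t) (a : ℕ) : |hh t a| ≤ a / (8 * t) := by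
  obtain ⟨h0, h1⟩ := RD_quarter (t / a)
  have ha : (0 : ℝ) ≤ a := Nat.cast_nonneg a
  unfold hh
  rw [abs_of_nonneg (by positivity), div_le_div_iff₀ (by positivity) (by positivity)]
  have : Int.fract (t / a) * (1 - Int.fract (t / a)) * a ≤ 1 / 4 * a := by gcongr
  nlinarith

theorem hh_var (t : ℝ) (ht : 0 < t) (a : ℕ) (ha : 1 ≤ a) :
    |hh t (a + 1) - hh t a| ≤ 1 / (8 * t) + 1 / (2 * ((a : ℝ) + 1)) := by
  have ha1 : (1 : ℝ) ≤ a := by exact_mod_cast ha
  have ha0 : (0 : ℝ) < a := by linarith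
  obtain ⟨h0, h1⟩ := RD_quarter (t / ((a + 1 : ℕ) : ℝ))
  have hl := fract_lip (t / ((a + 1 : ℕ) : ℝ)) (t / a)
  unfold hh
  generalize Int.fract (t / ((a + 1 : ℕ) : ℝ)) * (1 - Int.fract (t / ((a + 1 : ℕ) : ℝ))) = p at *
  generalize Int.fract (t / (a : ℝ)) * (1 - Int.fract (t / (a : ℝ))) = q at *
  have e1 : |t / ((a + 1 : ℕ) : ℝ) - t / a| = t / (a * (a + 1)) := by
    have : t / ((a + 1 : ℕ) : ℝ) - t / a = -(t / (a * (a + 1))) := by
      push_cast
      field_simp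
      ring
    rw [this, abs_neg, abs_of_nonneg (by positivity)]
  rw [e1] at hl
  have e2 : p * ((a + 1 : ℕ) : ℝ) / (2 * t) - q * a / (2 * t) = p / (2 * t) + a / (2 * t) * (p - q) := by
    push_cast
    field_simp
    ring
  rw [e2]
  have e3 : |p / (2 * t)| ≤ 1 / (8 * t) := by
    rw [abs_of_nonneg (by positivity), div_le_div_iff₀ (by positivity) (by positivity)]
    nlinarith
  have e4 : |a / (2 * t) * (p - q)| ≤ 1 / (2 * ((a : ℝ) + 1)) := by
    rw [abs_mul, abs_of_nonneg (by positivity : 0 ≤ (a : ℝ) / (2 * t))]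
    calc (a : ℝ) / (2 * t) * |p - q| ≤ a / (2 * t) * (t / (a * (a + 1))) := by gcongr
      _ = 1 / (2 * ((a : ℝ) + 1)) := by field_simp
  exact (abs_add_le _ _).trans (add_le_add e3 e4)

end Pool.Agent.Lib.MP_42948a_nt.OA
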