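import Pool.Agent.Lib.MP_42948a_nt.OA.RC
import Pool.Agent.Lib.MP_42948a_nt.OA.RD

/-!
# Asymptotics of the smoothed sum of `rr χ` (job RE)

`SwT χ N ∅ t = ∑_{n ≤ N} ∑_{a ∣ n} χ a max 0 (1 - n/t) = ∑_{a ∈ Icc 1 N} χ a ∑_{b ∈ Icc 1 (N/a)} max 0 (1 - ab/t)` (pairs `n = a b`:
`Nat.divisorsAntidiagonal`, or `Finset.sum_sigma'` with the bijection `(n, a) ↦ (a, n/a)`). With `n0 = ⌊t⌋₊ ≤ N`: by `W_eq`, `W_zero` it equals
`∑_{a ∈ Icc 1 n0} χ a (t/(2a) - 1/2 + hh t a)`. So `SwT - t/2 * LL χ N = -(t/2) ∑_{n0 < a ≤ N} χ a / a - (1/2) ∑_{a ≤ n0} χ a +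
∑_{a ≤ n0} χ a hh t a`. First: `≤ (t/2) * 2M/(n0+1) ≤ M` (`abel_tail`, `t < n0 + 1`). Second `≤ M/2`. Third (if `n0 ≥ 1`; else it is `0`):
`abel_one` with `|hh t n0| ≤ n0/(8t) ≤ 1/8` and `∑_{a ∈ Ico 1 n0} (1/(8t) + 1/(2(a+1))) ≤ 1/8 + (1/2) log n0` (`hh_abs`, `hh_var`;
`∑_{a=1}^{n-1} 1/(a+1) ≤ log n`), so `≤ M (1/4 + (1/2) log N)`. Total `≤ M (7/4 + (1/2) log N) ≤ M (2 + log N)`. `M ≥ 0` from `hM 0`.
-/

namespace Pool.Agent.Lib.MP_42948a_nt.OA

open Finset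

theorem RE_Icc (n : ℕ) : Icc 1 n = Ioc 0 n := by
  ext x; simp only [mem_Icc, mem_Ioc]; omega

/-- interchange of the summations -/
theorem RE_swap (χ : ℕ → ℝ) (N : ℕ) (W : ℕ → ℝ) :
    ∑ n ∈ Icc 1 N, rr χ n * W n = ∑ a ∈ Icc 1 N, χ a * ∑ b ∈ Icc 1 (N / a), W (a * b) := by
  classical
  have h1 : ∑ n ∈ Icc 1 N, rr χ n * W n = ∑ n ∈ Icc 1 N, ∑ a ∈ n.divisors, χ a * W n := by
    apply sum_congr rfl
    intro n _
    unfold rr
    rw [sum_mul]
  have h2 : ∑ n ∈ Icc 1 N, ∑ a ∈ n.divisors, χ a * W n =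
      ∑ a ∈ Icc 1 N, ∑ n ∈ (Icc 1 N).filter (fun n => a ∣ n), χ a * W n := by
    apply sum_comm'
    intro n a
    simp only [mem_Icc, Nat.mem_divisors, mem_filter]
    constructor
    · rintro ⟨⟨h1, h2⟩, h3, h4⟩
      exact ⟨⟨⟨h1, h2⟩, h3⟩, Nat.pos_of_dvd_of_pos h3 h1, (Nat.le_of_dvd h1 h3).trans h2⟩
    · rintro ⟨⟨⟨h1, h2⟩, h3⟩, h4, h5⟩
      exact ⟨⟨h1, h2⟩, h3, by omega⟩
  rw [h1, h2]
  apply sum_congr rfl
  intro a ha
  rw [mem_Icc] at ha
  rw [mul_sum]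
  symm
  apply sum_bij (fun b _ => a * b)
  · intro b hb
    rw [mem_Icc] at hb
    rw [mem_filter, mem_Icc]
    refine ⟨⟨Nat.mul_pos ha.1 hb.1, ?_⟩, Dvd.intro _ rfl⟩
    have := hb.2
    rw [Nat.le_div_iff_mul_le ha.1] at this
    rw [mul_comm]; exact this
  · intro b _ b' _ h
    exact Nat.eq_of_mul_eq_mul_left ha.1 h
  · intro n hn
    rw [mem_filter, mem_Icc] at hn
    obtain ⟨⟨hn1, hn2⟩, b, rfl⟩ := hn
    refine ⟨b, ?_, rfl⟩
    rw [mem_Icc]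
    constructor
    · rcases Nat.eq_zero_or_pos b with h | h
      · subst h; simp at hn1
      · exact h
    · rw [Nat.le_div_iff_mul_le ha.1, mul_comm]; exact hn2
  · intro b _
    rfl

/-- harmonic sum bound -/
theorem RE_harm (n : ℕ) (hn : 1 ≤ n) : ∑ a ∈ Ico 1 n, 1 / ((a : ℝ) + 1) ≤ Real.log n := by
  induction n, hn using Nat.le_induction with
  | base => simp
  | succ n hn ih =>
    rw [sum_Ico_succ_top hn]
    have hn0 : (0 : ℝ) < n := by exact_mod_cast hn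
    have h1 : 1 - (((n : ℝ) + 1) / n)⁻¹ ≤ Real.log (((n : ℝ) + 1) / n) :=
      Real.one_sub_inv_le_log_of_pos (by positivity)
    rw [Real.log_div (by positivity) (by positivity)] at h1
    have h2 : 1 - (((n : ℝ) + 1) / n)⁻¹ = 1 / ((n : ℝ) + 1) := by
      field_simp
      ring
    rw [h2] at h1
    push_cast
    linarith

theorem Sw_bound (χ : ℕ → ℝ) (M : ℝ) (hM : ∀ N : ℕ, |∑ n ∈ Icc 1 N, χ n| ≤ M) (N : ℕ) (hN : 1 ≤ N)
    (t : ℝ) (ht : 0 < t) (htN : t ≤ N) :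
    |SwT χ N ∅ t - t / 2 * LL χ N| ≤ M * (2 + Real.log N) := by
  classical
  have hM0 : 0 ≤ M := le_trans (abs_nonneg _) (hM 0)
  have hN0 : (0 : ℝ) < N := by exact_mod_cast hN
  have hlogN : 0 ≤ Real.log N := Real.log_nonneg (by exact_mod_cast hN)
  set n0 : ℕ := ⌊t⌋₊ with hn0
  have hn0N : n0 ≤ N := by
    have := Nat.floor_le_floor htN
    rwa [Nat.floor_natCast] at this
  have hn0t : (n0 : ℝ) ≤ t := Nat.floor_le ht.le
  have htn0 : t < (n0 : ℝ) + 1 := Nat.lt_floor_add_one t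
  -- the main identity
  have e1 : SwT χ N ∅ t = ∑ a ∈ Icc 1 N, χ a * ∑ b ∈ Icc 1 (N / a), max 0 (1 - ((a * b : ℕ) : ℝ) / t) := by
    unfold SwT
    rw [← RE_swap χ N (fun n => max 0 (1 - (n : ℝ) / t))]
    apply sum_congr
    · ext n; simp
    · intro n _; rfl
  have e2 : SwT χ N ∅ t = ∑ a ∈ Ioc 0 n0, χ a * (t / (2 * a) - 1 / 2 + hh t a) := by
    rw [e1, RE_Icc, ← sum_Ioc_consecutive _ (Nat.zero_le n0) hn0N]
    have z1 : ∑ a ∈ Ioc n0 N, χ a * ∑ b ∈ Icc 1 (N / a), max 0 (1 - ((a * b : ℕ) : ℝ) / t) = 0 := by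
      apply sum_eq_zero
      intro a ha
      rw [mem_Ioc] at ha
      rw [W_zero N a t ht ?_, mul_zero]
      refine lt_of_lt_of_le htn0 ?_
      exact_mod_cast ha.1
    rw [z1, add_zero]
    apply sum_congr rfl
    intro a ha
    rw [mem_Ioc] at ha
    rw [W_eq N a t ha.1 ?_ htN]
    refine le_trans ?_ hn0t
    exact_mod_cast ha.2
  have e3 : t / 2 * LL χ N = ∑ a ∈ Ioc 0 n0, χ a * (t / (2 * a)) + t / 2 * ∑ a ∈ Ioc n0 N, χ a / a := by
    unfold LL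
    rw [RE_Icc, ← sum_Ioc_consecutive _ (Nat.zero_le n0) hn0N, mul_add]
    congr 1
    rw [mul_sum]
    apply sum_congr rfl
    intro a ha
    rw [mem_Ioc] at ha
    have : (0 : ℝ) < a := by exact_mod_cast ha.1
    field_simp
  have e4 : SwT χ N ∅ t - t / 2 * LL χ N =
      -(1 / 2) * ∑ a ∈ Ioc 0 n0, χ a + ∑ a ∈ Ioc 0 n0, χ a * hh t a - t / 2 * ∑ a ∈ Ioc n0 N, χ a / a := by
    rw [e2, e3, mul_sum (Ioc 0 n0) χ]
    rw [← sub_sub, ← sum_sub_distrib, ← sum_add_distrib]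
    congr 1
    apply sum_congr rfl
    intro a _
    ring
  have b1 : |-(1 / 2) * ∑ a ∈ Ioc 0 n0, χ a| ≤ M / 2 := by
    rw [abs_mul, ← RE_Icc]
    have := hM n0
    rw [abs_neg, abs_of_pos (by norm_num : (0 : ℝ) < 1 / 2)]
    linarith
  have b2 : |t / 2 * ∑ a ∈ Ioc n0 N, χ a / a| ≤ M := by
    rw [abs_mul, abs_of_pos (by positivity : 0 < t / 2)]
    have h := abel_tail χ M hM n0 N
    calc t / 2 * |∑ a ∈ Ioc n0 N, χ a / a| ≤ t / 2 * (2 * M / (n0 + 1)) := by gcongr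
      _ = t / (n0 + 1) * M := by field_simp
      _ ≤ 1 * M := by
        gcongr
        rw [div_le_one (by positivity)]
        exact htn0.le
      _ = M := one_mul M
  have b3 : |∑ a ∈ Ioc 0 n0, χ a * hh t a| ≤ M * (1 / 4 + 1 / 2 * Real.log N) := by
    rcases Nat.eq_zero_or_pos n0 with h0 | h0
    · rw [h0]
      simp only [Ioc_self, sum_empty, abs_zero]
      positivity
    · rw [← RE_Icc]
      refine (abel_one χ (hh t) M hM n0 h0).trans ?_
      apply mul_le_mul_of_nonneg_left _ hM0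
      have c1 : |hh t n0| ≤ 1 / 8 := by
        refine (hh_abs t ht n0).trans ?_
        rw [div_le_div_iff₀ (by positivity) (by norm_num)]
        linarith
      have c2 : ∑ a ∈ Ico 1 n0, |hh t (a + 1) - hh t a| ≤ 1 / 8 + 1 / 2 * Real.log n0 := by
        calc ∑ a ∈ Ico 1 n0, |hh t (a + 1) - hh t a|
            ≤ ∑ a ∈ Ico 1 n0, (1 / (8 * t) + 1 / (2 * ((a : ℝ) + 1))) := by
              apply sum_le_sum
              intro a ha
              rw [mem_Ico] at ha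
              exact hh_var t ht a ha.1
          _ = ((n0 - 1 : ℕ) : ℝ) * (1 / (8 * t)) + 1 / 2 * ∑ a ∈ Ico 1 n0, 1 / ((a : ℝ) + 1) := by
              rw [sum_add_distrib, sum_const, Nat.card_Ico, nsmul_eq_mul, mul_sum]
              congr 1
              apply sum_congr rfl
              intro a _
              have : (0 : ℝ) < (a : ℝ) + 1 := by positivity
              field_simp
          _ ≤ 1 / 8 + 1 / 2 * Real.log n0 := by
              have d1 := RE_harm n0 h0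
              have d2 : ((n0 - 1 : ℕ) : ℝ) ≤ t := by
                refine le_trans ?_ hn0t
                exact_mod_cast Nat.sub_le _ _
              have d3 : ((n0 - 1 : ℕ) : ℝ) * (1 / (8 * t)) ≤ 1 / 8 := by
                rw [mul_one_div, div_le_div_iff₀ (by positivity) (by norm_num)]
                linarith
              linarith
      have c3 : Real.log n0 ≤ Real.log N := by
        apply Real.log_le_log
        · exact_mod_cast h0
        · exact_mod_cast hn0N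
      linarith
  rw [e4]
  calc _ ≤ |-(1 / 2) * ∑ a ∈ Ioc 0 n0, χ a + ∑ a ∈ Ioc 0 n0, χ a * hh t a| +
        |t / 2 * ∑ a ∈ Ioc n0 N, χ a / a| := abs_sub _ _
    _ ≤ |-(1 / 2) * ∑ a ∈ Ioc 0 n0, χ a| + |∑ a ∈ Ioc 0 n0, χ a * hh t a| +
        |t / 2 * ∑ a ∈ Ioc n0 N, χ a / a| := by gcongr; exact abs_add_le _ _
    _ ≤ M / 2 + M * (1 / 4 + 1 / 2 * Real.log N) + M := by gcongr
    _ ≤ M * (2 + Real.log N) := by nlinarith [mul_nonneg hM0 hlogN]

end Pool.Agent.Lib.MP_42948a_nt.OA
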