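import Pool.Agent.Lib.MP_42948a_nt.OA.ZA

/-!
# Numerical inequalities, part D (job ZD)

`c = η/(16(3K+4)) > 0`, `z = ⌊d^c⌋₊ ≤ d^c`, `E = d^(1/2+η/4)`, `X = ⌊d^(1+2η)⌋₊`, so `d^(1+2η)/2 ≤ X ≤ d^(1+2η)`. With `BB_le (η/8)`:
`2 BB d (2 + log X) ≤ 2 d^(1/2+η/8) (2 + (1+2η) log d) ≤ E` for large `d`. `(12 E)^2 = 144 d^(1+η/2) ≤ d^(1+2η)/2`.
`τ(d) √X ≤ d^(η/8) d^(1/2+η)`, `z^(3K) E ≤ d^(η/16) d^(1/2+η/4)` (`3 K c ≤ η/16`... indeed `c * 3K ≤ η/16`), and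
`X/(512 z^2 E) ≥ (d^(1+2η)/2)/(512 d^(η/32) d^(1/2+η/4)) = d^(1/2+7η/4-η/32)/1024`, which wins for large `d`
(exponents: `1/2+9η/8` and `1/2+5η/16` against `1/2+55η/32`).
-/

namespace Pool.Agent.Lib.MP_42948a_nt.OA

open Finset

theorem num_E3 (K : ℕ) (η c : ℝ) (hη : 0 < η) (hc : c * (16 * (3 * K + 4)) = η) :
    ∃ d0 : ℕ, ∀ d : ℕ, d0 ≤ d →
      2 * BB d * (2 + Real.log (⌊(d : ℝ) ^ (1 + 2 * η)⌋₊ : ℝ)) ≤ (d : ℝ) ^ (1 / 2 + η / 4) ∧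
      1 ≤ (d : ℝ) ^ (1 / 2 + η / 4) ∧
      (12 * (d : ℝ) ^ (1 / 2 + η / 4)) ^ 2 ≤ (⌊(d : ℝ) ^ (1 + 2 * η)⌋₊ : ℝ) ∧
      (d.divisors.card : ℝ) * √(⌊(d : ℝ) ^ (1 + 2 * η)⌋₊ : ℝ) +
          (⌊(d : ℝ) ^ c⌋₊ : ℝ) ^ (3 * K) * (d : ℝ) ^ (1 / 2 + η / 4) <
        (⌊(d : ℝ) ^ (1 + 2 * η)⌋₊ : ℝ) /
          (512 * (⌊(d : ℝ) ^ c⌋₊ : ℝ) ^ 2 * (d : ℝ) ^ (1 / 2 + η / 4)) := by
  have hK0 : (0:ℝ) ≤ K := Nat.cast_nonneg K
  have hden : (0:ℝ) < 16 * (3 * K + 4) := by positivity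
  have hc0 : 0 < c := by
    by_contra hcon
    push Not at hcon
    have : c * (16 * (3 * K + 4)) ≤ 0 := mul_nonpos_of_nonpos_of_nonneg hcon hden.le
    linarith
  have hc2 : 2 * c ≤ η / 32 := by
    nlinarith [mul_nonneg hc0.le hK0]
  have hc3 : c * (3 * K) ≤ η / 16 := by
    nlinarith [mul_nonneg hc0.le hK0]
  obtain ⟨d1, hd1⟩ := BB_le (η / 8) (by positivity)
  have h1 : ∀ᶠ x : ℝ in Filter.atTop,
      ‖Real.log x‖ ≤ 1 / (4 * (1 + 2 * η)) * ‖x ^ (η / 8)‖ :=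
    (isLittleO_log_rpow_atTop (by positivity : 0 < η / 8)).bound (by positivity)
  have h2 : ∀ᶠ x : ℝ in Filter.atTop, 8 ≤ x ^ (η / 8) :=
    (tendsto_rpow_atTop (by positivity : 0 < η / 8)).eventually_ge_atTop _
  have h3 : ∀ᶠ x : ℝ in Filter.atTop, 288 ≤ x ^ (3 * η / 2) :=
    (tendsto_rpow_atTop (by positivity : 0 < 3 * η / 2)).eventually_ge_atTop _
  have h4 : ∀ᶠ x : ℝ in Filter.atTop, 2048 < x ^ (19 * η / 32) :=
    (tendsto_rpow_atTop (by positivity : 0 < 19 * η / 32)).eventually_gt_atTop _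
  have hT := tendsto_natCast_atTop_atTop (R := ℝ)
  have h5 : ∀ᶠ d : ℕ in Filter.atTop, d1 ≤ d ∧ 2 ≤ d ∧
      ‖Real.log (d:ℝ)‖ ≤ 1 / (4 * (1 + 2 * η)) * ‖(d:ℝ) ^ (η / 8)‖ ∧ 8 ≤ (d:ℝ) ^ (η / 8) ∧
      288 ≤ (d:ℝ) ^ (3 * η / 2) ∧ 2048 < (d:ℝ) ^ (19 * η / 32) := by
    filter_upwards [Filter.eventually_ge_atTop d1, Filter.eventually_ge_atTop 2, hT.eventually h1,
      hT.eventually h2, hT.eventually h3, hT.eventually h4] with d a b c e f g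
    exact ⟨a, b, c, e, f, g⟩
  obtain ⟨d0, hd0⟩ := Filter.eventually_atTop.mp h5
  refine ⟨d0, fun d hd => ?_⟩
  obtain ⟨hdd1, hd2, hlog, h8, h288, h2048⟩ := hd0 d hd
  obtain ⟨hBB, htau⟩ := hd1 d hdd1
  set x : ℝ := (d : ℝ) with hx
  have hx2 : (2:ℝ) ≤ x := by rw [hx]; exact_mod_cast hd2
  have hx1 : (1:ℝ) ≤ x := by linarith
  have hx0 : 0 < x := by linarith
  have hlogx0 : 0 ≤ Real.log x := Real.log_nonneg hx1
  have hp8 : 0 < x ^ (η / 8) := Real.rpow_pos_of_pos hx0 _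
  rw [Real.norm_eq_abs, Real.norm_eq_abs, abs_of_pos hp8, abs_of_nonneg hlogx0] at hlog
  -- the number `X`
  set X : ℝ := (⌊x ^ (1 + 2 * η)⌋₊ : ℝ) with hX
  have hpX : 0 < x ^ (1 + 2 * η) := Real.rpow_pos_of_pos hx0 _
  have hXle : X ≤ x ^ (1 + 2 * η) := Nat.floor_le hpX.le
  have hbig : 2 ≤ x ^ (1 + 2 * η) := by
    calc (2:ℝ) ≤ x := hx2
      _ = x ^ (1:ℝ) := (Real.rpow_one x).symm
      _ ≤ x ^ (1 + 2 * η) := Real.rpow_le_rpow_of_exponent_le hx1 (by linarith)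
  have hXge : x ^ (1 + 2 * η) / 2 ≤ X := by
    have := Nat.lt_floor_add_one (x ^ (1 + 2 * η))
    rw [← hX] at this
    linarith
  have hX1 : 1 ≤ X := by linarith
  have hX0 : 0 < X := by linarith
  have hlogX : Real.log X ≤ (1 + 2 * η) * Real.log x := by
    rw [← Real.log_rpow hx0]
    exact Real.log_le_log hX0 hXle
  have hlogX0 : 0 ≤ Real.log X := Real.log_nonneg hX1
  -- the number `z`
  set z : ℝ := (⌊x ^ c⌋₊ : ℝ) with hz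
  have hpz : 0 < x ^ c := Real.rpow_pos_of_pos hx0 _
  have hzle : z ≤ x ^ c := Nat.floor_le hpz.le
  have hz1 : 1 ≤ z := by
    rw [hz]
    have : 1 ≤ ⌊x ^ c⌋₊ := by
      rw [Nat.one_le_floor_iff]
      exact Real.one_le_rpow hx1 hc0.le
    exact_mod_cast this
  have hz0 : 0 < z := by linarith
  have hE0 : 0 < x ^ (1 / 2 + η / 4) := Real.rpow_pos_of_pos hx0 _
  refine ⟨?_, ?_, ?_, ?_⟩
  · have e1 : x ^ (1 / 2 + η / 4) = x ^ (1 / 2 + η / 8) * x ^ (η / 8) := by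
      rw [← Real.rpow_add hx0]; congr 1; ring
    have e2 : 2 * (2 + Real.log X) ≤ x ^ (η / 8) := by
      have e3 : (1 + 2 * η) * Real.log x ≤ 1 / 4 * x ^ (η / 8) := by
        calc (1 + 2 * η) * Real.log x ≤ (1 + 2 * η) * (1 / (4 * (1 + 2 * η)) * x ^ (η / 8)) := by
              gcongr
          _ = 1 / 4 * x ^ (η / 8) := by field_simp
      linarith
    rw [e1]
    have hBB0 : 0 ≤ 2 + Real.log X := by linarith
    calc 2 * BB d * (2 + Real.log X) = BB d * (2 * (2 + Real.log X)) := by ring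
      _ ≤ x ^ (1 / 2 + η / 8) * (2 * (2 + Real.log X)) := by gcongr
      _ ≤ x ^ (1 / 2 + η / 8) * x ^ (η / 8) := by gcongr
  · exact Real.one_le_rpow hx1 (by positivity)
  · refine le_trans ?_ hXge
    have e1 : (x ^ (1 / 2 + η / 4)) ^ 2 = x ^ (1 + η / 2) := by
      rw [← Real.rpow_natCast, ← Real.rpow_mul hx0.le]; congr 1; push_cast; ring
    have e2 : x ^ (1 + 2 * η) = x ^ (1 + η / 2) * x ^ (3 * η / 2) := by
      rw [← Real.rpow_add hx0]; congr 1; ring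
    have hp : 0 < x ^ (1 + η / 2) := Real.rpow_pos_of_pos hx0 _
    rw [mul_pow, e1, e2]
    nlinarith [mul_le_mul_of_nonneg_left h288 hp.le]
  · have t1 : (d.divisors.card : ℝ) * √X ≤ x ^ (1 / 2 + 9 * η / 8) := by
      have s1 : √X ≤ x ^ (1 / 2 + η) := by
        calc √X ≤ √(x ^ (1 + 2 * η)) := Real.sqrt_le_sqrt hXle
          _ = x ^ (1 / 2 + η) := by
            rw [Real.sqrt_eq_rpow, ← Real.rpow_mul hx0.le]; congr 1; ring
      calc (d.divisors.card : ℝ) * √X ≤ x ^ (η / 8) * x ^ (1 / 2 + η) := by gcongr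
        _ = x ^ (1 / 2 + 9 * η / 8) := by rw [← Real.rpow_add hx0]; congr 1; ring
    have t2 : z ^ (3 * K) * x ^ (1 / 2 + η / 4) ≤ x ^ (1 / 2 + 9 * η / 8) := by
      have s1 : z ^ (3 * K) ≤ x ^ (η / 16) := by
        calc z ^ (3 * K) ≤ (x ^ c) ^ (3 * K) := by gcongr
          _ = x ^ (c * (3 * K)) := by
            rw [← Real.rpow_natCast, ← Real.rpow_mul hx0.le]; push_cast; rfl
          _ ≤ x ^ (η / 16) := Real.rpow_le_rpow_of_exponent_le hx1 hc3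
      calc z ^ (3 * K) * x ^ (1 / 2 + η / 4) ≤ x ^ (η / 16) * x ^ (1 / 2 + η / 4) := by gcongr
        _ = x ^ (1 / 2 + 5 * η / 16) := by rw [← Real.rpow_add hx0]; congr 1; ring
        _ ≤ x ^ (1 / 2 + 9 * η / 8) := Real.rpow_le_rpow_of_exponent_le hx1 (by linarith)
    have t3 : z ^ 2 * x ^ (1 / 2 + η / 4) ≤ x ^ (1 / 2 + 9 * η / 32) := by
      have s1 : z ^ 2 ≤ x ^ (η / 32) := by
        calc z ^ 2 ≤ (x ^ c) ^ 2 := by gcongr
          _ = x ^ (2 * c) := by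
            rw [← Real.rpow_natCast, ← Real.rpow_mul hx0.le]; push_cast; congr 1; ring
          _ ≤ x ^ (η / 32) := Real.rpow_le_rpow_of_exponent_le hx1 hc2
      calc z ^ 2 * x ^ (1 / 2 + η / 4) ≤ x ^ (η / 32) * x ^ (1 / 2 + η / 4) := by gcongr
        _ = x ^ (1 / 2 + 9 * η / 32) := by rw [← Real.rpow_add hx0]; congr 1; ring
    rw [lt_div_iff₀ (by positivity)]
    have hq : 0 < x ^ (1 / 2 + 9 * η / 8) := Real.rpow_pos_of_pos hx0 _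
    have hw : 0 < x ^ (1 / 2 + 9 * η / 32) := Real.rpow_pos_of_pos hx0 _
    calc ((d.divisors.card : ℝ) * √X + z ^ (3 * K) * x ^ (1 / 2 + η / 4)) *
          (512 * z ^ 2 * x ^ (1 / 2 + η / 4))
        ≤ (x ^ (1 / 2 + 9 * η / 8) + x ^ (1 / 2 + 9 * η / 8)) *
          (512 * x ^ (1 / 2 + 9 * η / 32)) := by
          have : 512 * z ^ 2 * x ^ (1 / 2 + η / 4) ≤ 512 * x ^ (1 / 2 + 9 * η / 32) := by
            rw [mul_assoc]; gcongr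
          gcongr
      _ = 1024 * (x ^ (1 / 2 + 9 * η / 8) * x ^ (1 / 2 + 9 * η / 32)) := by ring
      _ = 1024 * x ^ (1 + 45 * η / 32) := by
          rw [← Real.rpow_add hx0]; congr 2; ring
      _ < x ^ (1 + 45 * η / 32) * x ^ (19 * η / 32) / 2 := by
          have hp : 0 < x ^ (1 + 45 * η / 32) := Real.rpow_pos_of_pos hx0 _
          nlinarith [mul_lt_mul_of_pos_left h2048 hp]
      _ = x ^ (1 + 2 * η) / 2 := by
          rw [← Real.rpow_add hx0]; congr 2; ring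
      _ ≤ X := hXge

end Pool.Agent.Lib.MP_42948a_nt.OA
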