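import Pool.Agent.Lib.MP_42948a_nt.OA.EC
import Pool.Agent.Lib.MP_42948a_nt.OA.ED
import Pool.Agent.Lib.MP_42948a_nt.OA.EE

/-!
# Distribution of a coset in `[1, N]` (job EF)

For `x : ZMod d`: `1[x ∈ q H] = (1/d) ∑_{h ∈ H} ∑_t e(t (x - q h))` (orthogonality `AddChar.sum_mulShift`). Summing over `n ∈ [1,N]`
(`x = n`) and exchanging: `#cls = (1/d) ∑_t (∑_{n ≤ N} e(t n)) (∑_{h ∈ Hset H} e((-t q) h))`. The term `t = 0` is `N |H| / d`
(`card_Hset`). For `t ≠ 0`: the first factor is `≤ d/(2 min(t, d-t))` (`geom_bound`), the second `≤ √(d gcd((-t q).val, d))`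
(`subgroup_sum_bound`) and `gcd((-t q).val, d) = gcd(t.val, d)` since `-q` is a unit (e.g. both equal the number of annihilators, or:
`gcd(x.val, d)` divides `gcd((x u).val, d)` for every `u`, as `(x u).val ≡ x.val u.val mod d`). So the error is at most
`∑_{t ≠ 0} √d √gcd(t.val, d) / (2 min(t.val, d - t.val)) = √d ∑_{t=1}^{d-1} ... ≤ BB d` (`gcd_sum`; reindex `t ↦ t.val`).
-/

namespace Pool.Agent.Lib.MP_42948a_nt.OA

open Finset

private theorem EF_reindex (d : ℕ) [NeZero d] (f : ℕ → ℝ) :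
    ∑ t ∈ (univ : Finset (ZMod d)).erase 0, f t.val = ∑ t ∈ Icc 1 (d - 1), f t := by
  refine Finset.sum_nbij' (fun t : ZMod d => t.val) (fun j => (j : ZMod d)) ?_ ?_ ?_ ?_ ?_
  · intro t ht
    rw [mem_erase] at ht
    rw [mem_Icc]
    have h1 := ZMod.val_lt t
    have h0 : t.val ≠ 0 := (ZMod.val_ne_zero t).2 ht.1
    omega
  · intro j hj
    rw [mem_Icc] at hj
    rw [mem_erase]
    refine ⟨?_, mem_univ _⟩
    intro h
    have h2 := congrArg ZMod.val h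
    rw [ZMod.val_natCast_of_lt (by omega), ZMod.val_zero] at h2
    omega
  · intro t _
    exact ZMod.natCast_zmod_val t
  · intro j hj
    rw [mem_Icc] at hj
    exact ZMod.val_natCast_of_lt (by omega)
  · intro t _
    rfl

private theorem EF_gcd_dvd (d : ℕ) [NeZero d] (x u : ZMod d) :
    Nat.gcd x.val d ∣ Nat.gcd (x * u).val d := by
  apply Nat.dvd_gcd _ (Nat.gcd_dvd_right _ _)
  rw [ZMod.val_mul]
  exact (Nat.dvd_mod_iff (Nat.gcd_dvd_right _ _)).2 (Dvd.dvd.mul_right (Nat.gcd_dvd_left _ _) _)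

private theorem EF_gcd_unit (d : ℕ) [NeZero d] (x : ZMod d) (u : (ZMod d)ˣ) :
    Nat.gcd (x * u).val d = Nat.gcd x.val d := by
  apply Nat.dvd_antisymm
  · have h := EF_gcd_dvd d (x * u) ((u⁻¹ : (ZMod d)ˣ) : ZMod d)
    rwa [mul_assoc, Units.mul_inv, mul_one] at h
  · exact EF_gcd_dvd d x u

open Classical in
private theorem EF_ind (d : ℕ) [NeZero d] (H : Subgroup (ZMod d)ˣ) (q : (ZMod d)ˣ) (x : ZMod d) :
    ∑ h ∈ Hset H, ∑ t : ZMod d, ZMod.stdAddChar (t * (x - (q : ZMod d) * h)) =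
      if x ∈ cosetSet H q then (d : ℂ) else 0 := by
  have h1 : ∀ h : ZMod d, ∑ t : ZMod d, ZMod.stdAddChar (t * (x - (q : ZMod d) * h)) =
      if h = ((q⁻¹ : (ZMod d)ˣ) : ZMod d) * x then (d : ℂ) else 0 := by
    intro h
    rw [AddChar.sum_mulShift _ (ZMod.isPrimitive_stdAddChar d)]
    rw [ZMod.card]
    by_cases hh : h = ((q⁻¹ : (ZMod d)ˣ) : ZMod d) * x
    · rw [if_pos hh, if_pos]
      rw [hh, ← mul_assoc, Units.mul_inv, one_mul, sub_self]
    · rw [if_neg hh, if_neg, Nat.cast_zero]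
      intro h0
      apply hh
      rw [sub_eq_zero.1 h0, ← mul_assoc, Units.inv_mul, one_mul]
  rw [Finset.sum_congr rfl fun h _ => h1 h, Finset.sum_ite_eq']
  have h2 : ((q⁻¹ : (ZMod d)ˣ) : ZMod d) * x ∈ Hset H ↔ x ∈ cosetSet H q := by
    unfold Hset cosetSet
    rw [mem_filter, Set.mem_ofPred_eq]
    constructor
    · rintro ⟨_, h, hh, he⟩
      refine ⟨h, hh, ?_⟩
      rw [Units.val_mul, ← he, ← mul_assoc, Units.mul_inv, one_mul]
    · rintro ⟨h, hh, he⟩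
      refine ⟨mem_univ _, h, hh, ?_⟩
      rw [he, Units.val_mul, ← mul_assoc, Units.inv_mul, one_mul]
  by_cases hx : x ∈ cosetSet H q
  · rw [if_pos hx, if_pos (h2.2 hx)]
  · rw [if_neg hx, if_neg (fun h => hx (h2.1 h))]

private theorem EF_cls {d N : ℕ} {Q : Set (ZMod d)} {n : ℕ} :
    n ∈ cls N ∅ Q ↔ n ∈ Icc 1 N ∧ (n : ZMod d) ∈ Q := by
  classical
  unfold cls
  rw [mem_filter]
  constructor
  · rintro ⟨h1, _, h2⟩
    exact ⟨h1, h2⟩
  · rintro ⟨h1, h2⟩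
    exact ⟨h1, fun p hp => absurd hp (Finset.notMem_empty p), h2⟩

private theorem EF_card (d : ℕ) [NeZero d] (H : Subgroup (ZMod d)ˣ) (q : (ZMod d)ˣ) (N : ℕ) :
    (d : ℂ) * ((cls N ∅ (cosetSet H q)).card : ℂ) =
      ∑ t : ZMod d, (∑ n ∈ Icc 1 N, ZMod.stdAddChar (t * (n : ZMod d))) *
        ∑ h ∈ Hset H, ZMod.stdAddChar (t * ((-q : (ZMod d)ˣ) : ZMod d) * h) := by
  classical
  have h1 : (d : ℂ) * ((cls N ∅ (cosetSet H q)).card : ℂ) =
      ∑ n ∈ Icc 1 N, if (n : ZMod d) ∈ cosetSet H q then (d : ℂ) else 0 := by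
    rw [← Finset.sum_filter, Finset.sum_const, nsmul_eq_mul, mul_comm]
    congr 2
    apply congrArg
    ext n
    rw [EF_cls, mem_filter]
  rw [h1]
  have h2 : ∀ n ∈ Icc 1 N, (if (n : ZMod d) ∈ cosetSet H q then (d : ℂ) else 0) =
      ∑ t : ZMod d, ∑ h ∈ Hset H, ZMod.stdAddChar (t * (n : ZMod d)) *
        ZMod.stdAddChar (t * ((-q : (ZMod d)ˣ) : ZMod d) * h) := by
    intro n _
    rw [← EF_ind d H q n, Finset.sum_comm]
    apply Finset.sum_congr rfl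
    intro t _
    apply Finset.sum_congr rfl
    intro h _
    rw [← AddChar.map_add_eq_mul]
    congr 1
    rw [Units.val_neg]
    ring
  rw [Finset.sum_congr rfl h2, Finset.sum_comm]
  apply Finset.sum_congr rfl
  intro t _
  rw [Finset.sum_mul_sum]

theorem coset_count (d : ℕ) [NeZero d] (H : Subgroup (ZMod d)ˣ) (q : (ZMod d)ˣ) (N : ℕ) :
    |((cls N ∅ (cosetSet H q)).card : ℝ) - (N : ℝ) * (Nat.card H : ℝ) / d| ≤ BB d := by
  classical
  have hd0 : 0 < d := Nat.pos_of_ne_zero (NeZero.ne d)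
  have hd : (0 : ℝ) < d := by exact_mod_cast hd0
  obtain ⟨a, ha⟩ : ∃ a : ZMod d → ℂ, a = fun t => ∑ n ∈ Icc 1 N, ZMod.stdAddChar (t * (n : ZMod d)) :=
    ⟨_, rfl⟩
  obtain ⟨b, hb⟩ : ∃ b : ZMod d → ℂ, b = fun t =>
      ∑ h ∈ Hset H, ZMod.stdAddChar (t * ((-q : (ZMod d)ˣ) : ZMod d) * h) := ⟨_, rfl⟩
  have hcard : (d : ℂ) * ((cls N ∅ (cosetSet H q)).card : ℂ) = ∑ t : ZMod d, a t * b t := by
    rw [EF_card, ha, hb]
  have ha0 : a 0 = N := by
    rw [ha]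
    dsimp only
    have : ∀ n ∈ Icc 1 N, (ZMod.stdAddChar ((0 : ZMod d) * (n : ZMod d)) : ℂ) = 1 := by
      intro n _
      rw [zero_mul, AddChar.map_zero_eq_one]
    rw [Finset.sum_congr rfl this, Finset.sum_const, nsmul_eq_mul, mul_one, Nat.card_Icc,
      Nat.add_sub_cancel]
  have hb0 : b 0 = (Nat.card H : ℂ) := by
    rw [hb]
    dsimp only
    have : ∀ h ∈ Hset H, (ZMod.stdAddChar ((0 : ZMod d) * ((-q : (ZMod d)ˣ) : ZMod d) * h) : ℂ) = 1 := by
      intro h _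
      rw [zero_mul, zero_mul, AddChar.map_zero_eq_one]
    rw [Finset.sum_congr rfl this, Finset.sum_const, nsmul_eq_mul, mul_one, card_Hset]
  have hsplit : (d : ℂ) * ((cls N ∅ (cosetSet H q)).card : ℂ) - N * (Nat.card H : ℂ) =
      ∑ t ∈ (univ : Finset (ZMod d)).erase 0, a t * b t := by
    rw [hcard, ← Finset.add_sum_erase univ (fun t => a t * b t) (mem_univ (0 : ZMod d)), ha0, hb0]
    ring
  have hbt : ∀ t : ZMod d, ‖b t‖ ≤ √(d : ℝ) * √(Nat.gcd t.val d : ℝ) := by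
    intro t
    have h1 := subgroup_sum_bound d H (t * ((-q : (ZMod d)ˣ) : ZMod d))
    rw [EF_gcd_unit] at h1
    rw [← Real.sqrt_mul hd.le]
    apply Real.le_sqrt_of_sq_le
    rw [hb]
    exact h1
  have hterm : ∀ t ∈ (univ : Finset (ZMod d)).erase 0, ‖a t * b t‖ ≤
      (d : ℝ) * √(d : ℝ) * (√(Nat.gcd t.val d : ℝ) / (2 * (min t.val (d - t.val) : ℕ))) := by
    intro t ht
    rw [mem_erase] at ht
    have h1 := geom_bound d t ht.1 N
    have h2 := hbt t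
    rw [norm_mul]
    have h3 : ‖a t‖ ≤ (d : ℝ) / (2 * (min t.val (d - t.val) : ℕ)) := by
      rw [ha]
      exact h1
    calc ‖a t‖ * ‖b t‖ ≤ (d : ℝ) / (2 * (min t.val (d - t.val) : ℕ)) *
          (√(d : ℝ) * √(Nat.gcd t.val d : ℝ)) := by
          apply mul_le_mul h3 h2 (norm_nonneg _)
          positivity
      _ = _ := by ring
  have hnorm : ‖(d : ℂ) * ((cls N ∅ (cosetSet H q)).card : ℂ) - N * (Nat.card H : ℂ)‖ ≤
      (d : ℝ) * √(d : ℝ) * ((d.divisors.card : ℝ) * (1 + Real.log d)) := by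
    rw [hsplit]
    refine le_trans (norm_sum_le _ _) (le_trans (Finset.sum_le_sum hterm) ?_)
    rw [← Finset.mul_sum]
    apply mul_le_mul_of_nonneg_left _ (by positivity)
    rw [EF_reindex d (fun t => √(Nat.gcd t d : ℝ) / (2 * (min t (d - t) : ℕ)))]
    exact gcd_sum d hd0
  have hreal : (d : ℝ) * |((cls N ∅ (cosetSet H q)).card : ℝ) - (N : ℝ) * (Nat.card H : ℝ) / d| =
      ‖(d : ℂ) * ((cls N ∅ (cosetSet H q)).card : ℂ) - N * (Nat.card H : ℂ)‖ := by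
    have h1 : (d : ℂ) * ((cls N ∅ (cosetSet H q)).card : ℂ) - N * (Nat.card H : ℂ) =
        (((d : ℝ) * (((cls N ∅ (cosetSet H q)).card : ℝ) - (N : ℝ) * (Nat.card H : ℝ) / d) : ℝ) : ℂ) := by
      have h2 : (d : ℝ) * (((cls N ∅ (cosetSet H q)).card : ℝ) - (N : ℝ) * (Nat.card H : ℝ) / d) =
          (d : ℝ) * ((cls N ∅ (cosetSet H q)).card : ℝ) - (N : ℝ) * (Nat.card H : ℝ) := by
        field_simp
      rw [h2]
      push_cast
      ring
    rw [h1, Complex.norm_real, Real.norm_eq_abs, abs_mul, abs_of_pos hd]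
  unfold BB
  have h5 : (d : ℝ) * |((cls N ∅ (cosetSet H q)).card : ℝ) - (N : ℝ) * (Nat.card H : ℝ) / d| ≤
      (d : ℝ) * (√(d : ℝ) * (d.divisors.card : ℝ) * (1 + Real.log d)) := by
    rw [hreal]
    refine le_trans hnorm (le_of_eq ?_)
    ring
  exact le_of_mul_le_mul_left h5 hd

end Pool.Agent.Lib.MP_42948a_nt.OA
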