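import Pool.Agent.Lib.MP_42948a_nt.OA.Defs

/-!
# The divisor bound (copied from `Pool.Agent.Lib.MP_2a816b_nt.Divisor`)
-/

namespace Pool.Agent.Lib.MP_42948a_nt.OA

open Finset Real

/-- `τ(n) ≤ C n^δ` -/
theorem divisor_bound (δ : ℝ) (hδ : 0 < δ) : ∃ C : ℝ, 1 ≤ C ∧ ∀ n : ℕ, 0 < n →
    (n.divisors.card : ℝ) ≤ C * (n : ℝ) ^ δ := by
  classical
  set P0 : ℕ := ⌈(2 : ℝ) ^ (1 / δ)⌉₊ with hP0
  set c1 : ℝ := min 1 (δ * Real.log 2) with hc1
  have hlog2 : 0 < Real.log 2 := Real.log_pos (by norm_num)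
  have hc10 : 0 < c1 := lt_min one_pos (by positivity)
  have hc11 : c1 ≤ 1 := min_le_left _ _
  have hC1 : 1 ≤ 1 / c1 := by rw [le_div_iff₀ hc10]; linarith
  refine ⟨(1 / c1) ^ P0, one_le_pow₀ hC1, ?_⟩
  intro n hn
  rw [Nat.card_divisors hn.ne']
  push_cast
  set c : ℕ → ℝ := fun p => if p < P0 then 1 / c1 else 1 with hc
  have h1 : ∀ p ∈ n.primeFactors, ((n.factorization p : ℕ) : ℝ) + 1 ≤
      c p * ((p : ℝ) ^ (n.factorization p)) ^ δ := by
    intro p hp
    have hpp := Nat.prime_of_mem_primeFactors hp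
    have hp2 : (2 : ℝ) ≤ p := by exact_mod_cast hpp.two_le
    have hp0 : (0 : ℝ) < p := by linarith
    generalize n.factorization p = v
    have e1 : ((p : ℝ) ^ v) ^ δ = ((p : ℝ) ^ δ) ^ v := by
      rw [← rpow_natCast, ← rpow_mul hp0.le, mul_comm, rpow_mul hp0.le, rpow_natCast]
    rw [e1]
    simp only [hc]
    split_ifs with h
    · -- small primes
      have h2 : (2 : ℝ) ^ δ ≤ (p : ℝ) ^ δ := rpow_le_rpow (by norm_num) hp2 hδ.le
      have h3 : ((2 : ℝ) ^ δ) ^ v ≤ ((p : ℝ) ^ δ) ^ v := by gcongr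
      have h4 : 1 + v * (δ * Real.log 2) ≤ ((2 : ℝ) ^ δ) ^ v := by
        have h5 : ((2 : ℝ) ^ δ) ^ v = Real.exp (v * (δ * Real.log 2)) := by
          rw [rpow_def_of_pos (by norm_num : (0 : ℝ) < 2), ← Real.exp_nat_mul]
          congr 1; ring
        rw [h5]
        have := Real.add_one_le_exp (v * (δ * Real.log 2))
        linarith
      have h5 : c1 * (v + 1) ≤ 1 + v * (δ * Real.log 2) := by
        have a1 : c1 * v ≤ (δ * Real.log 2) * v := by
          apply mul_le_mul_of_nonneg_right (min_le_right _ _) (by positivity)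
        nlinarith
      rw [div_mul_eq_mul_div, one_mul, le_div_iff₀ hc10]
      linarith
    · -- large primes
      push Not at h
      have h2 : (2 : ℝ) ≤ (p : ℝ) ^ δ := by
        have h3 : (2 : ℝ) ^ (1 / δ) ≤ p := by
          refine (Nat.le_ceil _).trans ?_
          exact_mod_cast h
        calc (2 : ℝ) = ((2 : ℝ) ^ (1 / δ)) ^ δ := by
              rw [← rpow_mul (by norm_num), one_div, inv_mul_cancel₀ hδ.ne', rpow_one]
          _ ≤ (p : ℝ) ^ δ := rpow_le_rpow (by positivity) h3 hδ.le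
      rw [one_mul]
      have h3 : (v : ℝ) + 1 ≤ 2 ^ v := by
        have : v + 1 ≤ 2 ^ v := Nat.lt_two_pow_self
        exact_mod_cast this
      calc (v : ℝ) + 1 ≤ 2 ^ v := h3
        _ ≤ ((p : ℝ) ^ δ) ^ v := by gcongr
  have h2 : ∏ p ∈ n.primeFactors, (((n.factorization p : ℕ) : ℝ) + 1) ≤
      (∏ p ∈ n.primeFactors, c p) * ∏ p ∈ n.primeFactors, ((p : ℝ) ^ (n.factorization p)) ^ δ := by
    rw [← prod_mul_distrib]
    apply prod_le_prod
    · intro p _; positivity
    · exact h1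
  have h3 : ∏ p ∈ n.primeFactors, ((p : ℝ) ^ (n.factorization p)) ^ δ = (n : ℝ) ^ δ := by
    rw [finsetProd_rpow _ _ (fun p _ => by positivity)]
    congr 1
    have := Nat.prod_factorization_pow_eq_self hn.ne'
    unfold Finsupp.prod at this
    rw [Nat.support_factorization] at this
    have h6 := congrArg (fun m : ℕ => (m : ℝ)) this
    simp only [Nat.cast_prod, Nat.cast_pow] at h6
    exact h6
  have h4 : ∏ p ∈ n.primeFactors, c p ≤ (1 / c1) ^ P0 := by
    simp only [hc]
    rw [prod_ite, prod_const, prod_const_one, mul_one]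
    have h5 : (n.primeFactors.filter (fun p => p < P0)).card ≤ P0 := by
      have hsub : n.primeFactors.filter (fun p => p < P0) ⊆ range P0 := by
        intro p hp
        rw [mem_range]
        exact (mem_filter.1 hp).2
      have := card_le_card hsub
      rwa [card_range] at this
    exact pow_le_pow_right₀ hC1 h5
  rw [h3] at h2
  refine h2.trans ?_
  gcongr

end Pool.Agent.Lib.MP_42948a_nt.OA
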