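import Pool.Agent.Lib.MP_42948a_nt.OA.Defs

/-!
# Hecke relation (job RB)

The divisors of `p m` are the divisors of `m` together with `p a`, `a ∣ m`; a divisor of the second kind is of the first kind iff
`p a ∣ m`, i.e. `p ∣ m` and `a ∣ m / p`. So `rr χ (p m) = ∑_{a ∣ m} χ a + ∑_{a ∣ m} χ (p a) - [p ∣ m] ∑_{a ∣ m/p} χ (p a)`.
(`(p*m).divisors = m.divisors ∪ m.divisors.image (p * ·)`, `Finset.sum_union_inter`, `Finset.sum_image`;
`Nat.Prime.divisors_mul`-type lemmas may exist; needs the case `a ∣ p m → a ∣ m ∨ ∃ b, a = p b ∧ b ∣ m`.)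
-/

namespace Pool.Agent.Lib.MP_42948a_nt.OA

open Finset

theorem rr_hecke (χ : ℕ → ℝ) (hmul : ∀ m n, χ (m * n) = χ m * χ n) {p : ℕ} (hp : p.Prime) (m : ℕ)
    (hm : 0 < m) :
    rr χ (p * m) = (1 + χ p) * rr χ m - χ p * (if p ∣ m then rr χ (m / p) else 0) := by
  classical
  have hinj : ∀ S : Finset ℕ, ∑ a ∈ S.image (fun b => p * b), χ a = χ p * ∑ a ∈ S, χ a := by
    intro S
    rw [Finset.sum_image (fun a _ b _ hab => Nat.eq_of_mul_eq_mul_left hp.pos hab), Finset.mul_sum]
    exact Finset.sum_congr rfl (fun a _ => hmul p a)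
  have hunion : (p * m).divisors = m.divisors ∪ m.divisors.image (fun b => p * b) := by
    ext a
    rw [Finset.mem_union, Nat.mem_divisors, Nat.mem_divisors, Finset.mem_image]
    constructor
    · rintro ⟨ha, -⟩
      by_cases hpa : p ∣ a
      · obtain ⟨b, rfl⟩ := hpa
        right
        exact ⟨b, Nat.mem_divisors.mpr ⟨Nat.dvd_of_mul_dvd_mul_left hp.pos ha, hm.ne'⟩, rfl⟩
      · left
        exact ⟨((hp.coprime_iff_not_dvd.mpr hpa).symm).dvd_of_dvd_mul_left ha, hm.ne'⟩
    · rintro (⟨ha, -⟩ | ⟨b, hb, rfl⟩)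
      · exact ⟨ha.mul_left p, (Nat.mul_pos hp.pos hm).ne'⟩
      · exact ⟨Nat.mul_dvd_mul_left p (Nat.dvd_of_mem_divisors hb), (Nat.mul_pos hp.pos hm).ne'⟩
  have hinter : ∑ a ∈ m.divisors ∩ m.divisors.image (fun b => p * b), χ a =
      χ p * (if p ∣ m then rr χ (m / p) else 0) := by
    split_ifs with hpm
    · have h1 : m.divisors ∩ m.divisors.image (fun b => p * b) = (m / p).divisors.image (fun b => p * b) := by
        ext a
        rw [Finset.mem_inter, Finset.mem_image, Finset.mem_image, Nat.mem_divisors]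
        constructor
        · rintro ⟨⟨ha, -⟩, b, hb, rfl⟩
          refine ⟨b, Nat.mem_divisors.mpr ⟨?_, ?_⟩, rfl⟩
          · obtain ⟨k, hk⟩ := ha
            refine ⟨k, ?_⟩
            rw [hk, mul_assoc, Nat.mul_div_cancel_left _ hp.pos]
          · exact (Nat.div_pos (Nat.le_of_dvd hm hpm) hp.pos).ne'
        · rintro ⟨b, hb, rfl⟩
          have hb' := Nat.dvd_of_mem_divisors hb
          have h2 : p * b ∣ m := by
            obtain ⟨k, hk⟩ := hpm
            rw [hk, Nat.mul_div_cancel_left _ hp.pos] at hb'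
            rw [hk]
            exact Nat.mul_dvd_mul_left p hb'
          exact ⟨⟨h2, hm.ne'⟩, b, Nat.mem_divisors.mpr ⟨(Dvd.intro_left p rfl).trans h2, hm.ne'⟩, rfl⟩
      rw [h1, hinj]
      rfl
    · have h1 : m.divisors ∩ m.divisors.image (fun b => p * b) = ∅ := by
        rw [Finset.eq_empty_iff_forall_notMem]
        intro a ha
        rw [Finset.mem_inter, Finset.mem_image] at ha
        obtain ⟨ha, b, hb, rfl⟩ := ha
        exact hpm ((Dvd.intro b rfl).trans (Nat.dvd_of_mem_divisors ha))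
      rw [h1, Finset.sum_empty, mul_zero]
  have hsum := Finset.sum_union_inter (s₁ := m.divisors) (s₂ := m.divisors.image (fun b => p * b)) (f := χ)
  rw [← hunion, hinter, hinj] at hsum
  unfold rr at *
  linarith

end Pool.Agent.Lib.MP_42948a_nt.OA
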