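import Pool.Agent.Lib.MP_42948a_nt.OA.Defs

/-!
# Abel summation (job RC)

`F k = ∑_{n ∈ Icc 1 k} f n`, `F 0 = 0`, `|F k| ≤ M`. `∑_{a=1}^n f a h a = F n h n - ∑_{a=1}^{n-1} F a (h (a+1) - h a)` (induction on `n`).
`abel_tail`: for `m < n`, `∑_{m < a ≤ n} f a / a = F n / n - F m / (m+1) + ∑_{m < a < n} F a (1/a - 1/(a+1))`, so the absolute value is at
most `M (1/n + 1/(m+1) + 1/(m+1) - 1/n) = 2 M / (m+1)`. (Induction on `n` for the identity.)
-/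

namespace Pool.Agent.Lib.MP_42948a_nt.OA

open Finset

private theorem RC_id1 (f h : ℕ → ℝ) (n : ℕ) (hn : 1 ≤ n) :
    ∑ a ∈ Icc 1 n, f a * h a = (∑ k ∈ Icc 1 n, f k) * h n -
      ∑ a ∈ Ico 1 n, (∑ k ∈ Icc 1 a, f k) * (h (a + 1) - h a) := by
  induction n, hn using Nat.le_induction with
  | base => simp
  | succ n hn ih =>
    rw [Finset.sum_Icc_succ_top (by omega), Finset.sum_Icc_succ_top (by omega), ih,
      Finset.sum_Ico_succ_top hn]
    ring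

private theorem RC_id2 (f : ℕ → ℝ) (m n : ℕ) (hmn : m ≤ n) :
    ∑ a ∈ Ioc m n, f a / a = (∑ k ∈ Icc 1 n, f k) / (n + 1) - (∑ k ∈ Icc 1 m, f k) / (m + 1) +
      ∑ a ∈ Ioc m n, (∑ k ∈ Icc 1 a, f k) * (1 / a - 1 / (a + 1)) := by
  induction n, hmn using Nat.le_induction with
  | base => simp
  | succ n hn ih =>
    rw [Finset.sum_Ioc_succ_top hn, Finset.sum_Ioc_succ_top hn, ih,
      Finset.sum_Icc_succ_top (by omega)]
    push_cast
    have h1 : (n : ℝ) + 1 ≠ 0 := by positivity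
    have h2 : (n : ℝ) + 1 + 1 ≠ 0 := by positivity
    field_simp
    ring

private theorem RC_tel (m n : ℕ) (hmn : m ≤ n) :
    ∑ a ∈ Ioc m n, (1 / (a : ℝ) - 1 / (a + 1)) = 1 / (m + 1) - 1 / (n + 1) := by
  induction n, hmn using Nat.le_induction with
  | base => simp
  | succ n hn ih =>
    rw [Finset.sum_Ioc_succ_top hn, ih]
    push_cast
    ring

theorem abel_one (f h : ℕ → ℝ) (M : ℝ) (hM : ∀ N : ℕ, |∑ n ∈ Icc 1 N, f n| ≤ M) (n : ℕ) (hn : 1 ≤ n) :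
    |∑ a ∈ Icc 1 n, f a * h a| ≤ M * (|h n| + ∑ a ∈ Ico 1 n, |h (a + 1) - h a|) := by
  rw [RC_id1 f h n hn, mul_add, Finset.mul_sum]
  refine (abs_sub _ _).trans (add_le_add ?_ ?_)
  · rw [abs_mul]
    exact mul_le_mul_of_nonneg_right (hM n) (abs_nonneg _)
  · refine (Finset.abs_sum_le_sum_abs _ _).trans (Finset.sum_le_sum fun a _ => ?_)
    rw [abs_mul]
    exact mul_le_mul_of_nonneg_right (hM a) (abs_nonneg _)

theorem abel_tail (f : ℕ → ℝ) (M : ℝ) (hM : ∀ N : ℕ, |∑ n ∈ Icc 1 N, f n| ≤ M) (m n : ℕ) :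
    |∑ a ∈ Ioc m n, f a / a| ≤ 2 * M / (m + 1) := by
  have hM0 : 0 ≤ M := (abs_nonneg _).trans (hM 0)
  have hm : (0 : ℝ) < (m : ℝ) + 1 := by positivity
  rcases Nat.lt_or_ge n m with h | h
  · rw [Finset.Ioc_eq_empty (by omega)]
    simp only [Finset.sum_empty, abs_zero]
    positivity
  · have hn : (0 : ℝ) < (n : ℝ) + 1 := by positivity
    rw [RC_id2 f m n h]
    have h1 : |(∑ k ∈ Icc 1 n, f k) / ((n : ℝ) + 1)| ≤ M / (n + 1) := by
      rw [abs_div, abs_of_pos hn]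
      exact div_le_div_of_nonneg_right (hM n) hn.le
    have h2 : |(∑ k ∈ Icc 1 m, f k) / ((m : ℝ) + 1)| ≤ M / (m + 1) := by
      rw [abs_div, abs_of_pos hm]
      exact div_le_div_of_nonneg_right (hM m) hm.le
    have h3 : |∑ a ∈ Ioc m n, (∑ k ∈ Icc 1 a, f k) * (1 / (a : ℝ) - 1 / (a + 1))| ≤
        M * (1 / (m + 1) - 1 / (n + 1)) := by
      rw [← RC_tel m n h, Finset.mul_sum]
      refine (Finset.abs_sum_le_sum_abs _ _).trans (Finset.sum_le_sum fun a ha => ?_)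
      have ha1 : (0 : ℝ) < a := by
        have := (Finset.mem_Ioc.1 ha).1
        exact_mod_cast (by omega : 0 < a)
      have h0 : 0 ≤ 1 / (a : ℝ) - 1 / (a + 1) := by
        rw [sub_nonneg]
        exact one_div_le_one_div_of_le ha1 (by linarith)
      rw [abs_mul, abs_of_nonneg h0]
      exact mul_le_mul_of_nonneg_right (hM a) h0
    calc |(∑ k ∈ Icc 1 n, f k) / ((n : ℝ) + 1) - (∑ k ∈ Icc 1 m, f k) / ((m : ℝ) + 1) +
          ∑ a ∈ Ioc m n, (∑ k ∈ Icc 1 a, f k) * (1 / (a : ℝ) - 1 / (a + 1))|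
        ≤ |(∑ k ∈ Icc 1 n, f k) / ((n : ℝ) + 1)| + |(∑ k ∈ Icc 1 m, f k) / ((m : ℝ) + 1)| +
          |∑ a ∈ Ioc m n, (∑ k ∈ Icc 1 a, f k) * (1 / (a : ℝ) - 1 / (a + 1))| :=
          (abs_add_le _ _).trans (add_le_add_left (abs_sub _ _) _)
      _ ≤ M / (n + 1) + M / (m + 1) + M * (1 / (m + 1) - 1 / (n + 1)) :=
          add_le_add (add_le_add h1 h2) h3
      _ = 2 * M / (m + 1) := by ring

end Pool.Agent.Lib.MP_42948a_nt.OA
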