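import Pool.Agent.Lib.MP_42948a_nt.OA.Defs

/-!
# Multiples of `T` in one residue class (job EA)

Let `δ = ∏_{p ∈ T} p`, a natural number coprime to `d` (all `p ∈ T` are primes not dividing `d`). `∀ p ∈ T, p ∣ n` iff `δ ∣ n`
(`Finset.prod_primes_dvd` for distinct primes). By the Chinese remainder theorem (`Nat.chineseRemainder`) the conditions `δ ∣ n` and
`n ≡ c mod d` are equivalent to `n ≡ v mod (d δ)` for some `v`; the number of such `n ∈ [1, N]` (`= Ioc 0 N`) is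
`⌊(N - v)/(dδ)⌋ - ⌊(0 - v)/(dδ)⌋` (`Nat.Ioc_filter_modEq_card` or `Int.Ioc_filter_modEq_card`), which differs from `N/(dδ)` by at most `1`.
-/

namespace Pool.Agent.Lib.MP_42948a_nt.OA

open Finset

theorem EA_floor (N r v : ℕ) (hr : 0 < r) :
    |(((Ioc 0 N).filter (fun n => n ≡ v [MOD r])).card : ℝ) - (N : ℝ) / r| ≤ 1 := by
  have h1 := Nat.Ioc_filter_modEq_card 0 N hr v
  have hr' : (0 : ℚ) < r := by exact_mod_cast hr
  have f1 := Int.floor_le (((N : ℚ) - v) / r)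
  have f2 := Int.lt_floor_add_one (((N : ℚ) - v) / r)
  have f3 := Int.floor_le ((((0 : ℕ) : ℚ) - v) / r)
  have f4 := Int.lt_floor_add_one ((((0 : ℕ) : ℚ) - v) / r)
  set F : ℤ := ⌊((N : ℚ) - v) / r⌋ with hF
  set G : ℤ := ⌊(((0 : ℕ) : ℚ) - v) / r⌋ with hG
  have hd : ((N : ℚ) - v) / r - (((0 : ℕ) : ℚ) - v) / r = (N : ℚ) / r := by
    push_cast
    field_simp
    ring
  have hN : (0 : ℚ) ≤ (N : ℚ) / r := by positivity
  have h2 : |(((max (F - G) 0 : ℤ)) : ℚ) - (N : ℚ) / r| ≤ 1 := by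
    push_cast
    rw [← hd] at hN ⊢
    rcases le_total ((F : ℚ) - G) 0 with h3 | h3
    · rw [max_eq_right h3, abs_le]
      constructor <;> linarith
    · rw [max_eq_left h3, abs_le]
      constructor <;> linarith
  rw [← h1] at h2
  have h3 : ((|((((Ioc 0 N).filter (fun n => n ≡ v [MOD r])).card : ℤ) : ℚ) - (N : ℚ) / r| : ℚ) : ℝ) ≤ ((1 : ℚ) : ℝ) := by
    exact_mod_cast h2
  push_cast at h3
  exact h3

theorem count_class (d : ℕ) (hd : 0 < d) (c : (ZMod d)ˣ) (T : Finset ℕ) (hT : ∀ p ∈ T, p.Prime)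
    (hco : ∀ p ∈ T, ¬ p ∣ d) (N : ℕ) :
    |((cls N T {(c : ZMod d)}).card : ℝ) - N / (d * ∏ p ∈ T, (p : ℝ))| ≤ 1 := by
  classical
  have : NeZero d := ⟨hd.ne'⟩
  set δ : ℕ := ∏ p ∈ T, p with hδ
  have hδ0 : 0 < δ := Finset.prod_pos fun p hp => (hT p hp).pos
  have hcop : Nat.Coprime δ d := by
    rw [hδ]
    exact Nat.Coprime.prod_left fun p hp => ((hT p hp).coprime_iff_not_dvd).2 (hco p hp)
  obtain ⟨v, hv1, hv2⟩ := Nat.chineseRemainder hcop 0 (c : ZMod d).val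
  have hset : cls N T {(c : ZMod d)} = (Ioc 0 N).filter (fun n => n ≡ v [MOD δ * d]) := by
    ext n
    have hm : n ∈ cls N T {(c : ZMod d)} ↔ (1 ≤ n ∧ n ≤ N) ∧ (∀ p ∈ T, p ∣ n) ∧ (n : ZMod d) ∈ ({(c : ZMod d)} : Set (ZMod d)) := by
      unfold cls
      simp only [Finset.mem_filter, Finset.mem_Icc]
    rw [hm, Finset.mem_filter, Finset.mem_Ioc]
    refine and_congr Iff.rfl ?_
    rw [← Nat.modEq_and_modEq_iff_modEq_mul hcop]
    refine and_congr ?_ ?_
    · constructor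
      · intro h
        have h1 : δ ∣ n := Finset.prod_primes_dvd n (fun p hp => (hT p hp).prime) h
        exact ((Nat.modEq_zero_iff_dvd).2 h1).trans hv1.symm
      · intro h p hp
        have h1 : δ ∣ n := (Nat.modEq_zero_iff_dvd).1 (h.trans hv1)
        exact (Finset.dvd_prod_of_mem _ hp).trans h1
    · rw [Set.mem_singleton_iff]
      constructor
      · intro h
        have h1 : n ≡ (c : ZMod d).val [MOD d] := by
          rw [← ZMod.natCast_eq_natCast_iff, h, ZMod.natCast_val, ZMod.cast_id', id]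
        exact h1.trans hv2.symm
      · intro h
        have h1 : n ≡ (c : ZMod d).val [MOD d] := h.trans hv2
        rw [← ZMod.natCast_eq_natCast_iff, ZMod.natCast_val, ZMod.cast_id', id] at h1
        exact h1
  rw [hset]
  have h1 := EA_floor N (δ * d) v (Nat.mul_pos hδ0 hd)
  have h2 : ((δ * d : ℕ) : ℝ) = (d : ℝ) * ∏ p ∈ T, (p : ℝ) := by
    rw [hδ]
    push_cast
    ring
  rw [h2] at h1
  exact h1

end Pool.Agent.Lib.MP_42948a_nt.OA
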