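import Pool.Agent.Lib.MP_42948a_nt.OA.EG

/-!
# Every coset contains a small rough number (job EI)

As in the file `EH`, with `A = cls N ∅ (cosetSet H q)`, `w = 1`, `g p = if p ∣ d then 0 else 1/p`, `X = N |H| / d`, `R = 1 + BB d`
(`BB d ≥ 0`), and `coset_count_mul` instead of `count_class`. If `p ∈ T` divides `d` then no element of `A` is divisible by `p`
(elements of a coset are units mod `d`). The number of rough elements of `A` is `≥ X/(4 z^2) - z^K (1 + BB d) > 0` by `hN`.
-/

namespace Pool.Agent.Lib.MP_42948a_nt.OA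

open Finset

theorem exists_rough_coset (K : ℕ) (hK : SieveProp K) (z d N : ℕ) (hz : 2 ≤ z) [NeZero d]
    (H : Subgroup (ZMod d)ˣ)
    (hN : (z : ℝ) ^ K * (1 + BB d) < (N : ℝ) * (Nat.card H : ℝ) / (4 * d * (z : ℝ) ^ 2)) (q : (ZMod d)ˣ) :
    ∃ n : ℕ, Rough z n ∧ n ≤ N ∧ ∃ h ∈ H, (n : ZMod d) = ((q * h : (ZMod d)ˣ) : ZMod d) := by
  classical
  have hd0 : (0 : ℝ) < d := by exact_mod_cast Nat.pos_of_ne_zero (NeZero.ne d)
  have hd1 : (1 : ℝ) ≤ d := by exact_mod_cast Nat.pos_of_ne_zero (NeZero.ne d)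
  have hz0 : (0 : ℝ) < z := by
    have : 0 < z := by omega
    exact_mod_cast this
  have hB : 0 ≤ BB d := by
    unfold BB
    have := Real.log_nonneg hd1
    positivity
  set A : Finset ℕ := cls N ∅ (cosetSet H q) with hA
  set g : ℕ → ℝ := fun p => if p ∣ d then 0 else 1 / p with hg
  set X : ℝ := (N : ℝ) * (Nat.card H : ℝ) / d with hX
  have key := hK z hz A (fun _ => 1) g X (1 + BB d) (fun _ _ => zero_le_one) ?_ (by positivity)
    (by positivity) ?_
  · -- conclusion
    have hpos : 0 < ∑ n ∈ A.filter (fun n => ∀ p ∈ PP z, ¬ p ∣ n), (1 : ℝ) := by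
      refine lt_of_lt_of_le ?_ key
      have : X / (4 * (z : ℝ) ^ 2) = (N : ℝ) * (Nat.card H : ℝ) / (4 * d * (z : ℝ) ^ 2) := by
        rw [hX]; field_simp
      rw [this]
      linarith
    have hne : (A.filter (fun n => ∀ p ∈ PP z, ¬ p ∣ n)).Nonempty := by
      by_contra hcon
      rw [not_nonempty_iff_eq_empty] at hcon
      rw [hcon, sum_empty] at hpos
      exact lt_irrefl _ hpos
    obtain ⟨n, hn⟩ := hne
    rw [mem_filter] at hn
    obtain ⟨hn1, hn2⟩ := hn
    rw [hA] at hn1
    unfold cls at hn1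
    rw [mem_filter, mem_Icc] at hn1
    obtain ⟨⟨hn3, hn4⟩, -, hn5⟩ := hn1
    refine ⟨n, ⟨hn3, fun p hp hpn => ?_⟩, hn4, hn5⟩
    by_contra hcon
    push Not at hcon
    refine hn2 p ?_ hpn
    unfold PP
    rw [mem_filter, mem_Icc]
    exact ⟨⟨hp.one_le, hcon⟩, hp⟩
  · -- densities
    intro p hp
    unfold PP at hp
    rw [mem_filter, mem_Icc] at hp
    have hp2 : (2 : ℝ) ≤ p := by exact_mod_cast hp.2.two_le
    have hp0 : (0 : ℝ) < p := by linarith
    simp only [hg]
    split_ifs with h
    · refine ⟨le_refl _, by norm_num, by positivity⟩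
    · refine ⟨by positivity, ?_, ?_⟩
      · rw [div_le_iff₀ hp0]; linarith
      · gcongr; norm_num
  · -- remainders
    intro T hT _
    have hTp : ∀ p ∈ T, p.Prime := by
      intro p hp
      have := hT hp
      unfold PP at this
      rw [mem_filter] at this
      exact this.2
    have hsum : ∑ n ∈ A.filter (fun n => ∀ p ∈ T, p ∣ n), (1 : ℝ) = ((cls N T (cosetSet H q)).card : ℝ) := by
      rw [sum_const, nsmul_eq_mul, mul_one]
      congr 2
      ext n
      rw [hA]
      unfold cls
      simp only [mem_filter, mem_Icc, notMem_empty, false_implies, implies_true, true_and]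
      tauto
    rw [hsum]
    by_cases hex : ∃ p ∈ T, p ∣ d
    · obtain ⟨p, hpT, hpd⟩ := hex
      have h1 : ∏ p ∈ T, g p = 0 := by
        apply prod_eq_zero hpT
        simp only [hg]
        rw [if_pos hpd]
      have h2 : cls N T (cosetSet H q) = ∅ := by
        rw [eq_empty_iff_forall_notMem]
        intro n hn
        unfold cls at hn
        rw [mem_filter, mem_Icc] at hn
        obtain ⟨-, hn1, h, hh, hn2⟩ := hn
        have hu : IsUnit (n : ZMod d) := by
          rw [hn2]; exact Units.isUnit _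
        rw [ZMod.isUnit_iff_coprime] at hu
        have := Nat.dvd_gcd (hn1 p hpT) hpd
        rw [hu] at this
        exact (hTp p hpT).one_lt.ne' (Nat.dvd_one.mp this)
      rw [h1, h2]
      simp
      positivity
    · push Not at hex
      have h1 : ∏ p ∈ T, g p = 1 / ∏ p ∈ T, (p : ℝ) := by
        rw [one_div, ← prod_inv_distrib]
        apply prod_congr rfl
        intro p hp
        simp only [hg]
        rw [if_neg (hex p hp), one_div]
      have h2 := coset_count_mul d H q T hTp hex N
      rw [h1, hX]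
      have h3 : (N : ℝ) * (Nat.card H : ℝ) / d * (1 / ∏ p ∈ T, (p : ℝ)) =
          (N : ℝ) * (Nat.card H : ℝ) / (d * ∏ p ∈ T, (p : ℝ)) := by
        rw [div_mul_div_comm, mul_one]
      rw [h3]
      exact h2

end Pool.Agent.Lib.MP_42948a_nt.OA
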