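import Pool.Agent.Lib.MP_42948a_nt.OA.Defs

/-!
# The subgroup generated by small rough numbers is large (job FA)

Let `Q = primesOff d z Y`. To `f : Fin k → Q` attach `P f = ∏ i, f i ≤ Y^k ≤ d`, an integer coprime to `d`; its class lies in
`Hgen d z Y` (each `f i` is a rough number `≤ Y`: a prime `> z`; its class is a unit as `f i ∤ d`). If `P f` and `P f'` have the same class
mod `d` then `P f = P f'`: both are in `[1, d]`, and the value `d` is impossible for `d ≥ 2` (coprimality), so both are the residue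
`ZMod.val`. The fibre of `P` over an integer `m` has at most `k^k` elements: every `f i` is a prime factor of `m`, and `m = P f0` (if
the fibre is not empty) has at most `k` distinct prime factors, so the fibre is contained in the set of functions
`Fin k → m.primeFactors`. Hence `#Q^k ≤ k^k * #(image in Hgen) ≤ k^k * |Hgen|` (`Finset.card_le_mul_card_image`,
`Fintype.card_pi`/`Fintype.card_fun`).
-/

namespace Pool.Agent.Lib.MP_42948a_nt.OA

open Finset

theorem card_Hgen (d z Y k : ℕ) (hd : 2 ≤ d) (hY : Y ^ k ≤ d) :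
    ((primesOff d z Y).card) ^ k ≤ k ^ k * Nat.card (Hgen d z Y) := by
  classical
  have : NeZero d := ⟨by omega⟩
  set Q := primesOff d z Y with hQ
  set S : Finset (Fin k → ℕ) := Fintype.piFinset (fun _ : Fin k => Q) with hS
  set P : (Fin k → ℕ) → ℕ := fun f => ∏ i, f i with hP
  have hmemQ : ∀ p ∈ Q, p.Prime ∧ z < p ∧ p ≤ Y ∧ p.Coprime d := by
    intro p hp
    rw [hQ] at hp
    unfold primesOff at hp
    rw [mem_filter, mem_Icc] at hp
    exact ⟨hp.2.1, hp.2.2.1, hp.1.2, (Nat.Prime.coprime_iff_not_dvd hp.2.1).2 hp.2.2.2⟩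
  have hfS : ∀ f ∈ S, ∀ i, f i ∈ Q := fun f hf i => (Fintype.mem_piFinset.1 hf) i
  have hcardS : S.card = Q.card ^ k := by
    rw [hS, Fintype.card_piFinset_const]
  -- the fibres
  have hfib : ∀ m ∈ S.image P, (S.filter fun f => P f = m).card ≤ k ^ k := by
    intro m hm
    obtain ⟨f0, hf0, rfl⟩ := mem_image.1 hm
    have h1 : (P f0).primeFactors ⊆ univ.image f0 := by
      intro p hp
      have hpp := Nat.prime_of_mem_primeFactors hp
      have hd := Nat.dvd_of_mem_primeFactors hp
      obtain ⟨i, _, hi⟩ := (hpp.prime.dvd_finsetProd_iff _).1 hd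
      have h2 := (hmemQ _ (hfS f0 hf0 i)).1
      exact mem_image.2 ⟨i, mem_univ _, ((Nat.prime_dvd_prime_iff_eq hpp h2).1 hi).symm⟩
    have h2 : (P f0).primeFactors.card ≤ k :=
      (card_le_card h1).trans (card_image_le.trans (by simp))
    have h3 : (S.filter fun f => P f = P f0) ⊆
        Fintype.piFinset (fun _ : Fin k => (P f0).primeFactors) := by
      intro f hf
      rw [mem_filter] at hf
      rw [Fintype.mem_piFinset]
      intro i
      have h4 := (hmemQ _ (hfS f hf.1 i)).1
      refine Nat.mem_primeFactors.2 ⟨h4, ?_, ?_⟩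
      · rw [← hf.2]
        exact Finset.dvd_prod_of_mem f (mem_univ i)
      · exact Finset.prod_ne_zero_iff.2 fun j _ => (hmemQ _ (hfS f0 hf0 j)).1.ne_zero
    calc (S.filter fun f => P f = P f0).card ≤ _ := card_le_card h3
      _ = (P f0).primeFactors.card ^ k := by rw [Fintype.card_piFinset_const]
      _ ≤ k ^ k := Nat.pow_le_pow_left h2 k
  have hmain := card_le_mul_card_image S (k ^ k) hfib
  rw [hcardS] at hmain
  refine hmain.trans (Nat.mul_le_mul_left _ ?_)
  -- the image is contained in the subgroup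
  have hcop : ∀ f ∈ S, (P f).Coprime d := fun f hf =>
    Nat.Coprime.prod_left fun i _ => (hmemQ _ (hfS f hf i)).2.2.2
  have hlt : ∀ f ∈ S, P f < d := by
    intro f hf
    have h1 : P f ≤ Y ^ k := by
      calc P f ≤ ∏ _i : Fin k, Y := Finset.prod_le_prod' fun i _ => (hmemQ _ (hfS f hf i)).2.2.1
        _ = Y ^ k := by simp
    rcases Nat.lt_or_ge (P f) d with h2 | h2
    · exact h2
    · have h3 : P f = d := le_antisymm (h1.trans hY) h2
      have h4 := hcop f hf
      rw [h3, Nat.coprime_self] at h4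
      omega
  have hgen : ∀ f ∈ S, ∃ c ∈ Hgen d z Y, ((P f : ℕ) : ZMod d) = (c : ZMod d) := by
    intro f hf
    refine ⟨∏ i, ZMod.unitOfCoprime (f i) (hmemQ _ (hfS f hf i)).2.2.2, ?_, ?_⟩
    · refine Subgroup.prod_mem _ fun i _ => Subgroup.subset_closure ⟨f i, ⟨?_, ?_⟩, ?_, ?_⟩
      · exact (hmemQ _ (hfS f hf i)).1.pos
      · intro p hp hpf
        rw [(Nat.prime_dvd_prime_iff_eq hp (hmemQ _ (hfS f hf i)).1).1 hpf]
        exact (hmemQ _ (hfS f hf i)).2.1
      · exact (hmemQ _ (hfS f hf i)).2.2.1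
      · rw [ZMod.coe_unitOfCoprime]
    · rw [Units.coe_prod]
      simp only [ZMod.coe_unitOfCoprime]
      rw [hP]
      push_cast
      rfl
  have hex : ∀ m : {m // m ∈ S.image P}, ∃ c : Hgen d z Y, ((m.1 : ℕ) : ZMod d) = ((c : (ZMod d)ˣ) : ZMod d) := by
    intro m
    obtain ⟨f, hf, hm⟩ := mem_image.1 m.2
    obtain ⟨c, hc, hc'⟩ := hgen f hf
    exact ⟨⟨c, hc⟩, by rw [← hm]; exact hc'⟩
  choose F hF using hex
  have hinj : Function.Injective F := by
    intro m m' hmm
    have h1 : ((m.1 : ℕ) : ZMod d) = ((m'.1 : ℕ) : ZMod d) := by rw [hF m, hF m', hmm]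
    obtain ⟨f, hf, hm⟩ := mem_image.1 m.2
    obtain ⟨f', hf', hm'⟩ := mem_image.1 m'.2
    rw [ZMod.natCast_eq_natCast_iff] at h1
    have h2 := Nat.ModEq.eq_of_lt_of_lt h1 (hm ▸ hlt f hf) (hm' ▸ hlt f' hf')
    exact Subtype.ext h2
  have h1 := Nat.card_le_card_of_injective F hinj
  rwa [Nat.card_eq_fintype_card, Fintype.card_coe] at h1

end Pool.Agent.Lib.MP_42948a_nt.OA
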