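import Pool.Agent.Lib.MP_42948a_nt.OA.Defs

/-!
# A multiplicative sign that is constant on the rough numbers of one class is a character (job GA)

Rough means `Rough z`. `Y ≤ X`, `X2 ≤ X` because `1 ≤ X1` and `1 ≤ X2` (rough numbers are positive).
Claim 1. If `n, n'` are rough, `≤ X`, in the same unit class `c`, then `g n = g n'`: take `m` rough `≤ X1` in the class `a c⁻¹` (`hE1`);
`n m`, `n' m` are rough, in the class `a`, so `g n * g m = s = g n' * g m` and `g m = ±1`.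
Define `f c = g (n_c)`, `n_c` a rough number `≤ X1 ≤ X` in the class `c` (choice from `hE1`). So `g n = f c` for all rough `n ≤ X` of
class `c`; `f 1 = g 1 = 1` (`g 1 * g 1 = g 1`), `f c = ±1`.
Claim 2. For rough `u ≤ Y` whose class `u'` is a unit and all `c`: `f (u' c) = g (u n_c) = g u * f c = f u' * f c` (`u n_c ≤ Y X1 ≤ X`).
Claim 3. The set of `h` with `∀ c, f (h c) = f h * f c` contains the generators of `Hgen`, `1`, is closed under products and inverses
(`f (h h⁻¹ c) = f h * f (h⁻¹ c)`, so `f (h⁻¹ c) = f h * f c`, and `c = 1` gives `f h⁻¹ = f h`), so it contains `Hgen`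
(`Subgroup.closure_induction`).
Claim 4. For all `c1, c2`: choose rough `m_i ≤ X2` in the classes `c_i h_i`, `h_i ∈ Hgen` (`hE2`). `m1 m2` is rough, `≤ X2^2 ≤ X`, so
`f (c1 h1 c2 h2) = f (c1 h1) f (c2 h2)`; by Claim 3 (commutativity) the left side is `f h1 f h2 f (c1 c2)` (`h1 h2 ∈ Hgen`:
`f (h1 h2) = f h1 f h2`), the right side is `f h1 f c1 f h2 f c2`. Cancel: `f (c1 c2) = f c1 f c2`.
So `f` is a homomorphism into `{1, -1}`; lift to `ℤˣ` (e.g. `ψ c = if f c = 1 then 1 else -1`, or `Int.units` via `isUnit`).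
-/

namespace Pool.Agent.Lib.MP_42948a_nt.OA

open Finset

/-- a multiplicative map to `ℤ` with values `±1` lifts to `ℤˣ` -/
private theorem GB_lift {G : Type*} [Group G] (f : G → ℤ) (hv : ∀ c, f c = 1 ∨ f c = -1)
    (hm : ∀ b c, f (b * c) = f b * f c) : ∃ ψ : G →* ℤˣ, ∀ c, f c = ((ψ c : ℤˣ) : ℤ) := by
  classical
  have h1 : f 1 = 1 := by
    have := hm 1 1
    rw [mul_one] at this
    rcases hv 1 with h | h
    · exact h
    · rw [h] at this; norm_num at this
  have hu : ∀ c, IsUnit (f c) := by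
    intro c
    rcases hv c with h | h <;> rw [h]
    · exact isUnit_one
    · exact isUnit_one.neg
  refine ⟨⟨⟨fun c => (hu c).unit, ?_⟩, ?_⟩, ?_⟩
  · apply Units.ext; simp [h1]
  · intro b c; apply Units.ext; simp [hm]
  · intro c; simp

theorem algebra_prod (d : ℕ) (z X1 X2 Y X : ℕ) (g : ℕ → ℤ)
    (hg : ∀ m n : ℕ, 0 < m → 0 < n → g (m * n) = g m * g n)
    (hv : ∀ n : ℕ, 0 < n → g n = 1 ∨ g n = -1) (a : (ZMod d)ˣ) (s : ℤ)
    (hE1 : ∀ c : (ZMod d)ˣ, ∃ n : ℕ, Rough z n ∧ n ≤ X1 ∧ (n : ZMod d) = (c : ZMod d))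
    (hE2 : ∀ b : (ZMod d)ˣ, ∃ n : ℕ, Rough z n ∧ n ≤ X2 ∧
      ∃ h ∈ Hgen d z Y, (n : ZMod d) = ((b * h : (ZMod d)ˣ) : ZMod d))
    (h1 : X1 ≤ X) (h2 : X1 * Y ≤ X) (h3 : X2 * X2 ≤ X)
    (hA : ∀ n m : ℕ, Rough z n → Rough z m → n ≤ X → m ≤ X1 →
      ((n * m : ℕ) : ZMod d) = (a : ZMod d) → g (n * m) = s) :
    ∃ ψ : (ZMod d)ˣ →* ℤˣ, ∀ n : ℕ, Rough z n → n ≤ X → ∀ c : (ZMod d)ˣ, (n : ZMod d) = (c : ZMod d) →
      g n = ((ψ c : ℤˣ) : ℤ) := by
  classical
  -- positivity facts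
  have hX1 : 1 ≤ X1 := by
    obtain ⟨n, hn, hnX, _⟩ := hE1 1
    exact le_trans hn.pos hnX
  have hX2 : 1 ≤ X2 := by
    obtain ⟨n, hn, hnX, _⟩ := hE2 1
    exact le_trans hn.pos hnX
  have hYX : Y ≤ X := le_trans (by nlinarith) h2
  have hX2X : X2 ≤ X := le_trans (by nlinarith) h3
  -- Claim 1
  have C1 : ∀ n n' : ℕ, Rough z n → Rough z n' → n ≤ X → n' ≤ X → ∀ c : (ZMod d)ˣ,
      (n : ZMod d) = (c : ZMod d) → (n' : ZMod d) = (c : ZMod d) → g n = g n' := by
    intro n n' hn hn' hnX hnX' c hc hc'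
    obtain ⟨m, hm, hmX, hmc⟩ := hE1 (a * c⁻¹)
    have key : ∀ k : ℕ, Rough z k → k ≤ X → (k : ZMod d) = (c : ZMod d) → g k * g m = s := by
      intro k hk hkX hkc
      rw [← hg k m hk.pos hm.pos]
      apply hA _ _ hk hm hkX hmX
      push_cast
      rw [hkc, hmc, ← Units.val_mul]
      congr 1
      rw [mul_comm a, mul_inv_cancel_left]
    have e1 := key n hn hnX hc
    have e2 := key n' hn' hnX' hc'
    rcases hv m hm.pos with h | h <;> rw [h] at e1 e2 <;> linarith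
  choose nn hnn hnnX hnnc using hE1
  set f : (ZMod d)ˣ → ℤ := fun c => g (nn c) with hf
  have hgf : ∀ n : ℕ, Rough z n → n ≤ X → ∀ c : (ZMod d)ˣ, (n : ZMod d) = (c : ZMod d) →
      g n = f c := by
    intro n hn hnX c hc
    exact C1 n (nn c) hn (hnn c) hnX (le_trans (hnnX c) h1) c hc (hnnc c)
  have hfv : ∀ c, f c = 1 ∨ f c = -1 := fun c => hv _ (hnn c).pos
  have hff : ∀ c, f c * f c = 1 := by
    intro c
    rcases hfv c with h | h <;> rw [h] <;> norm_num
  have hX : 1 ≤ X := le_trans hX1 h1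
  have hf1 : f 1 = 1 := by
    have e1 : g 1 = f 1 := hgf 1 (Rough.one z) hX 1 (by simp)
    have e2 := hg 1 1 one_pos one_pos
    rw [mul_one, e1] at e2
    rcases hfv 1 with h | h
    · exact h
    · rw [h] at e2; norm_num at e2
  -- Claim 2
  have C2 : ∀ u : ℕ, Rough z u → u ≤ Y → ∀ u' : (ZMod d)ˣ, (u : ZMod d) = (u' : ZMod d) →
      ∀ c, f (u' * c) = f u' * f c := by
    intro u hu huY u' huu c
    have e1 : g u = f u' := hgf u hu (le_trans huY hYX) u' huu
    have e2 : g (u * nn c) = f (u' * c) := by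
      apply hgf _ (hu.mul (hnn c))
      · refine le_trans ?_ h2
        rw [mul_comm X1 Y]
        exact Nat.mul_le_mul huY (hnnX c)
      · push_cast
        rw [huu, hnnc c]
    rw [← e2, hg _ _ hu.pos (hnn c).pos, e1]
  -- Claim 3
  have C3 : ∀ h ∈ Hgen d z Y, ∀ c, f (h * c) = f h * f c := by
    intro h hh
    unfold Hgen at hh
    induction hh using Subgroup.closure_induction with
    | mem x hx =>
      obtain ⟨u, hu, huY, huu⟩ := hx
      exact C2 u hu huY x huu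
    | one => intro c; rw [one_mul, hf1, one_mul]
    | mul x y _ _ hx hy =>
      intro c
      rw [mul_assoc, hx, hy, hx y, mul_assoc]
    | inv x _ hx =>
      have key : ∀ c, f (x⁻¹ * c) = f x * f c := by
        intro c
        have := hx (x⁻¹ * c)
        rw [mul_inv_cancel_left] at this
        rw [this, ← mul_assoc, hff, one_mul]
      intro c
      have k1 := key 1
      rw [mul_one, hf1, mul_one] at k1
      rw [key c, k1]
  -- Claim 4
  have C4 : ∀ c1 c2, f (c1 * c2) = f c1 * f c2 := by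
    intro c1 c2
    obtain ⟨m1, hm1, hmX1, k1, hk1, hmc1⟩ := hE2 c1
    obtain ⟨m2, hm2, hmX2, k2, hk2, hmc2⟩ := hE2 c2
    have e1 : g m1 = f (c1 * k1) := hgf m1 hm1 (le_trans hmX1 hX2X) _ hmc1
    have e2 : g m2 = f (c2 * k2) := hgf m2 hm2 (le_trans hmX2 hX2X) _ hmc2
    have e3 : g (m1 * m2) = f ((c1 * k1) * (c2 * k2)) := by
      apply hgf _ (hm1.mul hm2) (le_trans (Nat.mul_le_mul hmX1 hmX2) h3)
      push_cast
      rw [hmc1, hmc2]
      push_cast
      rfl
    rw [hg _ _ hm1.pos hm2.pos, e1, e2] at e3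
    have a1 : f (c1 * k1) = f k1 * f c1 := by rw [mul_comm c1, C3 k1 hk1]
    have a2 : f (c2 * k2) = f k2 * f c2 := by rw [mul_comm c2, C3 k2 hk2]
    have a3 : f (c1 * k1 * (c2 * k2)) = f k1 * (f k2 * f (c1 * c2)) := by
      have : c1 * k1 * (c2 * k2) = k1 * (k2 * (c1 * c2)) := by
        rw [mul_mul_mul_comm, mul_comm (c1 * c2), mul_assoc k1]
      rw [this, C3 k1 hk1, C3 k2 hk2]
    rw [a1, a2, a3] at e3
    have b1 := hff k1
    have b2 := hff k2
    have : f k1 * f k1 * (f k2 * f k2) * (f c1 * f c2) = f k1 * f k1 * (f k2 * f k2) * f (c1 * c2) := by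
      calc _ = f k1 * f k2 * (f k1 * f c1 * (f k2 * f c2)) := by ring
        _ = f k1 * f k2 * (f k1 * (f k2 * f (c1 * c2))) := by rw [e3]
        _ = _ := by ring
    rw [b1, b2, one_mul, one_mul, one_mul] at this
    exact this.symm
  obtain ⟨ψ, hψ⟩ := GB_lift f hfv C4
  exact ⟨ψ, fun n hn hnX c hc => by rw [hgf n hn hnX c hc, hψ]⟩

end Pool.Agent.Lib.MP_42948a_nt.OA
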