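import Pool.Agent.Lib.MP_42948a_nt.OA.Defs

/-!
# Bonferroni inequalities for elementary symmetric polynomials (job SA)

Prove by induction on `S` (`Finset.induction_on`, `g` fixed, all `r` at once) the statement
`0 ≤ (-1)^r * (bon S g r - ∏ p ∈ S, (1 - g p))`.
`S = ∅`: `esy ∅ g 0 = 1`, `esy ∅ g k = 0` for `k ≥ 1`, so `bon ∅ g r = 1` and the difference is `0`.
Step: for `p ∉ S` one has `esy (insert p S) g (k+1) = esy S g (k+1) + g p * esy S g k` (`Finset.powersetCard_succ_insert`) and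
`esy _ g 0 = 1`, hence `bon (insert p S) g (r+1) = bon S g (r+1) - g p * bon S g r` and `bon (insert p S) g 0 = 1`, while the product
gets the factor `1 - g p`. So the difference `D_{r+1}(insert p S) = D_{r+1}(S) - g p * D_r(S)` and the signs fit;
`D_0 = 1 - ∏ (1 - g) ≥ 0` (`Finset.prod_le_one`). Then `r = 2 b` gives `bon_ge`, `r = 2 b + 1` gives `bon_sub_le`
(`bon S g (2b+1) = bon S g (2b) - esy S g (2b+1)`, `Finset.sum_range_succ`).
-/

namespace Pool.Agent.Lib.MP_42948a_nt.OA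

open Finset

theorem SA_esy_zero (S : Finset ℕ) (g : ℕ → ℝ) : esy S g 0 = 1 := by
  unfold esy
  rw [Finset.powersetCard_zero, Finset.sum_singleton, Finset.prod_empty]

theorem SA_esy_succ {S : Finset ℕ} {p : ℕ} (hp : p ∉ S) (g : ℕ → ℝ) (k : ℕ) :
    esy (insert p S) g (k + 1) = esy S g (k + 1) + g p * esy S g k := by
  unfold esy
  rw [Finset.powersetCard_succ_insert hp, Finset.sum_union, Finset.sum_image, Finset.mul_sum]
  · congr 1
    refine Finset.sum_congr rfl fun T hT => ?_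
    have hpT : p ∉ T := fun h => hp ((Finset.mem_powersetCard.mp hT).1 h)
    rw [Finset.prod_insert hpT]
  · intro T hT T' hT' h
    have hpT : p ∉ T := fun h => hp ((Finset.mem_powersetCard.mp hT).1 h)
    have hpT' : p ∉ T' := fun h => hp ((Finset.mem_powersetCard.mp hT').1 h)
    rw [← Finset.erase_insert hpT, ← Finset.erase_insert hpT', h]
  · rw [Finset.disjoint_left]
    intro T hT hT'
    obtain ⟨T', _, rfl⟩ := Finset.mem_image.mp hT'
    exact hp ((Finset.mem_powersetCard.mp hT).1 (Finset.mem_insert_self p T'))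

theorem SA_bon_succ {S : Finset ℕ} {p : ℕ} (hp : p ∉ S) (g : ℕ → ℝ) (r : ℕ) :
    bon (insert p S) g (r + 1) = bon S g (r + 1) - g p * bon S g r := by
  unfold bon
  rw [Finset.sum_range_succ' _ (r + 1), Finset.sum_range_succ' _ (r + 1), SA_esy_zero,
    SA_esy_zero, Finset.mul_sum]
  have h : ∀ k ∈ range (r + 1), (-1 : ℝ) ^ (k + 1) * esy (insert p S) g (k + 1) =
      (-1 : ℝ) ^ (k + 1) * esy S g (k + 1) - g p * ((-1 : ℝ) ^ k * esy S g k) := by
    intro k _
    rw [SA_esy_succ hp, pow_succ]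
    ring
  rw [Finset.sum_congr rfl h, Finset.sum_sub_distrib]
  ring

theorem SA_main (g : ℕ → ℝ) (S : Finset ℕ) : (∀ p ∈ S, 0 ≤ g p) → (∀ p ∈ S, g p ≤ 1) →
    ∀ r : ℕ, 0 ≤ (-1 : ℝ) ^ r * (bon S g r - ∏ p ∈ S, (1 - g p)) := by
  induction S using Finset.induction_on with
  | empty =>
    intro _ _ r
    have h : bon ∅ g r = 1 := by
      unfold bon
      rw [Finset.sum_range_succ', SA_esy_zero]
      have h2 : ∀ k ∈ range r, (-1 : ℝ) ^ (k + 1) * esy ∅ g (k + 1) = 0 := by
        intro k _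
        unfold esy
        rw [Finset.powersetCard_eq_empty.mpr (by simp), Finset.sum_empty, mul_zero]
      rw [Finset.sum_congr rfl h2]
      simp
    rw [h, Finset.prod_empty, sub_self, mul_zero]
  | insert p S hp ih =>
    intro h0 h1 r
    have ih' := ih (fun q hq => h0 q (Finset.mem_insert_of_mem hq))
      (fun q hq => h1 q (Finset.mem_insert_of_mem hq))
    have hp0 := h0 p (Finset.mem_insert_self p S)
    have hp1 := h1 p (Finset.mem_insert_self p S)
    rw [Finset.prod_insert hp]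
    cases r with
    | zero =>
      have hb : bon (insert p S) g 0 = 1 := by
        unfold bon
        rw [zero_add, Finset.sum_range_one, SA_esy_zero, pow_zero, one_mul]
      rw [hb, pow_zero, one_mul, sub_nonneg]
      have h2 : ∏ q ∈ S, (1 - g q) ≤ 1 := Finset.prod_le_one
        (fun q hq => sub_nonneg.mpr (h1 q (Finset.mem_insert_of_mem hq)))
        (fun q hq => by linarith [h0 q (Finset.mem_insert_of_mem hq)])
      have h3 : 0 ≤ ∏ q ∈ S, (1 - g q) := Finset.prod_nonneg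
        (fun q hq => sub_nonneg.mpr (h1 q (Finset.mem_insert_of_mem hq)))
      nlinarith
    | succ r =>
      rw [SA_bon_succ hp]
      have e1 := ih' (r + 1)
      have e2 := mul_nonneg hp0 (ih' r)
      have e3 : (-1 : ℝ) ^ (r + 1) * (bon S g (r + 1) - g p * bon S g r -
          (1 - g p) * ∏ q ∈ S, (1 - g q)) =
          (-1 : ℝ) ^ (r + 1) * (bon S g (r + 1) - ∏ q ∈ S, (1 - g q)) +
          g p * ((-1 : ℝ) ^ r * (bon S g r - ∏ q ∈ S, (1 - g q))) := by
        rw [pow_succ]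
        ring
      rw [e3]
      exact add_nonneg e1 e2

theorem bon_ge (S : Finset ℕ) (g : ℕ → ℝ) (h0 : ∀ p ∈ S, 0 ≤ g p) (h1 : ∀ p ∈ S, g p ≤ 1) (b : ℕ) :
    ∏ p ∈ S, (1 - g p) ≤ bon S g (2 * b) := by
  have h := SA_main g S h0 h1 (2 * b)
  rw [pow_mul, neg_one_sq, one_pow, one_mul] at h
  linarith

theorem bon_sub_le (S : Finset ℕ) (g : ℕ → ℝ) (h0 : ∀ p ∈ S, 0 ≤ g p) (h1 : ∀ p ∈ S, g p ≤ 1) (b : ℕ) :
    bon S g (2 * b) - esy S g (2 * b + 1) ≤ ∏ p ∈ S, (1 - g p) := by
  have h := SA_main g S h0 h1 (2 * b + 1)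
  have h2 : bon S g (2 * b + 1) = bon S g (2 * b) - esy S g (2 * b + 1) := by
    unfold bon
    rw [Finset.sum_range_succ _ (2 * b + 1), pow_succ, pow_mul, neg_one_sq, one_pow]
    ring
  rw [pow_succ, pow_mul, neg_one_sq, one_pow, h2] at h
  linarith

end Pool.Agent.Lib.MP_42948a_nt.OA
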