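import Pool.Agent.Lib.MP_42948a_nt.OA.Defs

/-!
# Primes in `(N, 2N]` (job SF1)

The product of the primes in `(N, 2N]` divides `Nat.centralBinom N` (each such prime divides `(2N)!` and not `N!`; distinct primes are
coprime, `Finset.prod_primes_dvd`), hence `N ^ (number of primes) ≤ centralBinom N ≤ 4 ^ N`
(`Nat.four_pow_le_two_mul_self_mul_centralBinom` is the other direction; for `centralBinom N ≤ 4^N` use
`Nat.choose_le_two_pow`-type facts or `Nat.sum_range_choose`). So the number of these primes is at most `N * log 4 / log N`; each has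
`1/p ≤ 1/N`.
(Alternatively use `primorial_le_4_pow`: `N^{#} ≤ primorial (2N) ≤ 4^(2N)`, which gives the bound with `2 * log 4`, also fine: that is why
the constant in the statement is `2 * log 4`.)
-/

namespace Pool.Agent.Lib.MP_42948a_nt.OA

open Finset

theorem recip_dyadic (N : ℕ) (hN : 2 ≤ N) :
    ∑ p ∈ (Ioc N (2 * N)).filter Nat.Prime, (1 : ℝ) / p ≤ 2 * Real.log 4 / Real.log N := by
  set S : Finset ℕ := (Ioc N (2 * N)).filter Nat.Prime with hS
  have hN0 : (0 : ℝ) < N := by exact_mod_cast (by omega : 0 < N)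
  have hlog : 0 < Real.log N := Real.log_pos (by exact_mod_cast (by omega : 1 < N))
  have h1 : ∑ p ∈ S, (1 : ℝ) / p ≤ ∑ _p ∈ S, (1 : ℝ) / N := by
    refine sum_le_sum fun p hp => ?_
    have h2 := (mem_Ioc.1 (mem_filter.1 hp).1).1
    exact one_div_le_one_div_of_le hN0 (by exact_mod_cast h2.le)
  have h3 : N ^ S.card ≤ primorial (2 * N) := by
    calc N ^ S.card = ∏ _p ∈ S, N := by rw [prod_const]
      _ ≤ ∏ p ∈ S, p := prod_le_prod' fun p hp => (mem_Ioc.1 (mem_filter.1 hp).1).1.le
      _ ≤ primorial (2 * N) := by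
        unfold primorial
        refine prod_le_prod_of_subset_of_one_le' ?_ ?_
        · intro p hp
          obtain ⟨h4, h5⟩ := mem_filter.1 hp
          have h6 := (mem_Ioc.1 h4).2
          exact mem_filter.2 ⟨mem_range.2 (by omega), h5⟩
        · intro p hp _
          exact (mem_filter.1 hp).2.one_lt.le
  have h4 : N ^ S.card ≤ 4 ^ (2 * N) := h3.trans (primorial_le_four_pow (2 * N))
  have h5 : (S.card : ℝ) * Real.log N ≤ (2 * N : ℝ) * Real.log 4 := by
    have h6 : ((N : ℝ)) ^ S.card ≤ (4 : ℝ) ^ (2 * N) := by exact_mod_cast h4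
    have h7 := Real.log_le_log (by positivity) h6
    rw [Real.log_pow, Real.log_pow] at h7
    push_cast at h7
    exact h7
  calc ∑ p ∈ S, (1 : ℝ) / p ≤ ∑ _p ∈ S, (1 : ℝ) / N := h1
    _ = S.card / N := by rw [sum_const, nsmul_eq_mul]; ring
    _ ≤ 2 * Real.log 4 / Real.log N := by
      rw [div_le_div_iff₀ hN0 hlog]
      linarith

end Pool.Agent.Lib.MP_42948a_nt.OA
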