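import Pool.Agent.Lib.MP_42948a_nt.OA.EH
import Pool.Agent.Lib.MP_42948a_nt.OA.EI
import Pool.Agent.Lib.MP_42948a_nt.OA.FA
import Pool.Agent.Lib.MP_42948a_nt.OA.FB
import Pool.Agent.Lib.MP_42948a_nt.OA.GB
import Pool.Agent.Lib.MP_42948a_nt.OA.ZB
import Pool.Agent.Lib.MP_42948a_nt.OA.ZC
import Pool.Agent.Lib.MP_42948a_nt.OA.EJ
import Pool.Agent.Lib.MP_42948a_nt.OA.RI
import Pool.Agent.Lib.MP_42948a_nt.OA.ZD

namespace Pool.Agent.Lib.MP_42948a_nt.OA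

open Finset

theorem core_A (K : ℕ) (hK : SieveProp K) (η c : ℝ) (hη : 0 < η) (hη1 : η ≤ 1 / 2)
    (hc : c * (16 * (3 * K + 4)) = η) :
    ∃ d0 : ℕ, ∀ d : ℕ, d0 ≤ d → ∀ g : ℕ → ℤ,
      (∀ m n : ℕ, 0 < m → 0 < n → g (m * n) = g m * g n) →
      (∀ n : ℕ, 0 < n → g n = 1 ∨ g n = -1) →
      ∀ (a : (ZMod d)ˣ) (s : ℤ),
        (∀ x y : ℕ, Rough ⌊(d : ℝ) ^ c⌋₊ x → Rough ⌊(d : ℝ) ^ c⌋₊ y → (x : ℝ) ≤ (d : ℝ) ^ (1 + 2 * η) →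
          (y : ℝ) ≤ (d : ℝ) ^ (1 + 2 * η) → ((x * y : ℕ) : ZMod d) = (a : ZMod d) → g (x * y) = s) →
        ∃ ψ : (ZMod d)ˣ →* ℤˣ, ∀ n : ℕ, Rough ⌊(d : ℝ) ^ c⌋₊ n → (n : ℝ) ≤ (d : ℝ) ^ (1 + 2 * η) →
          ∀ b : (ZMod d)ˣ, (n : ZMod d) = (b : ZMod d) → g n = ((ψ b : ℤˣ) : ℤ) := by
  have hK0 : (0 : ℝ) ≤ (K : ℝ) := Nat.cast_nonneg K
  have hcle : c ≤ η / 64 := by
    have h64 : c * 64 ≤ η := by
      have hc0 : 0 ≤ c := by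
        by_contra hcon
        rw [not_le] at hcon
        nlinarith
      nlinarith [mul_nonneg hc0 hK0]
    linarith
  set k : ℕ := ⌈1 / η⌉₊ with hkdef
  have hη' : 0 < 1 / η := by positivity
  have hk1 : 1 ≤ k := Nat.one_le_ceil_iff.2 hη'
  have hkr : (0 : ℝ) < (k : ℝ) := by exact_mod_cast hk1
  have hkge : 1 / η ≤ (k : ℝ) := Nat.le_ceil _
  have hkη : 1 / (k : ℝ) ≤ η := by
    rw [div_le_iff₀ hkr]
    have := (div_le_iff₀ hη).1 hkge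
    linarith
  have hkle : (k : ℝ) ≤ 2 / η := by
    have h1 : (k : ℝ) < 1 / η + 1 := Nat.ceil_lt_add_one hη'.le
    have h2 : 1 ≤ 1 / η := by
      rw [le_div_iff₀ hη]; linarith
    have h3 : 2 / η = 1 / η + 1 / η := by ring
    linarith
  have hck : c ≤ 1 / (2 * (k : ℝ)) := by
    have h1 : (k : ℝ) * η ≤ 2 := (le_div_iff₀ hη).1 hkle
    have h2 : η / 64 ≤ 1 / (2 * (k : ℝ)) := by
      rw [div_le_div_iff₀ (by norm_num) (by positivity)]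
      linarith
    linarith
  obtain ⟨d1, h1⟩ := num_E1 K η c hη hc
  obtain ⟨d2, h2⟩ := num_E2 K η c hη hc
  obtain ⟨d3, h3⟩ := many_primes k hk1 (η / 8) (by positivity) (by linarith)
  refine ⟨max (max d1 d2) (max d3 2), fun d hd g hg hv a s hA => ?_⟩
  have hd1 : d1 ≤ d := ((le_max_left _ _).trans (le_max_left _ _)).trans hd
  have hd2 : d2 ≤ d := ((le_max_right _ _).trans (le_max_left _ _)).trans hd
  have hd3 : d3 ≤ d := ((le_max_left _ _).trans (le_max_right _ _)).trans hd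
  have hd4 : 2 ≤ d := ((le_max_right _ _).trans (le_max_right _ _)).trans hd
  have hne : NeZero d := ⟨by omega⟩
  have hdr : (1 : ℝ) ≤ (d : ℝ) := by
    have h : 1 ≤ d := by omega
    exact_mod_cast h
  have hd0 : (0 : ℝ) ≤ (d : ℝ) := by linarith
  obtain ⟨hz, hzN⟩ := h1 d hd1
  have hzle : ((⌊(d : ℝ) ^ c⌋₊ : ℕ) : ℝ) ≤ (d : ℝ) ^ (1 / (2 * (k : ℝ))) :=
    (Nat.floor_le (Real.rpow_nonneg hd0 c)).trans (Real.rpow_le_rpow_of_exponent_le hdr hck)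
  obtain ⟨b1, b2, b3, _, b5⟩ := num_basic η hη k hk1 hkη d (by omega)
  have hmp := h3 d hd3 _ hzle
  have hcH := card_Hgen d ⌊(d : ℝ) ^ c⌋₊ ⌊(d : ℝ) ^ (1 / (k : ℝ))⌋₊ k hd4 b5
  have hH : (d : ℝ) ^ (1 - η / 8) ≤
      (Nat.card (Hgen d ⌊(d : ℝ) ^ c⌋₊ ⌊(d : ℝ) ^ (1 / (k : ℝ))⌋₊) : ℝ) := by
    have e1 : (k : ℝ) ^ k * (d : ℝ) ^ (1 - η / 8) ≤
        (k : ℝ) ^ k * (Nat.card (Hgen d ⌊(d : ℝ) ^ c⌋₊ ⌊(d : ℝ) ^ (1 / (k : ℝ))⌋₊) : ℝ) := by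
      have e2 : ((k : ℝ) * (d : ℝ) ^ ((1 - η / 8) / k)) ^ k = (k : ℝ) ^ k * (d : ℝ) ^ (1 - η / 8) := by
        rw [mul_pow, ← Real.rpow_natCast ((d : ℝ) ^ ((1 - η / 8) / k)) k, ← Real.rpow_mul hd0,
          div_mul_cancel₀ _ hkr.ne']
      rw [← e2]
      refine (pow_le_pow_left₀ (by positivity) hmp k).trans ?_
      exact_mod_cast hcH
    exact le_of_mul_le_mul_left e1 (by positivity)
  obtain ⟨ψ, hψ⟩ := algebra_prod d ⌊(d : ℝ) ^ c⌋₊ ⌊(d : ℝ) ^ (1 + η)⌋₊ ⌊(d : ℝ) ^ (1 / 2 + η)⌋₊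
    ⌊(d : ℝ) ^ (1 / (k : ℝ))⌋₊ ⌊(d : ℝ) ^ (1 + 2 * η)⌋₊ g hg hv a s
    (fun b => exists_rough_class K hK _ d _ hz (by omega) hzN b)
    (fun b => exists_rough_coset K hK _ d _ hz _ (h2 d hd2 _ hH) b)
    b1 b2 b3
    (by
      intro n m hn hm hnX hmX hnm
      refine hA n m hn hm ((Nat.le_floor_iff (Real.rpow_nonneg hd0 _)).1 hnX) ?_ hnm
      exact ((Nat.le_floor_iff (Real.rpow_nonneg hd0 _)).1 hmX).trans
        (Real.rpow_le_rpow_of_exponent_le hdr (by linarith)))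
  refine ⟨ψ, fun n hn hnX b hb => hψ n hn ?_ b hb⟩
  exact (Nat.le_floor_iff (Real.rpow_nonneg hd0 _)).2 hnX

theorem core_B (K : ℕ) (hK : SieveProp K) (η c : ℝ) (hη : 0 < η) (hη1 : η ≤ 1 / 2)
    (hc : c * (16 * (3 * K + 4)) = η) :
    ∃ d0 : ℕ, ∀ d : ℕ, d0 ≤ d → ∀ ψ : (ZMod d)ˣ →* ℤˣ,
      ¬ ∀ n : ℕ, Rough ⌊(d : ℝ) ^ c⌋₊ n → (n : ℝ) ≤ (d : ℝ) ^ (1 + 2 * η) →
          ∀ b : (ZMod d)ˣ, (n : ZMod d) = (b : ZMod d) →
            (-1 : ℤ) ^ (ArithmeticFunction.cardFactors n) = ((ψ b : ℤˣ) : ℤ) := by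
  obtain ⟨d1, h1⟩ := num_E1 K η c hη hc
  obtain ⟨d2, h2⟩ := num_E3 K η c hη hc
  obtain ⟨d3, h3⟩ := many_primes 1 le_rfl (1 / 2) (by norm_num) (by norm_num)
  refine ⟨max (max d1 d2) (max d3 2), fun d hd ψ H => ?_⟩
  have hd1 : d1 ≤ d := ((le_max_left _ _).trans (le_max_left _ _)).trans hd
  have hd2 : d2 ≤ d := ((le_max_right _ _).trans (le_max_left _ _)).trans hd
  have hd3 : d3 ≤ d := ((le_max_left _ _).trans (le_max_right _ _)).trans hd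
  have hd4 : 2 ≤ d := ((le_max_right _ _).trans (le_max_right _ _)).trans hd
  have hdr : (1 : ℝ) ≤ (d : ℝ) := by
    have h : 1 ≤ d := by omega
    exact_mod_cast h
  have hd0 : (0 : ℝ) ≤ (d : ℝ) := by linarith
  have hz := (h1 d hd1).1
  by_cases hψ : ψ = 1
  · have hK0 : (0 : ℝ) ≤ (K : ℝ) := Nat.cast_nonneg K
    have hcc : c ≤ 1 / 2 := by
      by_contra hcon
      rw [not_le] at hcon
      nlinarith
    have hzle : ((⌊(d : ℝ) ^ c⌋₊ : ℕ) : ℝ) ≤ (d : ℝ) ^ (1 / (2 * ((1 : ℕ) : ℝ))) := by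
      refine (Nat.floor_le (Real.rpow_nonneg hd0 c)).trans
        (Real.rpow_le_rpow_of_exponent_le hdr ?_)
      rw [Nat.cast_one, mul_one]
      exact hcc
    have hcard := h3 d hd3 _ hzle
    have hpos : 0 < (primesOff d ⌊(d : ℝ) ^ c⌋₊ ⌊(d : ℝ) ^ (1 / ((1 : ℕ) : ℝ))⌋₊).card := by
      rcases Nat.eq_zero_or_pos (primesOff d ⌊(d : ℝ) ^ c⌋₊ ⌊(d : ℝ) ^ (1 / ((1 : ℕ) : ℝ))⌋₊).card with h | h
      · exfalso
        rw [h, Nat.cast_zero, Nat.cast_one, one_mul] at hcard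
        have h4 : (0 : ℝ) < (d : ℝ) ^ ((1 - 1 / 2 : ℝ) / 1) := Real.rpow_pos_of_pos (by linarith) _
        linarith
      · exact h
    obtain ⟨p, hp⟩ := Finset.card_pos.1 hpos
    rw [primesOff, Finset.mem_filter, Finset.mem_Icc] at hp
    obtain ⟨⟨_, hpY⟩, hpp, hpz, hpd⟩ := hp
    have hcop : Nat.Coprime p d := (Nat.Prime.coprime_iff_not_dvd hpp).2 hpd
    have hrough : Rough ⌊(d : ℝ) ^ c⌋₊ p := by
      refine ⟨hpp.pos, fun q hq hqp => ?_⟩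
      rw [(Nat.prime_dvd_prime_iff_eq hq hpp).1 hqp]
      exact hpz
    have hple : (p : ℝ) ≤ (d : ℝ) ^ (1 + 2 * η) := by
      have h4 : (p : ℝ) ≤ (d : ℝ) ^ (1 / ((1 : ℕ) : ℝ)) :=
        (Nat.le_floor_iff (Real.rpow_nonneg hd0 _)).1 hpY
      refine h4.trans (Real.rpow_le_rpow_of_exponent_le hdr ?_)
      rw [Nat.cast_one, div_one]
      linarith
    have h5 := H p hrough hple (ZMod.unitOfCoprime p hcop) (ZMod.coe_unitOfCoprime p hcop).symm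
    rw [hψ, ArithmeticFunction.cardFactors_apply_prime hpp, pow_one, MonoidHom.one_apply,
      Units.val_one] at h5
    omega
  · have hne : NeZero d := ⟨by omega⟩
    have hX : 1 ≤ ⌊(d : ℝ) ^ (1 + 2 * η)⌋₊ := by
      rw [Nat.one_le_floor_iff]
      exact Real.one_le_rpow hdr (by linarith)
    obtain ⟨hE, hE1, hEX, hfin⟩ := h2 d hd2
    refine no_imitation K hK ⌊(d : ℝ) ^ c⌋₊ d ⌊(d : ℝ) ^ (1 + 2 * η)⌋₊ hz (by omega) hX (chi ψ)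
      (chi_mul ψ) (chi_one ψ) (chi_val ψ) (chi_noncoprime ψ) ?_ (2 * BB d)
      ((d : ℝ) ^ (1 / 2 + η / 4)) (chi_sum d ψ hψ) hE hE1 hEX hfin
    intro n hn hnX hcop
    have h4 : (n : ℝ) ≤ (d : ℝ) ^ (1 + 2 * η) := (Nat.le_floor_iff (Real.rpow_nonneg hd0 _)).1 hnX
    have h5 := H n hn h4 (ZMod.unitOfCoprime n hcop) (ZMod.coe_unitOfCoprime n hcop).symm
    rw [chi_eq ψ n (ZMod.unitOfCoprime n hcop) (ZMod.coe_unitOfCoprime n hcop).symm, ← h5]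
    push_cast
    rfl

end Pool.Agent.Lib.MP_42948a_nt.OA
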