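import Pool.Agent.Lib.MP_42948a_nt.OA.SO
import Pool.Agent.Lib.MP_42948a_nt.OA.ZH

/-!
# Final statements

`K` from `sieve`, `η = min ε 1 / 2`, `c = η / (16 (3K+4))`. `Rough ⌊d^c⌋₊ n` iff `0 < n` and every prime `p ∣ n` has `d^c < p`.
-/

namespace Pool.Agent.Lib.MP_42948a_nt.OA

open Finset

private theorem ZI_list (x : ℝ) (hx : 0 ≤ x) (l : List ℕ) (hl : ∀ p ∈ l, x < (p : ℝ)) :
    x ^ l.length ≤ ((l.prod : ℕ) : ℝ) := by
  induction l with
  | nil => simp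
  | cons p l ih =>
    rw [List.length_cons, List.prod_cons, Nat.cast_mul, pow_succ, mul_comm]
    exact mul_le_mul (hl p (List.mem_cons_self ..)).le (ih fun q hq => hl q (List.mem_cons_of_mem _ hq))
      (pow_nonneg hx _) (Nat.cast_nonneg _)

private theorem ZI_omega (θ c : ℝ) (hc : 0 < c) (d : ℕ) (hd : 2 ≤ d) (n : ℕ) (hn : 0 < n)
    (hn1 : (n : ℝ) ≤ (d : ℝ) ^ θ) (hn2 : ∀ p : ℕ, p.Prime → p ∣ n → (d : ℝ) ^ c < p) :
    (ArithmeticFunction.cardFactors n : ℝ) ≤ θ / c := by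
  have hd1 : (1 : ℝ) < d := by
    have : (2 : ℝ) ≤ d := by exact_mod_cast hd
    linarith
  have hd0 : (0 : ℝ) < d := by linarith
  have h1 : ((d : ℝ) ^ c) ^ n.primeFactorsList.length ≤ ((n.primeFactorsList.prod : ℕ) : ℝ) :=
    ZI_list _ (Real.rpow_nonneg hd0.le _) _ fun p hp =>
      hn2 p (Nat.prime_of_mem_primeFactorsList hp) (Nat.dvd_of_mem_primeFactorsList hp)
  rw [Nat.prod_primeFactorsList hn.ne', ← Real.rpow_natCast, ← Real.rpow_mul hd0.le] at h1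
  have h2 := h1.trans hn1
  have h3 : c * (n.primeFactorsList.length : ℝ) ≤ θ := (Real.rpow_le_rpow_left_iff hd1).1 h2
  rw [ArithmeticFunction.cardFactors_apply, le_div_iff₀ hc, mul_comm]
  exact h3

private theorem ZI_rough (x : ℝ) (hx : 0 ≤ x) (n : ℕ) :
    Rough ⌊x⌋₊ n ↔ 0 < n ∧ ∀ p : ℕ, p.Prime → p ∣ n → x < p := by
  unfold Rough
  refine and_congr_right fun _ => forall_congr' fun p => forall_congr' fun _ => forall_congr' fun _ => ?_
  exact Nat.floor_lt hx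

theorem final_A (ε : ℝ) (hε : 0 < ε) (hε1 : ε ≤ 1) :
    ∃ c : ℝ, 0 < c ∧ ∃ d₀ : ℕ, ∀ d : ℕ, d₀ ≤ d → ∀ g : ℕ → ℤ,
      (∀ m n : ℕ, 0 < m → 0 < n → g (m * n) = g m * g n) →
      (∀ n : ℕ, 0 < n → g n = 1 ∨ g n = -1) →
      ((∀ a : ℕ, a.Coprime d → ∀ s : ℤ, s = 1 ∨ s = -1 →
        ∃ x y : ℕ, 0 < x ∧ 0 < y ∧ (x : ℝ) ≤ (d : ℝ) ^ (1 + ε) ∧ (y : ℝ) ≤ (d : ℝ) ^ (1 + ε) ∧
          x * y ≡ a [MOD d] ∧ (∀ p : ℕ, p.Prime → p ∣ x * y → (d : ℝ) ^ c < p) ∧ g (x * y) = s) ↔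
      ¬ ∃ ψ : (ZMod d)ˣ →* ℤˣ, ∀ (n : ℕ) (h : n.Coprime d), 0 < n → (n : ℝ) ≤ (d : ℝ) ^ (1 + ε) →
        (∀ p : ℕ, p.Prime → p ∣ n → (d : ℝ) ^ c < p) →
        g n = ((ψ (ZMod.unitOfCoprime n h) : ℤˣ) : ℤ)) := by
  obtain ⟨K, hK⟩ := sieve
  have hK1 : (0 : ℝ) < 16 * (3 * K + 4) := by positivity
  have hc1 : (ε / 2 / (16 * (3 * K + 4))) * (16 * (3 * K + 4)) = ε / 2 := div_mul_cancel₀ _ hK1.ne'
  obtain ⟨d0, hd0⟩ := core_A K hK (ε / 2) (ε / 2 / (16 * (3 * K + 4))) (by positivity) (by linarith) hc1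
  refine ⟨ε / 2 / (16 * (3 * K + 4)), by positivity, max d0 2, ?_⟩
  intro d hd g hg1 hg2
  have hdd0 : d0 ≤ d := (le_max_left _ _).trans hd
  have hd2 : 2 ≤ d := (le_max_right _ _).trans hd
  have hd1 : (1 : ℝ) ≤ d := by
    have : (2 : ℝ) ≤ d := by exact_mod_cast hd2
    linarith
  have hx : (0 : ℝ) ≤ (d : ℝ) ^ (ε / 2 / (16 * (3 * K + 4))) := Real.rpow_nonneg (Nat.cast_nonneg _) _
  have e12 : 1 + 2 * (ε / 2) = 1 + ε := by ring
  constructor
  · rintro hall ⟨ψ, hψ⟩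
    obtain ⟨x, y, hx0, hy0, hxd, hyd, hxy, hxyr, hgxy⟩ := hall 1 (Nat.coprime_one_left d) (-1) (Or.inr rfl)
    have hcop : (x * y).Coprime d := by
      have h1 : Nat.gcd (x * y) d = Nat.gcd 1 d := Nat.ModEq.gcd_eq hxy
      rw [Nat.Coprime, h1, Nat.gcd_one_left]
    have hxc : x.Coprime d := Nat.Coprime.coprime_dvd_left (Dvd.intro _ rfl) hcop
    have hyc : y.Coprime d := Nat.Coprime.coprime_dvd_left (Dvd.intro_left _ rfl) hcop
    have e1 := hψ x hxc hx0 hxd (fun p hp hpx => hxyr p hp (hpx.mul_right y))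
    have e2 := hψ y hyc hy0 hyd (fun p hp hpy => hxyr p hp (hpy.mul_left x))
    rw [hg1 x y hx0 hy0, e1, e2, ← Units.val_mul, ← map_mul] at hgxy
    have e3 : ZMod.unitOfCoprime x hxc * ZMod.unitOfCoprime y hyc = 1 := by
      apply Units.ext
      rw [Units.val_mul, ZMod.coe_unitOfCoprime, ZMod.coe_unitOfCoprime, Units.val_one, ← Nat.cast_mul]
      have := (ZMod.natCast_eq_natCast_iff (x * y) 1 d).2 hxy
      rw [this, Nat.cast_one]
    rw [e3, map_one, Units.val_one] at hgxy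
    norm_num at hgxy
  · intro hno
    by_contra hcon1
    rw [not_forall] at hcon1
    obtain ⟨a, hcon1⟩ := hcon1
    rw [Classical.not_imp, not_forall] at hcon1
    obtain ⟨ha, s, hcon1⟩ := hcon1
    rw [Classical.not_imp] at hcon1
    obtain ⟨hs, hcon1⟩ := hcon1
    refine hno ?_
    obtain ⟨ψ, hψ⟩ := hd0 d hdd0 g hg1 hg2 (ZMod.unitOfCoprime a ha) (-s) (by
      intro x y hx1 hy1 hxd hyd hxy
      have hr := hx1.mul hy1
      rw [ZI_rough _ hx] at hx1 hy1 hr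
      rw [e12] at hxd hyd
      have h1 : g (x * y) ≠ s := by
        intro h
        refine hcon1 ⟨x, y, hx1.1, hy1.1, hxd, hyd, ?_, hr.2, h⟩
        rw [ZMod.coe_unitOfCoprime] at hxy
        exact (ZMod.natCast_eq_natCast_iff (x * y) a d).1 hxy
      rcases hg2 (x * y) hr.1 with h | h
      · rcases hs with h' | h'
        · exact absurd (h.trans h'.symm) h1
        · rw [h, h', neg_neg]
      · rcases hs with h' | h'
        · rw [h, h']
        · exact absurd (h.trans h'.symm) h1)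
    refine ⟨ψ, fun n h hn hn1 hn2 => ?_⟩
    refine hψ n ((ZI_rough _ hx n).2 ⟨hn, hn2⟩) ?_
      (ZMod.unitOfCoprime n h) (ZMod.coe_unitOfCoprime n h).symm
    rw [e12]
    exact hn1

theorem final_B (ε : ℝ) (hε : 0 < ε) :
    ∃ c : ℝ, 0 < c ∧ ∃ d₀ : ℕ, ∀ d : ℕ, d₀ ≤ d → ∀ a : ℕ, a.Coprime d → ∀ s : ℕ, s < 2 →
      ∃ x y : ℕ, 0 < x ∧ 0 < y ∧ (x : ℝ) ≤ (d : ℝ) ^ (1 + ε) ∧ (y : ℝ) ≤ (d : ℝ) ^ (1 + ε) ∧
        x * y ≡ a [MOD d] ∧ (∀ p : ℕ, p.Prime → p ∣ x * y → (d : ℝ) ^ c < p) ∧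
        ArithmeticFunction.cardFactors (x * y) % 2 = s ∧
        (ArithmeticFunction.cardFactors (x * y) : ℝ) ≤ (2 + 2 * ε) / c := by
  obtain ⟨K, hK⟩ := sieve
  obtain ⟨δ, hδ0, hδ1, hδ2⟩ : ∃ δ : ℝ, 0 < δ ∧ δ ≤ ε ∧ δ ≤ 1 :=
    ⟨min ε 1, lt_min hε one_pos, min_le_left _ _, min_le_right _ _⟩
  have hK1 : (0 : ℝ) < 16 * (3 * K + 4) := by positivity
  have hc1 : (δ / 2 / (16 * (3 * K + 4))) * (16 * (3 * K + 4)) = δ / 2 := div_mul_cancel₀ _ hK1.ne'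
  obtain ⟨d0, hd0⟩ := core_A K hK (δ / 2) (δ / 2 / (16 * (3 * K + 4))) (by positivity) (by linarith) hc1
  obtain ⟨d0', hd0'⟩ := core_B K hK (δ / 2) (δ / 2 / (16 * (3 * K + 4))) (by positivity) (by linarith) hc1
  have hcpos : 0 < δ / 2 / (16 * (3 * K + 4)) := by positivity
  refine ⟨δ / 2 / (16 * (3 * K + 4)), hcpos, max (max d0 d0') 2, ?_⟩
  intro d hd a ha s hs
  have hdd0 : d0 ≤ d := (le_max_left _ _).trans ((le_max_left _ _).trans hd)
  have hdd0' : d0' ≤ d := (le_max_right _ _).trans ((le_max_left _ _).trans hd)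
  have hd2 : 2 ≤ d := (le_max_right _ _).trans hd
  have hd1 : (1 : ℝ) ≤ d := by
    have : (2 : ℝ) ≤ d := by exact_mod_cast hd2
    linarith
  have hd00 : (0 : ℝ) < d := by linarith
  have hx : (0 : ℝ) ≤ (d : ℝ) ^ (δ / 2 / (16 * (3 * K + 4))) := Real.rpow_nonneg (Nat.cast_nonneg _) _
  have e12 : 1 + 2 * (δ / 2) = 1 + δ := by ring
  by_contra hcon
  obtain ⟨ψ, hψ⟩ := hd0 d hdd0 (fun n => (-1 : ℤ) ^ (ArithmeticFunction.cardFactors n))
    (by
      intro m n hm hn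
      show (-1 : ℤ) ^ (ArithmeticFunction.cardFactors (m * n)) = _
      rw [ArithmeticFunction.cardFactors_mul hm.ne' hn.ne', pow_add])
    (by
      intro n _
      exact neg_one_pow_eq_or ℤ _)
    (ZMod.unitOfCoprime a ha) ((-1) ^ (s + 1)) (by
      intro x y hx1 hy1 hxd hyd hxy
      have hr := hx1.mul hy1
      rw [ZI_rough _ hx] at hx1 hy1 hr
      rw [e12] at hxd hyd
      have hmono : (d : ℝ) ^ (1 + δ) ≤ (d : ℝ) ^ (1 + ε) :=
        Real.rpow_le_rpow_of_exponent_le hd1 (by linarith)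
      have hxd' := hxd.trans hmono
      have hyd' := hyd.trans hmono
      have hxyd : ((x * y : ℕ) : ℝ) ≤ (d : ℝ) ^ (2 + 2 * ε) := by
        have e3 : 2 + 2 * ε = (1 + ε) + (1 + ε) := by ring
        rw [e3, Real.rpow_add hd00]
        push_cast
        exact mul_le_mul hxd' hyd' (Nat.cast_nonneg _) (Real.rpow_nonneg hd00.le _)
      have h1 : ArithmeticFunction.cardFactors (x * y) % 2 ≠ s := by
        intro h
        refine hcon ⟨x, y, hx1.1, hy1.1, hxd', hyd', ?_, hr.2, h, ?_⟩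
        · rw [ZMod.coe_unitOfCoprime] at hxy
          exact (ZMod.natCast_eq_natCast_iff (x * y) a d).1 hxy
        · exact ZI_omega _ _ hcpos d hd2 (x * y) hr.1 hxyd hr.2
      show (-1 : ℤ) ^ (ArithmeticFunction.cardFactors (x * y)) = _
      rcases Nat.even_or_odd (ArithmeticFunction.cardFactors (x * y)) with h | h
      · rw [h.neg_one_pow]
        have h2 := Nat.even_iff.1 h
        have h3 : s = 1 := by omega
        subst h3
        norm_num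
      · rw [h.neg_one_pow]
        have h2 := Nat.odd_iff.1 h
        have h3 : s = 0 := by omega
        subst h3
        norm_num)
  exact hd0' d hdd0' ψ hψ

end Pool.Agent.Lib.MP_42948a_nt.OA
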